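import Mathlib
import Pool.Agent.H387R2.VorDefs

/-!
# Definitions for the smoothed Voronoi formula of the Piltz divisor problem
-/

open MeasureTheory

namespace Pool.Agent.H383.PZ

noncomputable section

/-- the number of ordered factorisations of `n` into `k` positive factors -/
def dk (k n : ℕ) : ℝ := (((ArithmeticFunction.zeta ^ k : ArithmeticFunction ℕ) n : ℕ) : ℝ)

/-- its summatory function -/
def Dk (k : ℕ) (x : ℝ) : ℝ := ∑ n ∈ Finset.Icc 1 ⌊x⌋₊, dk k n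

/-- the uniform probability measure on `[0, δ]` -/
def un (δ : ℝ) : Measure ℝ := (ENNReal.ofReal δ)⁻¹ • volume.restrict (Set.Icc 0 δ)

/-- the law of the sum of `n` independent uniform variables on `[0, δ]` -/
def mu (δ : ℝ) : ℕ → Measure ℝ
  | 0 => Measure.dirac 0
  | (n+1) => (un δ).conv (mu δ n)

/-- the mean of `(R + U) ^ z` -/
def Ke (δ : ℝ) (n : ℕ) (R : ℝ) (z : ℂ) : ℂ := ∫ x, ((R + x : ℝ) : ℂ) ^ z ∂(mu δ n)

/-- the exponent `(k-1)/2` -/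
def hk (k : ℕ) : ℝ := ((k:ℝ) - 1) / 2

/-- the boundary integral over the rectangle `[a,b] × [-1,1]` -/
def Rect (f : ℂ → ℂ) (a b : ℝ) : ℂ :=
  (∫ x in a..b, f (x + ((-1:ℝ):ℂ) * Complex.I)) - (∫ x in a..b, f (x + ((1:ℝ):ℂ) * Complex.I)) +
    Complex.I * (∫ y in (-1:ℝ)..1, f (b + y * Complex.I)) - Complex.I * (∫ y in (-1:ℝ)..1, f (a + y * Complex.I))

/-- the integrand of the Perron integral -/
def Gk (k : ℕ) (δ : ℝ) (n : ℕ) (R : ℝ) (s : ℂ) : ℂ :=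
  riemannZeta s ^ k / s * Ke δ n R (k * s - (hk k : ℂ))

/-- the line `Re w = 3/2` -/
def wk (t : ℝ) : ℂ := 3 / 2 + t * Complex.I

/-- the gamma factor -/
def Ak (k : ℕ) (w : ℂ) : ℂ :=
  (2 * (2 * Real.pi : ℂ) ^ (-w) * Complex.Gamma w * Complex.cos (Real.pi * w / 2)) ^ k / (1 - w)

/-- the model gamma factor -/
def Mk (k : ℕ) (w : ℂ) : ℂ :=
  -((√(k:ℝ) / Real.pi : ℝ) : ℂ) * (2 * Real.pi * k : ℂ) ^ (-(k * w - (k + 1) / 2)) *
    Complex.Gamma (k * w - (k + 1) / 2) * Complex.cos (Real.pi * k * w / 2)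

/-- the phase `exp(i (k-3) π/4)` -/
def ok (k : ℕ) : ℂ := Complex.exp ((((k:ℝ) - 3) * Real.pi / 4 : ℝ) * Complex.I)

/-- the mean of `cos(2 π k y (R + U) + (k-3) π / 4)` where `y = m ^ (1/k)` -/
def ck (k : ℕ) (δ : ℝ) (n : ℕ) (R y : ℝ) : ℝ :=
  (ok k * H387R2.Vor.ex (k * y * R) * H387R2.Vor.cf (k * y * δ) ^ n).re

/-- the `m`-th term of the smoothed Voronoi series -/
def tk (k : ℕ) (δ : ℝ) (n : ℕ) (R : ℝ) (m : ℕ) : ℝ :=
  dk k m * (m : ℝ) ^ (-(((k:ℝ) + 1) / (2 * k)) : ℝ) * (1 / (Real.pi * √(k:ℝ))) *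
    ck k δ n R ((m : ℝ) ^ (1 / (k:ℝ)))

/-- the normalised error term for the main term `x P(log x)` -/
def Fk (k : ℕ) (P : Polynomial ℝ) (R : ℝ) : ℝ :=
  (Dk k (R ^ k) - R ^ k * P.eval (Real.log (R ^ k))) * R ^ (-hk k)

end

end Pool.Agent.H383.PZ
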