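import Mathlib
import Pool.Agent.H383.PZ.Defs

open MeasureTheory

namespace Pool.Agent.H383.PZ

noncomputable section

/-- the mean of `cos(6 π z (v - U))`, `U` the sum of `n` independent uniform variables on `[0, δ]` -/
def Cq (δ : ℝ) (n : ℕ) (z v : ℝ) : ℝ :=
  (H387R2.Vor.ex (-(3 * z * v)) * H387R2.Vor.cf (3 * z * δ) ^ n).re

/-- the weighted integral -/
def Q3 (b c δ : ℝ) (n : ℕ) (v : ℝ) : ℝ :=
  ∫ z in Set.Ioi (0:ℝ), 3 * ((9/2) * (Real.log z) ^ 2 + b * Real.log z + c) * Cq δ n z v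

end

end Pool.Agent.H383.PZ
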