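import Mathlib
import Pool.Agent.H383.PZ.Defs

open MeasureTheory Filter Topology Set

namespace Pool.Agent.H383.PZ

lemma un_prob {δ : ℝ} (hδ : 0 < δ) : IsProbabilityMeasure (un δ) := by
  constructor
  unfold un
  rw [Measure.smul_apply, Measure.restrict_apply_univ, Real.volume_Icc, sub_zero, smul_eq_mul]
  exact ENNReal.inv_mul_cancel (by simpa using hδ) ENNReal.ofReal_ne_top

lemma mu_prob {δ : ℝ} (hδ : 0 < δ) (n : ℕ) : IsProbabilityMeasure (mu δ n) := by
  induction n with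
  | zero => unfold mu; infer_instance
  | succ n ih =>
    have := un_prob hδ
    unfold mu
    infer_instance

lemma integral_un {E : Type*} [NormedAddCommGroup E] [NormedSpace ℝ E] {δ : ℝ} (hδ : 0 < δ) (f : ℝ → E) :
    ∫ x, f x ∂(un δ) = (1/δ) • ∫ x in (0:ℝ)..δ, f x := by
  unfold un
  rw [integral_smul_measure, ENNReal.toReal_inv, ENNReal.toReal_ofReal hδ.le,
    intervalIntegral.integral_of_le hδ.le, integral_Icc_eq_integral_Ioc, one_div]

lemma un_supp {δ : ℝ} : ∀ᵐ x ∂(un δ), x ∈ Icc 0 δ := by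
  unfold un
  apply Measure.ae_smul_measure
  exact ae_restrict_mem measurableSet_Icc

lemma mu_supp {δ : ℝ} (hδ : 0 < δ) (n : ℕ) : ∀ᵐ x ∂(mu δ n), x ∈ Icc 0 (n * δ) := by
  induction n with
  | zero =>
    unfold mu
    refine (ae_dirac_iff (p := fun x : ℝ => x ∈ Icc (0:ℝ) ((0:ℕ) * δ)) measurableSet_Icc).2 ?_
    simp
  | succ n ih =>
    have := un_prob hδ
    have := mu_prob hδ n
    unfold mu Measure.conv
    refine (ae_map_iff (p := fun x : ℝ => x ∈ Icc (0:ℝ) (((n+1 : ℕ) : ℝ) * δ)) (by fun_prop) measurableSet_Icc).2 ?_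
    have h1 := (Measure.quasiMeasurePreserving_fst (μ := un δ) (ν := mu δ n)).ae un_supp
    have h2 := (Measure.quasiMeasurePreserving_snd (μ := un δ) (ν := mu δ n)).ae ih
    filter_upwards [h1, h2] with x hx1 hx2
    constructor
    · linarith [hx1.1, hx2.1]
    · push_cast; linarith [hx1.2, hx2.2]

lemma integral_succ {E : Type*} [NormedAddCommGroup E] [NormedSpace ℝ E] {δ : ℝ} (hδ : 0 < δ) (n : ℕ)
    {f : ℝ → E} (hf : Integrable f (mu δ (n+1))) :
    ∫ x, f x ∂(mu δ (n+1)) = (1/δ) • ∫ u in (0:ℝ)..δ, ∫ x, f (u + x) ∂(mu δ n) := by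
  have := un_prob hδ
  have := mu_prob hδ n
  change ∫ x, f x ∂((un δ).conv (mu δ n)) = _
  rw [integral_conv (by exact hf), integral_un hδ]

lemma integral_succ' {E : Type*} [NormedAddCommGroup E] [NormedSpace ℝ E] {δ : ℝ} (hδ : 0 < δ) (n : ℕ)
    {f : ℝ → E} (hf : Integrable f (mu δ (n+1))) :
    ∫ x, f x ∂(mu δ (n+1)) = ∫ x, ((1/δ) • ∫ u in (0:ℝ)..δ, f (x + u)) ∂(mu δ n) := by
  have := un_prob hδ
  have := mu_prob hδ n
  have e : mu δ (n+1) = (mu δ n).conv (un δ) := by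
    change (un δ).conv (mu δ n) = _
    exact Measure.conv_comm _ _
  rw [e] at hf ⊢
  rw [integral_conv hf]
  apply integral_congr_ae
  exact Eventually.of_forall (fun x => integral_un hδ _)

/-- bounded measurable functions are integrable -/
lemma int_of_bdd {E : Type*} [NormedAddCommGroup E] {δ : ℝ} (hδ : 0 < δ) (n : ℕ) {f : ℝ → E} {B : ℝ}
    (hm : AEStronglyMeasurable f (mu δ n)) (hB : ∀ x ∈ Icc 0 (n * δ), ‖f x‖ ≤ B) : Integrable f (mu δ n) := by
  have := mu_prob hδ n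
  refine Integrable.of_bound hm B ?_
  filter_upwards [mu_supp hδ n] with x hx
  exact hB x hx

lemma norm_integral_mu_le {E : Type*} [NormedAddCommGroup E] [NormedSpace ℝ E] {δ : ℝ} (hδ : 0 < δ) (n : ℕ)
    {f : ℝ → E} {B : ℝ} (hB : ∀ x ∈ Icc 0 (n * δ), ‖f x‖ ≤ B) : ‖∫ x, f x ∂(mu δ n)‖ ≤ B := by
  have := mu_prob hδ n
  have h := norm_integral_le_of_norm_le_const (μ := mu δ n) (f := f) (C := B) (by
    filter_upwards [mu_supp hδ n] with x hx
    exact hB x hx)
  simpa using h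

lemma cpow_meas (R : ℝ) (z : ℂ) : Measurable (fun x : ℝ => ((R + x : ℝ) : ℂ) ^ z) := by
  fun_prop

lemma norm_cpow_pos {y : ℝ} (hy : 0 < y) (z : ℂ) : ‖(y : ℂ) ^ z‖ = y ^ z.re :=
  Complex.norm_cpow_eq_rpow_re_of_pos hy z

/-- the sup of `y ^ a` over a compact interval -/
lemma rpow_le_max {R T : ℝ} (hR : 0 < R) (hT : R ≤ T) (a : ℝ) {y : ℝ} (hy1 : R ≤ y) (hy2 : y ≤ T) :
    y ^ a ≤ R ^ a + T ^ a := by
  have h1 : 0 < R ^ a := Real.rpow_pos_of_pos hR _
  have h2 : 0 < T ^ a := Real.rpow_pos_of_pos (by linarith) _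
  rcases le_or_gt 0 a with ha | ha
  · have := Real.rpow_le_rpow (by linarith) hy2 ha
    linarith
  · have := Real.rpow_le_rpow_of_nonpos hR hy1 ha.le
    linarith

lemma cpow_int {δ : ℝ} (hδ : 0 < δ) (n : ℕ) {R : ℝ} (hR : 0 < R) (z : ℂ) :
    Integrable (fun x : ℝ => ((R + x : ℝ) : ℂ) ^ z) (mu δ n) := by
  apply int_of_bdd hδ n (B := R ^ z.re + (R + n * δ) ^ z.re) (cpow_meas R z).aestronglyMeasurable
  intro x hx
  rw [norm_cpow_pos (by linarith [hx.1])]
  have : 0 ≤ n * δ := by positivity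
  exact rpow_le_max hR (by linarith) _ (by linarith [hx.1]) (by linarith [hx.2])

lemma Ke_le {δ : ℝ} (hδ : 0 < δ) (n : ℕ) {R : ℝ} (hR : 0 < R) (z : ℂ) {B : ℝ}
    (hB : ∀ x ∈ Icc 0 (n * δ), (R + x) ^ z.re ≤ B) : ‖Ke δ n R z‖ ≤ B := by
  unfold Ke
  apply norm_integral_mu_le hδ n
  intro x hx
  rw [norm_cpow_pos (by linarith [hx.1])]
  exact hB x hx

lemma Ke_succ {δ : ℝ} (hδ : 0 < δ) (n : ℕ) {R : ℝ} (hR : 0 < R) {z : ℂ} (hz : z + 1 ≠ 0) :
    Ke δ (n+1) R z = (1 / (δ * (z + 1))) * (Ke δ n (R + δ) (z + 1) - Ke δ n R (z + 1)) := by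
  have h1 : ∀ x ∈ Icc 0 (n * δ), ((1/δ) • ∫ u in (0:ℝ)..δ, ((R + (x + u) : ℝ) : ℂ) ^ z) =
      (1 / (δ * (z + 1))) * (((R + δ + x : ℝ) : ℂ) ^ (z+1) - ((R + x : ℝ) : ℂ) ^ (z+1)) := by
    intro x hx
    have e1 : ∫ u in (0:ℝ)..δ, ((R + (x + u) : ℝ) : ℂ) ^ z = ∫ u in (R + x)..(R + x + δ), (u : ℂ) ^ z := by
      have := intervalIntegral.integral_comp_add_left (a := 0) (b := δ) (fun u : ℝ => (u : ℂ) ^ z) (R + x)
      rw [add_zero] at this
      rw [← this]
      apply intervalIntegral.integral_congr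
      intro u _
      simp only
      rw [add_assoc]
    rw [e1, integral_cpow (by
      right
      refine ⟨fun h => hz (by rw [h]; ring), ?_⟩
      rw [uIcc_of_le (by linarith)]
      intro h
      linarith [h.1, hx.1])]
    rw [Complex.real_smul]
    push_cast
    rw [show (R:ℂ) + x + δ = R + δ + x by ring]
    have hδ' : (δ : ℂ) ≠ 0 := by exact_mod_cast hδ.ne'
    field_simp
  unfold Ke
  rw [integral_succ' hδ n (cpow_int hδ (n+1) hR z)]
  rw [integral_congr_ae (by filter_upwards [mu_supp hδ n] with x hx; exact h1 x hx)]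
  rw [integral_const_mul, integral_sub]
  · exact cpow_int hδ n (by linarith) _
  · exact cpow_int hδ n hR _

lemma Ke_decay (n : ℕ) : ∀ {δ : ℝ} (_ : 0 < δ) {R : ℝ} (_ : 0 < R) (z : ℂ) (_ : z.im ≠ 0) {B : ℝ}
    (_ : ∀ x ∈ Icc 0 (n * δ), (R + x) ^ (z.re + n) ≤ B), ‖Ke δ n R z‖ ≤ (2 / (δ * |z.im|)) ^ n * B := by
  induction n with
  | zero =>
    intro δ hδ R hR z hz B hB
    rw [pow_zero, one_mul]
    apply Ke_le hδ 0 hR
    intro x hx
    have := hB x hx
    simpa using this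
  | succ n ih =>
    intro δ hδ R hR z hz B hB
    have hz1 : z + 1 ≠ 0 := by
      intro h
      have := congrArg Complex.im h
      simp at this
      exact hz this
    have him : (z+1).im = z.im := by simp
    have hre : (z+1).re = z.re + 1 := by simp
    have hzp : 0 < |z.im| := abs_pos.mpr hz
    rw [Ke_succ hδ n hR hz1]
    have h1 := ih hδ (R := R + δ) (by linarith) (z+1) (by rw [him]; exact hz) (B := B) (by
      intro x hx
      have := hB (δ + x) (by
        constructor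
        · linarith [hx.1]
        · push_cast; linarith [hx.2])
      rw [hre, show R + δ + x = R + (δ + x) by ring, show z.re + 1 + (n:ℝ) = z.re + ((n + 1 : ℕ) : ℝ) by push_cast; ring]
      exact this)
    have h2 := ih hδ (R := R) hR (z+1) (by rw [him]; exact hz) (B := B) (by
      intro x hx
      have := hB x (by
        constructor
        · linarith [hx.1]
        · push_cast; linarith [hx.2])
      rw [hre, show z.re + 1 + (n:ℝ) = z.re + ((n + 1 : ℕ) : ℝ) by push_cast; ring]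
      exact this)
    rw [him] at h1 h2
    have h3 : ‖Ke δ n (R + δ) (z + 1) - Ke δ n R (z + 1)‖ ≤ 2 * ((2 / (δ * |z.im|)) ^ n * B) := by
      refine (norm_sub_le _ _).trans ?_
      linarith
    have h4 : ‖(1 / (δ * (z + 1)) : ℂ)‖ ≤ 1 / (δ * |z.im|) := by
      rw [norm_div, norm_one, norm_mul, Complex.norm_real, Real.norm_of_nonneg hδ.le]
      apply one_div_le_one_div_of_le (by positivity)
      have := Complex.abs_im_le_norm (z+1)
      rw [him] at this
      gcongr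
    rw [norm_mul]
    calc ‖(1 / (δ * (z + 1)) : ℂ)‖ * ‖Ke δ n (R + δ) (z + 1) - Ke δ n R (z + 1)‖ ≤
        (1 / (δ * |z.im|)) * (2 * ((2 / (δ * |z.im|)) ^ n * B)) := by gcongr
      _ = (2 / (δ * |z.im|)) ^ (n+1) * B := by rw [pow_succ]; ring

end Pool.Agent.H383.PZ
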