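import Mathlib
import Pool.Agent.H383.PZ.K1

open MeasureTheory Filter Topology Set

namespace Pool.Agent.H383.PZ

/-- TASK T2b -/
theorem Ke_bound (n : ℕ) (A : ℝ) : ∃ C : ℝ, 0 < C ∧ ∀ (R δ : ℝ) (z : ℂ) (θ : ℝ), 1 ≤ R → 0 < δ → δ ≤ 1/2 →
    |z.re| ≤ A → 0 ≤ θ → θ ≤ n → ‖Ke δ n R z‖ ≤ C * R ^ z.re * (R / (δ * (1 + |z.im|))) ^ θ := by
  set T : ℝ := 1 + n / 2 with hT
  have hT1 : 1 ≤ T := by rw [hT]; have : (0:ℝ) ≤ n := Nat.cast_nonneg n; linarith
  have hT0 : 0 < T := by linarith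
  refine ⟨4 ^ n * T ^ (|A| + n), by positivity, ?_⟩
  intro R δ z θ hR hδ hδ2 hz hθ0 hθ
  have hR0 : 0 < R := by linarith
  have hn0 : (0:ℝ) ≤ n := Nat.cast_nonneg n
  have hA : 0 ≤ A := (abs_nonneg _).trans hz
  rw [abs_of_nonneg hA]
  have key : ∀ (a B : ℝ), |a| ≤ B → ∀ x ∈ Icc 0 (n * δ), (R + x) ^ a ≤ T ^ B * R ^ a := by
    intro a B ha x hx
    have h1 : (n:ℝ) * δ ≤ n / 2 := by nlinarith
    have h2 : R + x ≤ T * R := by rw [hT]; nlinarith [hx.2]
    have hB : 0 ≤ B := (abs_nonneg _).trans ha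
    rcases le_or_gt 0 a with h0 | h0
    · calc (R + x) ^ a ≤ (T * R) ^ a := Real.rpow_le_rpow (by linarith [hx.1]) h2 h0
        _ = T ^ a * R ^ a := Real.mul_rpow hT0.le hR0.le
        _ ≤ T ^ B * R ^ a := by
          have : T ^ a ≤ T ^ B := Real.rpow_le_rpow_of_exponent_le hT1 ((le_abs_self a).trans ha)
          gcongr
    · have h3 : (R + x) ^ a ≤ R ^ a := Real.rpow_le_rpow_of_nonpos hR0 (by linarith [hx.1]) h0.le
      have h4 : 1 ≤ T ^ B := Real.one_le_rpow hT1 hB
      have h5 : 0 < R ^ a := by positivity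
      nlinarith
  set Y : ℝ := R / (δ * (1 + |z.im|)) with hY
  have hden : 0 < δ * (1 + |z.im|) := by positivity
  have hY0 : 0 < Y := by positivity
  have hRz : 0 < R ^ z.re := by positivity
  have h4n : (1:ℝ) ≤ 4 ^ n := one_le_pow₀ (by norm_num)
  rcases le_or_gt 1 Y with h1 | h1
  · have hk := Ke_le hδ n hR0 z (key z.re A hz)
    have h2 : 1 ≤ Y ^ θ := Real.one_le_rpow h1 hθ0
    have h3 : T ^ A ≤ T ^ (A + n) := Real.rpow_le_rpow_of_exponent_le hT1 (by linarith)
    have h5 : 0 < T ^ A := by positivity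
    calc ‖Ke δ n R z‖ ≤ T ^ A * R ^ z.re := hk
      _ ≤ (4 ^ n * T ^ (A + n)) * R ^ z.re := by
        have : T ^ A ≤ 4 ^ n * T ^ (A + n) := by
          calc T ^ A ≤ T ^ (A + n) := h3
            _ ≤ 4 ^ n * T ^ (A + n) := by
              have : 0 < T ^ (A + n) := by positivity
              nlinarith
        gcongr
      _ ≤ 4 ^ n * T ^ (A + n) * R ^ z.re * Y ^ θ := by
        have : 0 < 4 ^ n * T ^ (A + n) * R ^ z.re := by positivity
        nlinarith
  · have him : 1 < |z.im| := by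
      rw [hY, div_lt_one hden] at h1
      nlinarith [abs_nonneg z.im]
    have hzi : z.im ≠ 0 := by
      intro h; rw [h] at him; simp at him; linarith
    have hk := Ke_decay n hδ hR0 z hzi (B := T ^ (A + n) * R ^ (z.re + n)) (by
      intro x hx
      have := key (z.re + n) (A + n) (by
        rw [abs_le] at hz ⊢
        constructor <;> linarith [hz.1, hz.2]) x hx
      exact this)
    have h6 : 2 / (δ * |z.im|) ≤ 4 / (δ * (1 + |z.im|)) := by
      rw [div_le_div_iff₀ (by positivity) hden]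
      nlinarith
    have h7 : Y ^ (n:ℝ) ≤ Y ^ θ := Real.rpow_le_rpow_of_exponent_ge hY0 h1.le hθ
    calc ‖Ke δ n R z‖ ≤ (2 / (δ * |z.im|)) ^ n * (T ^ (A + n) * R ^ (z.re + n)) := hk
      _ ≤ (4 / (δ * (1 + |z.im|))) ^ n * (T ^ (A + n) * R ^ (z.re + n)) := by gcongr
      _ = 4 ^ n * T ^ (A + n) * R ^ z.re * Y ^ (n:ℝ) := by
        rw [Real.rpow_add hR0, Real.rpow_natCast, Real.rpow_natCast, hY, div_pow, div_pow]
        ring
      _ ≤ _ := by gcongr

/-- TASK T2a -/
theorem Ke_diff {δ : ℝ} (hδ : 0 < δ) (n : ℕ) {R : ℝ} (hR : 0 < R) : Differentiable ℂ (Ke δ n R) := by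
  intro z₀
  have := mu_prob hδ n
  set T : ℝ := R + n * δ with hT
  have hnδ : 0 ≤ n * δ := by positivity
  set A : ℝ := |z₀.re| + 1 with hA
  have hA0 : 0 ≤ A := by positivity
  set B : ℝ := (R ^ A + T ^ A) + (R ^ (-A) + T ^ (-A)) with hB
  set L : ℝ := |Real.log R| + |Real.log T| with hL
  have hT0 : 0 < T := by linarith
  have h := hasDerivAt_integral_of_dominated_loc_of_deriv_le (μ := mu δ n)
    (F := fun (z : ℂ) (x : ℝ) => ((R + x : ℝ) : ℂ) ^ z)
    (F' := fun (z : ℂ) (x : ℝ) => ((R + x : ℝ) : ℂ) ^ z * Complex.log ((R + x : ℝ) : ℂ))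
    (x₀ := z₀) (s := Metric.ball z₀ 1) (bound := fun _ => B * L)
    (Metric.ball_mem_nhds _ one_pos) ?_ ?_ ?_ ?_ ?_ ?_
  · exact h.2.differentiableAt
  · exact Eventually.of_forall (fun z => (cpow_meas R z).aestronglyMeasurable)
  · exact cpow_int hδ n hR z₀
  · exact ((cpow_meas R z₀).mul (by fun_prop)).aestronglyMeasurable
  · filter_upwards [mu_supp hδ n] with x hx z hz
    have hy : 0 < R + x := by linarith [hx.1]
    have hre : |z.re| ≤ A := by
      rw [Metric.mem_ball, Complex.dist_eq] at hz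
      have h1 := (Complex.abs_re_le_norm (z - z₀)).trans hz.le
      rw [Complex.sub_re] at h1
      rw [hA]
      have := abs_sub_abs_le_abs_sub z.re z₀.re
      linarith
    rw [norm_mul, norm_cpow_pos hy]
    have h1 : (R + x) ^ z.re ≤ B := by
      rw [hB]
      have a1 := rpow_le_max hR (show R ≤ T by linarith) A (y := R + x) (by linarith [hx.1]) (by linarith [hx.2])
      have a2 := rpow_le_max hR (show R ≤ T by linarith) (-A) (y := R + x) (by linarith [hx.1]) (by linarith [hx.2])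
      have b1 : 0 < (R + x) ^ A := by positivity
      have b2 : 0 < (R + x) ^ (-A) := by positivity
      rcases le_or_gt 1 (R + x) with h | h
      · have := Real.rpow_le_rpow_of_exponent_le h ((le_abs_self _).trans hre)
        linarith
      · have := Real.rpow_le_rpow_of_exponent_ge hy h.le (show -A ≤ z.re by linarith [neg_abs_le z.re])
        linarith
    have h2 : ‖Complex.log ((R + x : ℝ) : ℂ)‖ ≤ L := by
      rw [← Complex.ofReal_log hy.le, Complex.norm_real, Real.norm_eq_abs, hL, abs_le]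
      have c1 : Real.log R ≤ Real.log (R + x) := Real.log_le_log hR (by linarith [hx.1])
      have c2 : Real.log (R + x) ≤ Real.log T := Real.log_le_log hy (by linarith [hx.2])
      constructor
      · linarith [neg_abs_le (Real.log R), abs_nonneg (Real.log T)]
      · linarith [le_abs_self (Real.log T), abs_nonneg (Real.log R)]
    gcongr
  · exact integrable_const _
  · filter_upwards [mu_supp hδ n] with x hx z _
    have hy : ((R + x : ℝ) : ℂ) ≠ 0 := by
      exact_mod_cast (by linarith [hx.1] : R + x ≠ 0)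
    have := (hasDerivAt_id z).const_cpow (c := ((R + x : ℝ) : ℂ)) (Or.inl hy)
    simpa using this

end Pool.Agent.H383.PZ
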