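import Mathlib
import Pool.Agent.H383.PZ.Defs

open MeasureTheory Filter Topology Set

namespace Pool.Agent.H383.PZ

lemma dk_zero (k : ℕ) : dk k 0 = 0 := by simp [dk]

lemma dk_nonneg (k n : ℕ) : 0 ≤ dk k n := Nat.cast_nonneg _

lemma dk_succ (k n : ℕ) : (dk (k+1) n : ℂ) =
    ∑ p ∈ n.divisorsAntidiagonal, (dk k p.1 : ℂ) * ((ArithmeticFunction.zeta p.2 : ℕ) : ℂ) := by
  unfold dk
  rw [pow_succ, ArithmeticFunction.mul_apply]
  push_cast
  rfl

lemma LSeriesHasSum_dk (k : ℕ) {s : ℂ} (hs : 1 < s.re) :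
    LSeriesHasSum (fun n => (dk k n : ℂ)) s (riemannZeta s ^ k) := by
  have h1 : LSeriesHasSum (fun n => ((ArithmeticFunction.zeta n : ℕ) : ℂ)) s (riemannZeta s) := by
    have := (ArithmeticFunction.LSeriesSummable_zeta_iff.mpr hs).LSeriesHasSum
    rwa [ArithmeticFunction.LSeries_zeta_eq_riemannZeta hs] at this
  induction k with
  | zero =>
    rw [pow_zero]
    unfold LSeriesHasSum
    have : LSeries.term (fun n => (dk 0 n : ℂ)) s = fun n => if n = 1 then 1 else 0 := by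
      funext n
      rcases eq_or_ne n 0 with rfl | h0
      · simp
      · rw [LSeries.term_of_ne_zero h0]
        unfold dk
        rw [pow_zero, ArithmeticFunction.one_apply]
        rcases eq_or_ne n 1 with rfl | h1
        · simp
        · simp [h1]
    rw [this]
    exact hasSum_ite_eq 1 1
  | succ k ih =>
    have h2 := LSeriesHasSum.convolution ih h1
    rw [← pow_succ] at h2
    refine (LSeriesHasSum_congr s _ (fun {n} hn => ?_)).1 h2
    rw [LSeries.convolution_def]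
    beta_reduce
    rw [dk_succ]

lemma hasSum_dk (k : ℕ) {s : ℂ} (hs : 1 < s.re) :
    HasSum (fun m : ℕ => (dk k m : ℂ) * (m : ℂ) ^ (-s)) (riemannZeta s ^ k) := by
  have h := LSeriesHasSum_dk k hs
  unfold LSeriesHasSum at h
  have e : (fun m : ℕ => (dk k m : ℂ) * (m : ℂ) ^ (-s)) = LSeries.term (fun n => (dk k n : ℂ)) s := by
    funext m
    rcases eq_or_ne m 0 with rfl | hm
    · simp [dk_zero]
    · rw [LSeries.term_of_ne_zero hm, Complex.cpow_neg, div_eq_mul_inv]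
  rw [e]
  exact h

lemma summable_dk (k : ℕ) {σ : ℝ} (hσ : 1 < σ) : Summable (fun m : ℕ => dk k m * (m : ℝ) ^ (-σ)) := by
  have h := (hasSum_dk k (s := (σ : ℂ)) (by simpa using hσ)).summable.norm
  refine h.congr fun m => ?_
  rcases eq_or_ne m 0 with rfl | hm
  · simp [dk_zero]
  · rw [norm_mul, Complex.norm_real, Real.norm_of_nonneg (dk_nonneg k m)]
    have hm0 : (0:ℝ) < m := by exact_mod_cast Nat.pos_of_ne_zero hm
    have e : ((m : ℕ) : ℂ) = ((m : ℝ) : ℂ) := by norm_cast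
    rw [e, Complex.norm_cpow_eq_rpow_re_of_pos hm0]
    norm_num

lemma norm_nat_cpow {m : ℕ} (hm : 1 ≤ m) (s : ℂ) : ‖(m : ℂ) ^ (-s)‖ = (m : ℝ) ^ (-s.re) := by
  have hm0 : (0:ℝ) < m := by exact_mod_cast hm
  have e : ((m : ℕ) : ℂ) = ((m : ℝ) : ℂ) := by norm_cast
  rw [e, Complex.norm_cpow_eq_rpow_re_of_pos hm0, Complex.neg_re]

lemma zeta_pow_le (k : ℕ) {σ : ℝ} (hσ : 1 < σ) (s : ℂ) (hs : s.re = σ) :
    ‖riemannZeta s ^ k‖ ≤ ∑' m : ℕ, dk k m * (m : ℝ) ^ (-σ) := by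
  have h := hasSum_dk k (s := s) (by rw [hs]; exact hσ)
  have e : ∀ m : ℕ, ‖(dk k m : ℂ) * (m : ℂ) ^ (-s)‖ = dk k m * (m : ℝ) ^ (-σ) := by
    intro m
    rcases eq_or_ne m 0 with rfl | hm
    · simp [dk_zero]
    · rw [norm_mul, Complex.norm_real, Real.norm_of_nonneg (dk_nonneg k m), norm_nat_cpow (Nat.pos_of_ne_zero hm), hs]
  rw [← h.tsum_eq]
  refine (norm_tsum_le_tsum_norm h.summable.norm).trans (le_of_eq ?_)
  exact tsum_congr e

end Pool.Agent.H383.PZ
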