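import Mathlib
import Pool.Agent.H383.PZ.K2
import Pool.Agent.H383.PZ.L

open MeasureTheory Filter Topology Set

namespace Pool.Agent.H383.PZ

lemma mu_ac {δ : ℝ} (hδ : 0 < δ) (n : ℕ) : mu δ (n+1) ≪ volume := by
  have := un_prob hδ
  have := mu_prob hδ n
  have e : mu δ (n+1) = (mu δ n).conv (un δ) := by
    change (un δ).conv (mu δ n) = _
    exact Measure.conv_comm _ _
  rw [e]
  apply Measure.conv_absolutelyContinuous
  unfold un
  exact (Measure.smul_absolutelyContinuous).trans Measure.restrict_le_self.absolutelyContinuous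

/-- the smoothed indicator of `y ≤ (R+U)^k` -/
noncomputable def fP (k : ℕ) (a δ : ℝ) (n : ℕ) (R : ℝ) (y : ℝ) : ℂ :=
  ∫ x, (if y ≤ (R + x) ^ k then (((R + x : ℝ) : ℂ) ^ (a : ℂ)) else 0) ∂(mu δ n)

lemma ite_meas (k : ℕ) (a R : ℝ) : Measurable (fun p : ℝ × ℝ =>
    (if p.1 ≤ (R + p.2) ^ k then (((R + p.2 : ℝ) : ℂ) ^ (a : ℂ)) else 0)) := by
  apply Measurable.ite
  · exact measurableSet_le (by fun_prop) (by fun_prop)
  · fun_prop
  · fun_prop

lemma ite_meas' (k : ℕ) (a R y : ℝ) : Measurable (fun x : ℝ =>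
    (if y ≤ (R + x) ^ k then (((R + x : ℝ) : ℂ) ^ (a : ℂ)) else 0)) := by
  exact (ite_meas k a R).comp (by fun_prop : Measurable (fun x : ℝ => (y, x)))

lemma ite_norm {k : ℕ} {a R δ : ℝ} {n : ℕ} (hR : 0 < R) (hδ : 0 < δ) (y : ℝ) {x : ℝ} (hx : x ∈ Icc 0 (n * δ)) :
    ‖(if y ≤ (R + x) ^ k then (((R + x : ℝ) : ℂ) ^ (a : ℂ)) else 0)‖ ≤ R ^ a + (R + n * δ) ^ a := by
  have hn : 0 ≤ n * δ := by positivity
  have h1 : 0 < R ^ a := by positivity
  have h2 : 0 < (R + n * δ) ^ a := by positivity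
  split_ifs
  · rw [norm_cpow_pos (by linarith [hx.1]), Complex.ofReal_re]
    exact rpow_le_max hR (by linarith) _ (by linarith [hx.1]) (by linarith [hx.2])
  · rw [norm_zero]; positivity

lemma fP_norm {k : ℕ} {a R δ : ℝ} {n : ℕ} (hR : 0 < R) (hδ : 0 < δ) (y : ℝ) :
    ‖fP k a δ n R y‖ ≤ R ^ a + (R + n * δ) ^ a := by
  unfold fP
  exact norm_integral_mu_le hδ n (fun x hx => ite_norm hR hδ y hx)

lemma fP_zero {k : ℕ} {a R δ : ℝ} {n : ℕ} (hR : 0 < R) (hδ : 0 < δ) {y : ℝ} (hy : (R + n * δ) ^ k < y) :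
    fP k a δ n R y = 0 := by
  unfold fP
  rw [integral_eq_zero_of_ae]
  filter_upwards [mu_supp hδ n] with x hx
  rw [if_neg]
  · rfl
  · rw [not_le]
    refine lt_of_le_of_lt ?_ hy
    have := hx.1
    have := hx.2
    gcongr

lemma fP_cont {k : ℕ} (hk : 1 ≤ k) {a R δ : ℝ} {n : ℕ} (hR : 0 < R) (hδ : 0 < δ) :
    Continuous (fP k a δ (n+1) R) := by
  have := mu_prob hδ (n+1)
  rw [continuous_iff_continuousAt]
  intro y0
  unfold fP
  refine continuousAt_of_dominated (bound := fun _ => R ^ a + (R + (n+1:ℕ) * δ) ^ a) ?_ ?_ ?_ ?_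
  · exact Eventually.of_forall (fun y => (ite_meas' k a R y).aestronglyMeasurable)
  · refine Eventually.of_forall (fun y => ?_)
    filter_upwards [mu_supp hδ (n+1)] with x hx
    exact ite_norm hR hδ y hx
  · exact integrable_const _
  · have hset : ∀ᵐ x ∂(mu δ (n+1)), x ∈ Icc 0 ((n+1:ℕ) * δ) → (R + x) ^ k ≠ y0 := by
      have h1 : {x : ℝ | ¬ (x ∈ Icc 0 ((n+1:ℕ) * δ) → (R + x) ^ k ≠ y0)}.Subsingleton := by
        intro x hx x' hx'
        simp only [mem_ofPred_eq, Classical.not_imp, not_not] at hx hx'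
        have h2 : (R + x) ^ k = (R + x') ^ k := by rw [hx.2, hx'.2]
        have h3 := (pow_left_inj₀ (by linarith [hx.1.1]) (by linarith [hx'.1.1]) (by omega)).mp h2
        linarith
      have h2 : (volume : Measure ℝ) {x : ℝ | ¬ (x ∈ Icc 0 ((n+1:ℕ) * δ) → (R + x) ^ k ≠ y0)} = 0 :=
        h1.measure_zero _
      exact (mu_ac hδ n).ae_le h2
    filter_upwards [mu_supp hδ (n+1), hset] with x hx hx2
    have hne := hx2 hx
    rcases lt_or_gt_of_ne hne with h | h
    · have : (fun y : ℝ => (if y ≤ (R + x) ^ k then (((R + x : ℝ) : ℂ) ^ (a : ℂ)) else 0)) =ᶠ[𝓝 y0] fun _ => 0 := by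
        filter_upwards [lt_mem_nhds h] with y hy
        rw [if_neg (not_le.mpr hy)]
      exact (continuousAt_const).congr this.symm
    · have : (fun y : ℝ => (if y ≤ (R + x) ^ k then (((R + x : ℝ) : ℂ) ^ (a : ℂ)) else 0)) =ᶠ[𝓝 y0]
          fun _ => (((R + x : ℝ) : ℂ) ^ (a : ℂ)) := by
        filter_upwards [gt_mem_nhds h] with y hy
        rw [if_pos hy.le]
      exact (continuousAt_const).congr this.symm

lemma mellin_ite {Y : ℝ} (hY : 0 < Y) {s : ℂ} (hs : 0 < s.re) (c : ℂ) :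
    ∫ y in Ioi (0:ℝ), (y : ℂ) ^ (s - 1) * (if y ≤ Y then c else 0) = (Y : ℂ) ^ s / s * c := by
  have h1 : ∫ y in Ioi (0:ℝ), (y : ℂ) ^ (s - 1) * (if y ≤ Y then c else 0) =
      ∫ y in Ioc (0:ℝ) Y, (y : ℂ) ^ (s - 1) * c := by
    rw [← integral_indicator measurableSet_Ioi, ← integral_indicator measurableSet_Ioc]
    congr 1
    funext y
    by_cases h0 : 0 < y
    · by_cases h1 : y ≤ Y
      · rw [indicator_of_mem (by exact h0), indicator_of_mem (by exact ⟨h0, h1⟩), if_pos h1]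
      · rw [indicator_of_mem (by exact h0), indicator_of_notMem (by rintro ⟨_, h⟩; exact h1 h), if_neg h1, mul_zero]
    · rw [indicator_of_notMem (by exact h0), indicator_of_notMem (by rintro ⟨h, _⟩; exact h0 h)]
  have hs0 : s ≠ 0 := by rintro rfl; simp at hs
  rw [h1, integral_mul_const, ← intervalIntegral.integral_of_le hY.le, integral_cpow (by left; simp; linarith)]
  rw [sub_add_cancel, Complex.ofReal_zero, Complex.zero_cpow hs0, sub_zero]

lemma fP_mellin {k : ℕ} {a R δ : ℝ} {n : ℕ} (hR : 0 < R) (hδ : 0 < δ) {s : ℂ} (hs : 0 < s.re) :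
    mellin (fP k a δ n R) s = Ke δ n R (k * s + a) / s := by
  have := mu_prob hδ n
  have hs0 : s ≠ 0 := by rintro rfl; simp at hs
  set B : ℝ := R ^ a + (R + n * δ) ^ a with hB
  have hnδ : 0 ≤ n * δ := by positivity
  set T : ℝ := (R + n * δ) ^ k with hT
  have hT0 : 0 < T := by positivity
  have hint : Integrable (fun p : ℝ × ℝ => (p.1 : ℂ) ^ (s - 1) *
      (if p.1 ≤ (R + p.2) ^ k then (((R + p.2 : ℝ) : ℂ) ^ (a : ℂ)) else 0))
      ((volume.restrict (Ioi (0:ℝ))).prod (mu δ n)) := by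
    have hd : Integrable (fun p : ℝ × ℝ => ((Ioc (0:ℝ) T).indicator (fun y => y ^ (s.re - 1)) p.1) * B)
        ((volume.restrict (Ioi (0:ℝ))).prod (mu δ n)) := by
      apply Integrable.mul_prod (f := (Ioc (0:ℝ) T).indicator (fun y => y ^ (s.re - 1))) (g := fun _ => B)
      · rw [integrable_indicator_iff measurableSet_Ioc]
        rw [IntegrableOn, Measure.restrict_restrict measurableSet_Ioc]
        have e : Ioc (0:ℝ) T ∩ Ioi 0 = Ioc 0 T := by
          ext y; simp only [mem_inter_iff, mem_Ioc, mem_Ioi]; tauto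
        rw [e]
        have := intervalIntegral.intervalIntegrable_rpow' (a := 0) (b := T) (r := s.re - 1) (by linarith)
        rwa [intervalIntegrable_iff, uIoc_of_le hT0.le] at this
      · exact integrable_const _
    refine hd.mono' ?_ ?_
    · apply Measurable.aestronglyMeasurable
      exact (by fun_prop : Measurable (fun p : ℝ × ℝ => (p.1 : ℂ) ^ (s - 1))).mul (ite_meas k a R)
    · have h1 : ∀ᵐ p ∂((volume.restrict (Ioi (0:ℝ))).prod (mu δ n)), p.1 ∈ Ioi (0:ℝ) :=
        (Measure.quasiMeasurePreserving_fst).ae (ae_restrict_mem measurableSet_Ioi)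
      have h2 : ∀ᵐ p ∂((volume.restrict (Ioi (0:ℝ))).prod (mu δ n)), p.2 ∈ Icc 0 (n * δ) :=
        (Measure.quasiMeasurePreserving_snd).ae (mu_supp hδ n)
      filter_upwards [h1, h2] with p hp1 hp2
      have hp1' : 0 < p.1 := hp1
      rw [norm_mul, norm_cpow_pos hp1', Complex.sub_re, Complex.one_re]
      by_cases h : p.1 ≤ T
      · rw [indicator_of_mem (by exact ⟨hp1', h⟩)]
        have := ite_norm (k := k) (a := a) hR hδ p.1 hp2
        gcongr
      · rw [indicator_of_notMem (by rintro ⟨_, h'⟩; exact h h')]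
        rw [if_neg]
        · simp
        · rw [not_le] at h ⊢
          refine lt_of_le_of_lt ?_ h
          have := hp2.1
          have := hp2.2
          rw [hT]
          gcongr
  unfold mellin fP
  have e1 : ∀ y : ℝ, (y : ℂ) ^ (s - 1) • ∫ x, (if y ≤ (R + x) ^ k then (((R + x : ℝ) : ℂ) ^ (a : ℂ)) else 0) ∂(mu δ n) =
      ∫ x, (y : ℂ) ^ (s - 1) * (if y ≤ (R + x) ^ k then (((R + x : ℝ) : ℂ) ^ (a : ℂ)) else 0) ∂(mu δ n) := by
    intro y
    rw [integral_const_mul, smul_eq_mul]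
  simp_rw [e1]
  rw [integral_integral_swap hint]
  have e2 : ∀ x ∈ Icc 0 (n * δ), ∫ y in Ioi (0:ℝ), (y : ℂ) ^ (s - 1) * (if y ≤ (R + x) ^ k then (((R + x : ℝ) : ℂ) ^ (a : ℂ)) else 0) =
      ((R + x : ℝ) : ℂ) ^ (k * s + a) / s := by
    intro x hx
    have hy : 0 < R + x := by linarith [hx.1]
    have hyc : ((R + x : ℝ) : ℂ) ≠ 0 := by exact_mod_cast hy.ne'
    rw [mellin_ite (by positivity) hs, Complex.cpow_add _ _ hyc]
    have e3 : (((R + x) ^ k : ℝ) : ℂ) ^ s = ((R + x : ℝ) : ℂ) ^ (k * s) := by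
      rw [← Real.rpow_natCast (R + x) k, ← Complex.cpow_mul_ofReal_nonneg hy.le, Complex.ofReal_natCast]
    rw [e3]
    ring
  rw [integral_congr_ae (by filter_upwards [mu_supp hδ n] with x hx; exact e2 x hx)]
  unfold Ke
  rw [← integral_div]

lemma fP_conv {k : ℕ} (hk : 1 ≤ k) {a R δ : ℝ} {n : ℕ} (hR : 0 < R) (hδ : 0 < δ) {σ : ℝ} (hσ : 0 < σ) :
    MellinConvergent (fP k a δ (n+1) R) (σ : ℂ) := by
  set B : ℝ := R ^ a + (R + (n+1:ℕ) * δ) ^ a with hB
  have hnδ : 0 ≤ (n+1:ℕ) * δ := by positivity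
  set T : ℝ := (R + (n+1:ℕ) * δ) ^ k with hT
  have hT0 : 0 < T := by positivity
  unfold MellinConvergent
  have hd : IntegrableOn (fun y : ℝ => (Ioc (0:ℝ) T).indicator (fun y => y ^ (σ - 1) * B) y) (Ioi (0:ℝ)) := by
    rw [IntegrableOn, integrable_indicator_iff measurableSet_Ioc]
    rw [IntegrableOn, Measure.restrict_restrict measurableSet_Ioc]
    have e : Ioc (0:ℝ) T ∩ Ioi 0 = Ioc 0 T := by
      ext y; simp only [mem_inter_iff, mem_Ioc, mem_Ioi]; tauto
    rw [e]
    have := (intervalIntegral.intervalIntegrable_rpow' (a := 0) (b := T) (r := σ - 1) (by linarith)).mul_const B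
    rwa [intervalIntegrable_iff, uIoc_of_le hT0.le] at this
  refine Integrable.mono' hd ?_ ?_
  · apply ContinuousOn.aestronglyMeasurable _ measurableSet_Ioi
    apply ContinuousOn.fun_smul
    · intro t ht
      have ht0 : (0 : ℝ) < t := ht
      apply ContinuousAt.continuousWithinAt
      apply ContinuousAt.cpow (by fun_prop) continuousAt_const
      exact Complex.ofReal_mem_slitPlane.2 ht0
    · exact (fP_cont hk hR hδ).continuousOn
  · rw [ae_restrict_iff' measurableSet_Ioi]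
    refine Eventually.of_forall (fun y hy => ?_)
    have hy' : 0 < y := hy
    rw [norm_smul, norm_cpow_pos hy']
    by_cases h : y ≤ T
    · rw [indicator_of_mem (by exact ⟨hy', h⟩)]
      have := fP_norm (k := k) (a := a) (n := n+1) hR hδ y
      have e2 : ((σ : ℂ) - 1).re = σ - 1 := by simp
      rw [e2]
      gcongr
    · rw [indicator_of_notMem (by rintro ⟨_, h'⟩; exact h h')]
      rw [not_le] at h
      rw [fP_zero hR hδ h]
      simp

lemma G_int {k n : ℕ} (hk : 1 ≤ k) (hn : 2 ≤ n) (a : ℝ) {R δ : ℝ} (hR : 1 ≤ R) (hδ : 0 < δ) (hδ2 : δ ≤ 1/2) :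
    Integrable (fun t : ℝ => Ke δ n R (k * (2 + t * Complex.I) + a) / (2 + t * Complex.I)) := by
  have hR0 : 0 < R := by linarith
  obtain ⟨C, hC, hb⟩ := Ke_bound n (|2 * k + a|)
  have hkR : (1:ℝ) ≤ k := by exact_mod_cast hk
  have hd : Integrable (fun t : ℝ => (C * R ^ (2 * k + a) * (R / δ) ^ (2:ℝ)) * (1 + ‖t‖) ^ (-(2:ℝ))) :=
    (integrable_one_add_norm (by simp)).const_mul _
  refine hd.mono' ?_ (Eventually.of_forall (fun t => ?_))
  · apply Continuous.aestronglyMeasurable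
    apply Continuous.div
    · exact (Ke_diff hδ n hR0).continuous.comp (by fun_prop)
    · fun_prop
    · intro t h
      have := congrArg Complex.re h
      simp at this
  · have e1 : ((k : ℂ) * (2 + t * Complex.I) + a).re = 2 * k + a := by simp; ring
    have e2 : ((k : ℂ) * (2 + t * Complex.I) + a).im = k * t := by simp
    have h1 := hb R δ (k * (2 + t * Complex.I) + a) 2 hR hδ hδ2 (by rw [e1]) (by norm_num) (by exact_mod_cast hn)
    rw [e1, e2] at h1
    have h2 : 1 ≤ ‖(2 + t * Complex.I : ℂ)‖ := by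
      have := Complex.abs_re_le_norm (2 + t * Complex.I : ℂ)
      simp at this
      linarith
    have ht : 0 ≤ |t| := abs_nonneg t
    have h3 : 1 + |t| ≤ 1 + |(k:ℝ) * t| := by
      rw [abs_mul, abs_of_nonneg (by linarith : (0:ℝ) ≤ k)]
      nlinarith
    rw [norm_div, Real.norm_eq_abs]
    calc ‖Ke δ n R (k * (2 + t * Complex.I) + a)‖ / ‖(2 + t * Complex.I : ℂ)‖ ≤
        ‖Ke δ n R (k * (2 + t * Complex.I) + a)‖ / 1 := by gcongr
      _ ≤ C * R ^ (2 * k + a) * (R / (δ * (1 + |(k:ℝ) * t|))) ^ (2:ℝ) := by rw [div_one]; exact h1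
      _ ≤ C * R ^ (2 * k + a) * (R / (δ * (1 + |t|))) ^ (2:ℝ) := by
        gcongr
      _ = _ := by
        rw [← div_div, Real.div_rpow (by positivity) (by positivity), Real.rpow_neg (by positivity)]
        ring

lemma inv_term {k n : ℕ} (hk : 1 ≤ k) (hn : 2 ≤ n) (a : ℝ) {R δ : ℝ} (hR : 1 ≤ R) (hδ : 0 < δ) (hδ2 : δ ≤ 1/2)
    {m : ℕ} (hm : 1 ≤ m) :
    ∫ t : ℝ, (m : ℂ) ^ (-(2 + t * Complex.I)) * (Ke δ n R (k * (2 + t * Complex.I) + a) / (2 + t * Complex.I)) =
      2 * Real.pi * fP k a δ n R m := by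
  have hR0 : 0 < R := by linarith
  have hm0 : (0:ℝ) < m := by exact_mod_cast hm
  obtain ⟨n', rfl⟩ : ∃ n', n = n' + 1 := ⟨n - 1, by omega⟩
  have h := mellinInv_mellin_eq 2 (fP k a δ (n'+1) R) hm0 (by
    have := fP_conv hk (a := a) (n := n') hR0 hδ (σ := 2) (by norm_num)
    exact this) ?_ (fP_cont hk hR0 hδ).continuousAt
  · unfold mellinInv at h
    have e : ∀ y : ℝ, mellin (fP k a δ (n'+1) R) (((2:ℝ):ℂ) + y * Complex.I) =
        Ke δ (n'+1) R (k * (2 + y * Complex.I) + a) / (2 + y * Complex.I) := by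
      intro y
      rw [fP_mellin hR0 hδ (by simp)]
      push_cast
      rfl
    simp_rw [e] at h
    have hpi : (2 * (Real.pi:ℂ)) * (((1 / (2 * Real.pi) : ℝ)) : ℂ) = 1 := by
      have : (Real.pi : ℂ) ≠ 0 := by exact_mod_cast Real.pi_ne_zero
      push_cast
      field_simp
    rw [← h, Complex.real_smul, ← mul_assoc, hpi, one_mul]
    apply integral_congr_ae
    refine Eventually.of_forall (fun t => ?_)
    simp [smul_eq_mul]
  · unfold Complex.VerticalIntegrable
    refine (G_int hk hn a hR hδ hδ2).congr (Eventually.of_forall (fun y => ?_))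
    simp only
    rw [fP_mellin hR0 hδ (by simp)]
    push_cast
    rfl

/-- TASK T3 (Perron): -/
theorem perron {k n : ℕ} (hk2 : 2 ≤ k) (hn : 2 ≤ n) {R δ : ℝ} (hR : 1 ≤ R) (hδ : 0 < δ) (hδ2 : δ ≤ 1/2) :
    ((∫ x, Dk k ((R + x) ^ k) * (R + x) ^ (-hk k) ∂(mu δ n) : ℝ) : ℂ) =
      (1 / (2 * Real.pi) : ℂ) * ∫ t : ℝ, Gk k δ n R (2 + t * Complex.I) := by
  have hR0 : 0 < R := by linarith
  have hk1 : 1 ≤ k := by omega
  have := mu_prob hδ n
  set a : ℝ := -hk k with ha
  have hnδ : 0 ≤ n * δ := by positivity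
  set T : ℝ := (R + n * δ) ^ k with hT
  have hT0 : 0 < T := by positivity
  -- the right side as a sum
  set H : ℝ → ℂ := fun t => Ke δ n R (k * (2 + t * Complex.I) + a) / (2 + t * Complex.I) with hH
  have hHi : Integrable H := G_int hk1 hn a hR hδ hδ2
  set F : ℕ → ℝ → ℂ := fun m t => H t * ((dk k m : ℂ) * (m : ℂ) ^ (-(2 + t * Complex.I))) with hF
  have hFn : ∀ m t, ‖F m t‖ = ‖H t‖ * (dk k m * (m : ℝ) ^ (-(2:ℝ))) := by
    intro m t
    rw [hF]
    beta_reduce
    rw [norm_mul (H t), norm_mul (dk k m : ℂ), Complex.norm_real, Real.norm_of_nonneg (dk_nonneg k m)]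
    rcases eq_or_ne m 0 with rfl | hm
    · simp [dk_zero]
    · rw [norm_nat_cpow (Nat.pos_of_ne_zero hm)]
      simp
  have hFm : ∀ m, AEStronglyMeasurable (F m) volume := by
    intro m
    rcases eq_or_ne m 0 with rfl | hm
    · have : F 0 = fun _ => 0 := by
        funext t
        simp [hF, dk_zero]
      rw [this]
      exact aestronglyMeasurable_const
    · refine hHi.aestronglyMeasurable.mul (Continuous.aestronglyMeasurable ?_)
      exact continuous_const.mul (Continuous.const_cpow (by fun_prop) (Or.inl (by exact_mod_cast hm)))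
  have hFint : ∀ m, Integrable (F m) := by
    intro m
    refine (hHi.norm.mul_const (dk k m * (m : ℝ) ^ (-(2:ℝ)))).mono' (hFm m) (Eventually.of_forall fun t => ?_)
    rw [hFn]
  have hFsum : Summable fun m => ∫ t, ‖F m t‖ := by
    have : (fun m => ∫ t, ‖F m t‖) = fun m : ℕ => (∫ t, ‖H t‖) * (dk k m * (m : ℝ) ^ (-(2:ℝ))) := by
      funext m
      rw [← integral_mul_const]
      refine integral_congr_ae (Eventually.of_forall fun t => ?_)
      exact hFn m t
    rw [this]
    exact (summable_dk k (by norm_num)).mul_left _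
  have h := hasSum_integral_of_summable_integral_norm hFint hFsum
  have e1 : ∀ t, ∑' m, F m t = Gk k δ n R (2 + t * Complex.I) := by
    intro t
    rw [hF]
    beta_reduce
    rw [tsum_mul_left, (hasSum_dk k (s := 2 + t * Complex.I) (by simp)).tsum_eq, hH]
    unfold Gk
    rw [ha]
    push_cast
    rw [← sub_eq_add_neg]
    ring
  simp_rw [e1] at h
  have e2 : ∀ m, ∫ t, F m t = 2 * Real.pi * ((dk k m : ℂ) * fP k a δ n R m) := by
    intro m
    rcases eq_or_ne m 0 with rfl | hm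
    · simp [hF, dk_zero]
    · have := inv_term hk1 hn a hR hδ hδ2 (Nat.pos_of_ne_zero hm)
      rw [show 2 * (Real.pi : ℂ) * ((dk k m : ℂ) * fP k a δ n R m) = (dk k m : ℂ) * (2 * Real.pi * fP k a δ n R m) by ring,
        ← this, ← integral_const_mul]
      refine integral_congr_ae (Eventually.of_forall fun t => ?_)
      rw [hF, hH]
      beta_reduce
      ring
  simp_rw [e2] at h
  -- the left side as a finite sum
  set M : ℕ := ⌊T⌋₊ with hM
  have hfin : HasSum (fun m : ℕ => 2 * (Real.pi : ℂ) * ((dk k m : ℂ) * fP k a δ n R m))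
      (∑ m ∈ Finset.Icc 1 M, 2 * (Real.pi : ℂ) * ((dk k m : ℂ) * fP k a δ n R m)) := by
    apply hasSum_sum_of_ne_finset_zero
    intro m hm
    rcases eq_or_ne m 0 with rfl | hm0
    · simp [dk_zero]
    · have : T < m := by
        rw [Finset.mem_Icc, not_and_or] at hm
        rcases hm with h' | h'
        · omega
        · rw [not_le, hM] at h'
          exact (Nat.floor_lt hT0.le).mp h'
      rw [fP_zero hR0 hδ this]
      simp
  have hlhs : ((∫ x, Dk k ((R + x) ^ k) * (R + x) ^ a ∂(mu δ n) : ℝ) : ℂ) =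
      ∑ m ∈ Finset.Icc 1 M, (dk k m : ℂ) * fP k a δ n R m := by
    have e3 : ∀ x ∈ Icc 0 (n * δ), ((Dk k ((R + x) ^ k) * (R + x) ^ a : ℝ) : ℂ) =
        ∑ m ∈ Finset.Icc 1 M, (dk k m : ℂ) * (if (m:ℝ) ≤ (R + x) ^ k then (((R + x : ℝ) : ℂ) ^ (a : ℂ)) else 0) := by
      intro x hx
      have hy : 0 < R + x := by linarith [hx.1]
      have hyT : (R + x) ^ k ≤ T := by
        have := hx.1
        have := hx.2
        rw [hT]
        gcongr
      have e4 : Dk k ((R + x) ^ k) = ∑ m ∈ Finset.Icc 1 M, dk k m * (if (m:ℝ) ≤ (R + x) ^ k then 1 else 0) := by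
        unfold Dk
        have hsub : Finset.Icc 1 ⌊(R + x) ^ k⌋₊ ⊆ Finset.Icc 1 M := by
          intro m hm
          rw [Finset.mem_Icc] at hm ⊢
          exact ⟨hm.1, hm.2.trans (Nat.floor_le_floor hyT)⟩
        rw [← Finset.sum_subset hsub]
        · apply Finset.sum_congr rfl
          intro m hm
          rw [Finset.mem_Icc] at hm
          rw [if_pos, mul_one]
          exact (Nat.le_floor_iff (by positivity)).mp hm.2
        · intro m hm' hm
          rw [Finset.mem_Icc] at hm'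
          rw [if_neg, mul_zero]
          intro h'
          exact hm (Finset.mem_Icc.mpr ⟨hm'.1, Nat.le_floor h'⟩)
      rw [e4]
      push_cast
      rw [Finset.sum_mul]
      apply Finset.sum_congr rfl
      intro m _
      rw [Complex.ofReal_cpow hy.le]
      push_cast
      split_ifs <;> simp
    rw [← integral_complex_ofReal]
    rw [integral_congr_ae (by filter_upwards [mu_supp hδ n] with x hx; exact e3 x hx)]
    rw [integral_finsetSum]
    · apply Finset.sum_congr rfl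
      intro m _
      rw [integral_const_mul]
      rfl
    · intro m _
      apply Integrable.const_mul
      exact int_of_bdd hδ n (B := R ^ a + (R + n * δ) ^ a) (ite_meas' k a R m).aestronglyMeasurable
        (fun x hx => ite_norm hR0 hδ m hx)
  have hpi : (Real.pi : ℂ) ≠ 0 := by exact_mod_cast Real.pi_ne_zero
  rw [hlhs, h.unique hfin, ← Finset.mul_sum]
  field_simp

end Pool.Agent.H383.PZ
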