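import Mathlib
import Pool.Agent.H383.PZ.Defs

open MeasureTheory Filter Topology

namespace Pool.Agent.H383.PZ

/-- TASK T1 -/
theorem zeta_strip : ∃ C : ℝ, 0 < C ∧ ∀ s : ℂ, -(1/2) ≤ s.re → s.re ≤ 2 → 1 ≤ |s.im| →
    ‖riemannZeta s‖ ≤ C * |s.im| ^ 2 := by
  sorry

/-- TASK T2a -/
theorem Ke_diff {δ : ℝ} (hδ : 0 < δ) (n : ℕ) {R : ℝ} (hR : 0 < R) : Differentiable ℂ (Ke δ n R) := by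
  sorry

/-- TASK T2b -/
theorem Ke_bound (n : ℕ) (A : ℝ) : ∃ C : ℝ, 0 < C ∧ ∀ (R δ : ℝ) (z : ℂ) (θ : ℝ), 1 ≤ R → 0 < δ → δ ≤ 1/2 →
    |z.re| ≤ A → 0 ≤ θ → θ ≤ n → ‖Ke δ n R z‖ ≤ C * R ^ z.re * (R / (δ * (1 + |z.im|))) ^ θ := by
  sorry

/-- TASK T3 (Perron): -/
theorem perron {k n : ℕ} (hk2 : 2 ≤ k) (hn : 2 ≤ n) {R δ : ℝ} (hR : 1 ≤ R) (hδ : 0 < δ) (hδ2 : δ ≤ 1/2) :
    ((∫ x, Dk k ((R + x) ^ k) * (R + x) ^ (-hk k) ∂(mu δ n) : ℝ) : ℂ) =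
      (1 / (2 * Real.pi) : ℂ) * ∫ t : ℝ, Gk k δ n R (2 + t * Complex.I) := by
  sorry

/-- TASK T4 (contour shift) -/
theorem shift {k n : ℕ} (hk2 : 2 ≤ k) (hn : 2 * k + 2 ≤ n) {R δ : ℝ} (hR : 1 ≤ R) (hδ : 0 < δ) (hδ2 : δ ≤ 1/2) :
    ∫ t : ℝ, Gk k δ n R (2 + t * Complex.I) =
      (∫ t : ℝ, Gk k δ n R (-(1/2) + t * Complex.I)) - Complex.I * Rect (Gk k δ n R) (-(1/2)) 2 := by
  sorry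

/-- TASK T5 (main term) -/
theorem main_term (k : ℕ) (hk2 : 1 ≤ k) : ∃ P : Polynomial ℝ, P.natDegree < k ∧ P.coeff (k-1) = 1 / ((k-1).factorial : ℝ) ∧
    ∀ x : ℝ, 0 < x → Rect (fun s => riemannZeta s ^ k * (x : ℂ) ^ s / s) (1/8) 2 =
      2 * Real.pi * Complex.I * ((x * P.eval (Real.log x) : ℝ) : ℂ) := by
  sorry

/-- TASK T6 (gamma factor) -/
theorem gamma_factor (k : ℕ) (hk2 : 2 ≤ k) : ∃ C : ℝ, 0 < C ∧ ∀ t : ℝ,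
    ‖Ak k (wk t) - Mk k (wk t)‖ ≤ C * (1 + |t|) ^ ((k:ℝ) - 2) ∧
    ‖Mk k (wk t)‖ ≤ C * (1 + |t|) ^ ((k:ℝ) - 1) := by
  sorry

/-- TASK T7 (the model integral is the smoothed cosine) -/
theorem cos_int {k n : ℕ} (hk2 : 2 ≤ k) (hn : 2 * k + 2 ≤ n) {R δ : ℝ} (hR : 1 ≤ R) (hδ : 0 < δ) (hδ2 : δ ≤ 1/2)
    {m : ℕ} (hm : 1 ≤ m) :
    (1 / (2 * Real.pi) : ℂ) * ∫ t : ℝ, Mk k (wk t) * (m : ℂ) ^ (-(wk t)) * Ke δ n R ((k + 1) / 2 - k * wk t) =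
      (((m : ℝ) ^ (-(((k:ℝ) + 1) / (2 * k)) : ℝ) * (1 / (Real.pi * √(k:ℝ))) *
        ck k δ n R ((m : ℝ) ^ (1 / (k:ℝ))) : ℝ) : ℂ) := by
  sorry

/-- TASK T8 (the smoothed Voronoi formula) -/
theorem voronoi_k (k : ℕ) (hk2 : 2 ≤ k) : ∃ P : Polynomial ℝ, P.natDegree < k ∧
    P.coeff (k-1) = 1 / ((k-1).factorial : ℝ) ∧ ∃ C : ℝ, 0 < C ∧
    ∀ (n : ℕ) (R δ : ℝ), 2 * k + 2 ≤ n → 1 ≤ R → 0 < δ → δ ≤ 1/2 →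
      |(∫ x, Fk k P (R + x) ∂(mu δ n)) - ∑' m : ℕ, tk k δ n R m| ≤ C * (R ^ (-(1/4) : ℝ) * δ ^ (-(k:ℝ))) := by
  sorry

end Pool.Agent.H383.PZ
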