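import Mathlib
import Pool.Agent.H383.PZ.Defs3

open MeasureTheory Filter Topology

namespace Pool.Agent.H383.PZ

/-- TASK A3: sign of the secondary term on the left of a near-period, `k = 3` -/
theorem Q3_le (b c : ℝ) : ∃ v₀ : ℝ, 0 < v₀ ∧ ∀ (n : ℕ) (δ v : ℝ), 2 ≤ n → 0 < δ → n * δ < v → v ≤ v₀ →
    Q3 b c δ n v ≤ -(v⁻¹ * Real.log (v⁻¹)) := by
  sorry

/-- TASK A2: the sum over `m` is the integral up to `O(1 + v/δ²)`, `k = 3` -/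
theorem sum_sub_Q3 (P : Polynomial ℝ) (hP : P.natDegree < 3) (hP2 : P.coeff 2 = 1/2) (C₀ : ℝ)
    (hD : ∀ y : ℝ, 1 ≤ y → |Dk 3 y - y * P.eval (Real.log y)| ≤ C₀ * y ^ (3/4 : ℝ)) :
    ∃ C b c : ℝ, 0 < C ∧ ∀ (n : ℕ) (δ v : ℝ), 4 ≤ n → 0 < δ → n * δ ≤ v → v ≤ 1 →
    |∑' m : ℕ, dk 3 m * (m : ℝ) ^ (-(2/3) : ℝ) * Cq δ n ((m : ℝ) ^ (1/3 : ℝ)) v - Q3 b c δ n v| ≤
      C * (1 + v / δ ^ 2) := by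
  sorry

/-- TASK A4: crude bound for the error term -/
theorem crude (k : ℕ) (hk2 : 2 ≤ k) (P : Polynomial ℝ)
    (hV : ∃ C : ℝ, 0 < C ∧ ∀ (n : ℕ) (R δ : ℝ), 2 * k + 2 ≤ n → 1 ≤ R → 0 < δ → δ ≤ 1/2 →
      |(∫ x, Fk k P (R + x) ∂(mu δ n)) - ∑' m : ℕ, tk k δ n R m| ≤ C * (R ^ (-(1/4) : ℝ) * δ ^ (-(k:ℝ)))) :
    ∃ C₀ : ℝ, 0 < C₀ ∧ ∀ y : ℝ, 1 ≤ y →
      |Dk k y - y * P.eval (Real.log y)| ≤ C₀ * y ^ (1 - 1 / (k:ℝ)) * (1 + Real.log y) ^ (k-1) := by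
  sorry

end Pool.Agent.H383.PZ
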