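import Mathlib
import Pool.Agent.H383.PZ.Defs

open MeasureTheory Filter Topology

namespace Pool.Agent.H383.PZ

/-- TASK W1a: head sums of the divisor function -/
theorem dk_head (k : ℕ) (hk : 1 ≤ k) (a : ℝ) (ha0 : 0 ≤ a) (ha1 : a < 1) : ∃ C : ℝ, 0 < C ∧ ∀ N : ℕ, 1 ≤ N →
    ∑ m ∈ Finset.Icc 1 N, dk k m * (m:ℝ) ^ (-a) ≤ C * (N:ℝ) ^ (1 - a) * (1 + Real.log N) ^ (k-1) := by
  sorry

/-- TASK W1b: tail sums of the divisor function -/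
theorem dk_tail (k : ℕ) (hk : 1 ≤ k) (b : ℝ) (hb : 1 < b) : ∃ C : ℝ, 0 < C ∧ ∀ N : ℕ, 1 ≤ N →
    Summable (fun m : ℕ => if N < m then dk k m * (m:ℝ) ^ (-b) else 0) ∧
    ∑' m : ℕ, (if N < m then dk k m * (m:ℝ) ^ (-b) else 0) ≤ C * (N:ℝ) ^ (1 - b) * (1 + Real.log N) ^ (k-1) := by
  sorry

end Pool.Agent.H383.PZ
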