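import Mathlib
import Pool.Agent.H383.PZ.K2
import Pool.Agent.H383.PZ.L
import Pool.Agent.H383.OM.Cf

open MeasureTheory Filter Topology Set
open Pool.Agent.H387R2.Vor
open Pool.Agent.H383.OM (norm_ex cf_le_one cf_le ex_cont ex_add cf_int)

namespace Pool.Agent.H383.PZ

lemma norm_ok (k : ℕ) : ‖ok k‖ = 1 := by
  unfold ok
  rw [Complex.norm_exp_ofReal_mul_I]

lemma abs_ck_le (k : ℕ) (δ : ℝ) (n : ℕ) (R y : ℝ) : |ck k δ n R y| ≤ ‖cf (k * y * δ)‖ ^ n := by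
  unfold ck
  refine (Complex.abs_re_le_norm _).trans ?_
  rw [norm_mul, norm_mul, norm_ok, norm_ex, norm_pow]
  simp

/-- the majorant of the terms -/
noncomputable def mj (k : ℕ) (δ : ℝ) (m : ℕ) : ℝ := dk k m * (m : ℝ) ^ (-(3/2) : ℝ) * (1 / δ ^ k)

lemma mj_summable (k : ℕ) (δ : ℝ) : Summable (mj k δ) := by
  unfold mj
  exact (summable_dk k (by norm_num)).mul_right _

lemma mj_nonneg (k : ℕ) {δ : ℝ} (hδ : 0 < δ) (m : ℕ) : 0 ≤ mj k δ m := by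
  unfold mj
  have := dk_nonneg k m
  positivity

lemma abs_tk_le' (k : ℕ) (hk2 : 2 ≤ k) (δ : ℝ) (n : ℕ) (R : ℝ) (m : ℕ) : |tk k δ n R m| ≤
    dk k m * (m : ℝ) ^ (-(((k:ℝ) + 1) / (2 * k)) : ℝ) * ‖cf (k * (m : ℝ) ^ (1 / (k:ℝ)) * δ)‖ ^ n := by
  unfold tk
  have hd := dk_nonneg k m
  have hk' : (2:ℝ) ≤ k := by exact_mod_cast hk2
  rw [abs_mul, abs_mul, abs_of_nonneg (by positivity : 0 ≤ dk k m * (m : ℝ) ^ (-(((k:ℝ) + 1) / (2 * k)) : ℝ))]
  have hpi := Real.pi_gt_three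
  have h2 : 1 ≤ √(k:ℝ) := Real.one_le_sqrt.mpr (by linarith)
  have h3 : |1 / (Real.pi * √(k:ℝ))| ≤ 1 := by
    rw [abs_of_pos (by positivity), div_le_one (by positivity)]; nlinarith
  have h4 := abs_ck_le k δ n R ((m : ℝ) ^ (1 / (k:ℝ)))
  calc _ ≤ dk k m * (m : ℝ) ^ (-(((k:ℝ) + 1) / (2 * k)) : ℝ) * 1 * ‖cf (k * (m : ℝ) ^ (1 / (k:ℝ)) * δ)‖ ^ n := by gcongr
    _ = _ := by ring

lemma cf_pow_k {k : ℕ} (hk2 : 2 ≤ k) {δ : ℝ} (hδ : 0 < δ) {m : ℕ} (hm : 1 ≤ m) :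
    ‖cf (k * (m : ℝ) ^ (1 / (k:ℝ)) * δ)‖ ^ k ≤ (m:ℝ) ^ (-1:ℝ) * (1 / δ ^ k) := by
  have hm' : (1:ℝ) ≤ m := by exact_mod_cast hm
  have hk' : (2:ℝ) ≤ k := by exact_mod_cast hk2
  have hs : 0 < (m : ℝ) ^ (1 / (k:ℝ)) := Real.rpow_pos_of_pos (by linarith) _
  have hpi := Real.pi_gt_three
  have h1 := cf_le (y := k * (m : ℝ) ^ (1 / (k:ℝ)) * δ) (by positivity)
  have h2 : 1 / (Real.pi * (k * (m : ℝ) ^ (1 / (k:ℝ)) * δ)) ≤ 1 / ((m : ℝ) ^ (1 / (k:ℝ)) * δ) := by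
    apply one_div_le_one_div_of_le (by positivity)
    have h3 : 0 < (m : ℝ) ^ (1 / (k:ℝ)) * δ := by positivity
    have h4 : Real.pi * (k * (m : ℝ) ^ (1 / (k:ℝ)) * δ) = (Real.pi * k) * ((m : ℝ) ^ (1 / (k:ℝ)) * δ) := by ring
    rw [h4]
    have : 1 ≤ Real.pi * k := by nlinarith
    nlinarith
  calc ‖cf (k * (m : ℝ) ^ (1 / (k:ℝ)) * δ)‖ ^ k ≤ (1 / ((m : ℝ) ^ (1 / (k:ℝ)) * δ)) ^ k := by
        apply pow_le_pow_left₀ (norm_nonneg _) (h1.trans h2)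
    _ = (m:ℝ) ^ (-1:ℝ) * (1 / δ ^ k) := by
        rw [div_pow, mul_pow, ← Real.rpow_natCast ((m : ℝ) ^ (1 / (k:ℝ))) k, ← Real.rpow_mul (by linarith),
          one_div_mul_cancel (by positivity), Real.rpow_one, Real.rpow_neg_one, one_pow]
        field_simp

lemma abs_tk_le {k : ℕ} (hk2 : 2 ≤ k) {δ : ℝ} (hδ : 0 < δ) {n : ℕ} (hn : k ≤ n) (R : ℝ) (m : ℕ) :
    |tk k δ n R m| ≤ mj k δ m := by
  refine (abs_tk_le' k hk2 δ n R m).trans ?_
  unfold mj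
  rcases Nat.eq_zero_or_pos m with h0 | h0
  · subst h0; simp [dk_zero]
  · have hd := dk_nonneg k m
    have hk' : (2:ℝ) ≤ k := by exact_mod_cast hk2
    have hm' : (1:ℝ) ≤ m := by exact_mod_cast h0
    have hm0 : (0:ℝ) < m := by linarith
    have h1 : ‖cf (k * (m : ℝ) ^ (1 / (k:ℝ)) * δ)‖ ^ n ≤ (m:ℝ) ^ (-1:ℝ) * (1 / δ ^ k) :=
      (pow_le_pow_of_le_one (norm_nonneg _) (cf_le_one _) hn).trans (cf_pow_k hk2 hδ h0)
    calc dk k m * (m : ℝ) ^ (-(((k:ℝ) + 1) / (2 * k)) : ℝ) * ‖cf (k * (m : ℝ) ^ (1 / (k:ℝ)) * δ)‖ ^ n ≤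
        dk k m * (m : ℝ) ^ (-(((k:ℝ) + 1) / (2 * k)) : ℝ) * ((m:ℝ) ^ (-1:ℝ) * (1 / δ ^ k)) := by gcongr
      _ = dk k m * ((m : ℝ) ^ (-(((k:ℝ) + 1) / (2 * k)) : ℝ) * (m:ℝ) ^ (-1:ℝ)) * (1 / δ ^ k) := by ring
      _ = dk k m * (m : ℝ) ^ (-(((k:ℝ) + 1) / (2 * k)) + -1 : ℝ) * (1 / δ ^ k) := by rw [← Real.rpow_add hm0]
      _ ≤ _ := by
        have : (m : ℝ) ^ (-(((k:ℝ) + 1) / (2 * k)) + -1 : ℝ) ≤ (m : ℝ) ^ (-(3 / 2) : ℝ) := by
          apply Real.rpow_le_rpow_of_exponent_le hm'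
          have : 1/2 ≤ ((k:ℝ) + 1) / (2 * k) := by
            rw [le_div_iff₀ (by positivity)]; linarith
          linarith
        gcongr

lemma tk_summable {k : ℕ} (hk2 : 2 ≤ k) {δ : ℝ} (hδ : 0 < δ) {n : ℕ} (hn : k ≤ n) (R : ℝ) : Summable (tk k δ n R) :=
  Summable.of_norm_bounded (mj_summable k δ) (fun m => by rw [Real.norm_eq_abs]; exact abs_tk_le hk2 hδ hn R m)

lemma tk_cont (k : ℕ) (δ : ℝ) (n : ℕ) (m : ℕ) : Continuous (fun R => tk k δ n R m) := by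
  unfold tk ck
  have h1 : Continuous (fun R : ℝ => ex (k * (m : ℝ) ^ (1 / (k:ℝ)) * R)) := ex_cont.comp (by fun_prop)
  apply continuous_const.mul
  apply Complex.continuous_re.comp
  exact (continuous_const.mul h1).mul continuous_const

lemma tk_avg {k : ℕ} (hk2 : 2 ≤ k) {δ : ℝ} (hδ : 0 < δ) (n : ℕ) (R : ℝ) (m : ℕ) :
    (1/δ) * (∫ u in (0:ℝ)..δ, tk k δ n (R + u) m) = tk k δ (n+1) R m := by
  rcases Nat.eq_zero_or_pos m with h0 | h0
  · subst h0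
    simp [tk, dk_zero]
  · have hm' : (1:ℝ) ≤ m := by exact_mod_cast h0
    have hk' : (2:ℝ) ≤ k := by exact_mod_cast hk2
    set y : ℝ := (m : ℝ) ^ (1 / (k:ℝ)) with hy
    have hs : 0 < y := Real.rpow_pos_of_pos (by linarith) _
    set K : ℝ := dk k m * (m : ℝ) ^ (-(((k:ℝ) + 1) / (2 * k)) : ℝ) * (1 / (Real.pi * √(k:ℝ))) with hK
    set A : ℂ := ok k * ex (k * y * R) * cf (k * y * δ) ^ n with hA
    have h1 : ∀ u : ℝ, tk k δ n (R + u) m = K * (A * ex (k * y * u)).re := by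
      intro u
      unfold tk ck
      rw [← hK, ← hy, hA, show k * y * (R + u) = k * y * R + k * y * u by ring, ex_add]
      congr 2
      ring
    have h2 : ∫ u in (0:ℝ)..δ, tk k δ n (R + u) m = K * (A * ∫ u in (0:ℝ)..δ, ex (k * y * u)).re := by
      rw [← intervalIntegral.integral_const_mul, intervalIntegral.integral_congr (fun u _ => h1 u),
        intervalIntegral.integral_const_mul]
      congr 1
      have hc : Continuous (fun u : ℝ => A * ex (k * y * u)) :=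
        continuous_const.mul (ex_cont.comp (by fun_prop))
      have := Complex.reCLM.intervalIntegral_comp_comm (hc.intervalIntegrable (μ := volume) 0 δ)
      simpa using this
    have h3 := cf_int (a := k * y) (by positivity) hδ
    rw [h2]
    unfold tk ck
    rw [← hK, ← hy]
    have e0 : ok k * ex (k * y * R) * cf (k * y * δ) ^ (n+1) = A * cf (k * y * δ) := by
      rw [hA, pow_succ]; ring
    rw [e0, ← h3]
    have e : (A * ((1 / (δ:ℂ)) * ∫ u in (0:ℝ)..δ, ex (k * y * u))) =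
        ((1 / δ : ℝ) : ℂ) * (A * ∫ u in (0:ℝ)..δ, ex (k * y * u)) := by
      push_cast; ring
    rw [e, Complex.re_ofReal_mul]
    ring

lemma tsum_avg {k : ℕ} (hk2 : 2 ≤ k) {δ : ℝ} (hδ : 0 < δ) {n : ℕ} (hn : k ≤ n) (R : ℝ) :
    (1/δ) * (∫ u in (0:ℝ)..δ, ∑' m, tk k δ n (R + u) m) = ∑' m, tk k δ (n+1) R m := by
  have h1 : ∑' m, ∫ u in (0:ℝ)..δ, tk k δ n (R + u) m = ∫ u in (0:ℝ)..δ, ∑' m, tk k δ n (R + u) m := by
    have hc : ∀ m, Continuous (fun u => tk k δ n (R + u) m) := fun m =>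
      (tk_cont k δ n m).comp (by fun_prop)
    let f : ℕ → C(ℝ, ℝ) := fun m => ⟨fun u => tk k δ n (R + u) m, hc m⟩
    have := intervalIntegral.tsum_intervalIntegral_eq_of_summable_norm (a := 0) (b := δ) (f := f) ?_
    · exact this
    · apply Summable.of_nonneg_of_le (fun m => norm_nonneg _) (fun m => ?_) (mj_summable k δ)
      rw [ContinuousMap.norm_le _ (mj_nonneg k hδ m)]
      intro x
      simp only [ContinuousMap.restrict_apply]
      rw [Real.norm_eq_abs]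
      exact abs_tk_le hk2 hδ hn _ m
  rw [← h1, ← tsum_mul_left]
  exact tsum_congr (fun m => tk_avg hk2 hδ n R m)

lemma tsum_cont {k : ℕ} (hk2 : 2 ≤ k) {δ : ℝ} (hδ : 0 < δ) {n : ℕ} (hn : k ≤ n) :
    Continuous (fun R => ∑' m, tk k δ n R m) :=
  continuous_tsum (fun m => tk_cont k δ n m) (mj_summable k δ)
    (fun m R => by rw [Real.norm_eq_abs]; exact abs_tk_le hk2 hδ hn R m)

lemma Dk_meas (k : ℕ) : Measurable (Dk k) := by
  unfold Dk
  have h : Measurable (fun x : ℝ => (⌊x⌋₊ : ℕ)) := Nat.measurable_floor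
  exact (measurable_from_nat (f := fun N : ℕ => ∑ n ∈ Finset.Icc 1 N, dk k n)).comp h

lemma Dk_mono (k : ℕ) : Monotone (Dk k) := by
  intro x y hxy
  unfold Dk
  apply Finset.sum_le_sum_of_subset_of_nonneg
  · intro m hm
    rw [Finset.mem_Icc] at hm ⊢
    exact ⟨hm.1, hm.2.trans (Nat.floor_le_floor hxy)⟩
  · intro m _ _
    exact dk_nonneg k m

lemma Dk_nonneg (k : ℕ) (x : ℝ) : 0 ≤ Dk k x := by
  unfold Dk
  exact Finset.sum_nonneg (fun m _ => dk_nonneg k m)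

lemma Fk_meas (k : ℕ) (P : Polynomial ℝ) : Measurable (Fk k P) := by
  unfold Fk
  have h1 : Measurable (fun R : ℝ => Dk k (R ^ k)) := (Dk_meas k).comp (by fun_prop)
  have h2 : Measurable (fun R : ℝ => P.eval (Real.log (R ^ k))) := by
    exact (Polynomial.continuous P).measurable.comp (by fun_prop)
  fun_prop

/-- the normalised error term is bounded on compact subsets of `[1, ∞)` -/
lemma Fk_bdd {k : ℕ} (hk1 : 1 ≤ k) (P : Polynomial ℝ) (T : ℝ) : ∃ B : ℝ, ∀ R : ℝ, 1 ≤ R → R ≤ T → |Fk k P R| ≤ B := by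
  have hc : ContinuousOn (fun R : ℝ => R ^ k * P.eval (Real.log (R ^ k))) (Icc 1 T) := by
    apply ContinuousOn.mul (by fun_prop)
    apply (Polynomial.continuous P).comp_continuousOn
    apply ContinuousOn.log (by fun_prop)
    intro x hx
    have : 0 < x := by linarith [hx.1]
    positivity
  obtain ⟨B1, hB1⟩ := isCompact_Icc.exists_bound_of_continuousOn hc
  refine ⟨Dk k (T ^ k) + B1, fun R hR hT => ?_⟩
  unfold Fk
  have h1 := hB1 R ⟨hR, hT⟩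
  rw [Real.norm_eq_abs] at h1
  have h2 : R ^ (-hk k) ≤ 1 := by
    apply Real.rpow_le_one_of_one_le_of_nonpos hR
    unfold hk
    have : (1:ℝ) ≤ k := by exact_mod_cast hk1
    linarith
  have h3 : 0 < R ^ (-hk k) := Real.rpow_pos_of_pos (by linarith) _
  have h4 : Dk k (R ^ k) ≤ Dk k (T ^ k) := Dk_mono k (by gcongr)
  have h5 := Dk_nonneg k (R ^ k)
  rw [abs_mul, abs_of_pos h3]
  have h6 : |Dk k (R ^ k) - R ^ k * P.eval (Real.log (R ^ k))| ≤ Dk k (T ^ k) + B1 := by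
    refine (abs_sub _ _).trans ?_
    rw [abs_of_nonneg h5]
    linarith
  calc |Dk k (R ^ k) - R ^ k * P.eval (Real.log (R ^ k))| * R ^ (-hk k) ≤
      (Dk k (T ^ k) + B1) * 1 := by
        apply mul_le_mul h6 h2 h3.le
        exact (abs_nonneg _).trans h6
    _ = _ := mul_one _

end Pool.Agent.H383.PZ
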