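import Mathlib
import Pool.Agent.H383.PZ.V1

open MeasureTheory Filter Topology Set

namespace Pool.Agent.H383.PZ

lemma wk_re (t : ℝ) : (wk t).re = 3/2 := by simp [wk]
lemma wk_im (t : ℝ) : (wk t).im = t := by simp [wk]
lemma wk_cont : Continuous wk := by unfold wk; fun_prop

lemma one_sub_wk_ne (t : ℝ) : 1 - wk t ≠ 0 := by
  intro h
  have := congrArg Complex.re h
  rw [Complex.sub_re, wk_re] at this
  norm_num at this

/-- the argument of the kernel -/
noncomputable def zk (k : ℕ) (t : ℝ) : ℂ := (k + 1) / 2 - k * wk t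

lemma zk_re (k : ℕ) (t : ℝ) : (zk k t).re = 1/2 - k := by
  unfold zk wk
  simp
  ring

lemma zk_im (k : ℕ) (t : ℝ) : (zk k t).im = -(k * t) := by
  unfold zk wk
  simp

lemma zk_cont (k : ℕ) : Continuous (zk k) := by
  unfold zk
  have := wk_cont
  fun_prop

/-- functional equation -/
lemma fe (k : ℕ) (t : ℝ) : riemannZeta (1 - wk t) ^ k / (1 - wk t) = Ak k (wk t) * riemannZeta (wk t) ^ k := by
  have h1 := riemannZeta_one_sub (s := wk t) (fun n h => by
    have h2 := congrArg Complex.re h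
    rw [wk_re] at h2
    simp at h2
    have : (0 : ℝ) ≤ n := Nat.cast_nonneg n
    linarith) (fun h => by
      have h2 := congrArg Complex.re h
      rw [wk_re] at h2
      norm_num at h2)
  rw [h1]
  unfold Ak
  rw [mul_pow]
  ring

lemma left_eq (k n : ℕ) (R δ : ℝ) : ∫ t : ℝ, Gk k δ n R (-(1/2) + t * Complex.I) =
    ∫ t : ℝ, Ak k (wk t) * riemannZeta (wk t) ^ k * Ke δ n R (zk k t) := by
  rw [← integral_neg_eq_self]
  apply integral_congr_ae
  refine Eventually.of_forall (fun t => ?_)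
  beta_reduce
  have e1 : (-(1/2) + ((-t : ℝ) : ℂ) * Complex.I : ℂ) = 1 - wk t := by
    unfold wk; push_cast; ring
  have e2 : (k : ℂ) * (1 - wk t) - (hk k : ℂ) = zk k t := by
    unfold zk hk; push_cast; ring
  unfold Gk
  rw [e1, fe, e2]

lemma Gamma_cont {f : ℝ → ℂ} (hf : Continuous f) (h : ∀ t, 0 < (f t).re) : Continuous (fun t => Complex.Gamma (f t)) := by
  rw [continuous_iff_continuousAt]
  intro t
  have h3 : ContinuousAt Complex.Gamma (f t) := by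
    refine (Complex.differentiableAt_Gamma _ fun m h' => ?_).continuousAt
    have h1 := congrArg Complex.re h'
    simp at h1
    have h4 : (0:ℝ) ≤ m := Nat.cast_nonneg m
    have := h t
    linarith
  exact ContinuousAt.comp (f := f) h3 hf.continuousAt

lemma Ak_cont (k : ℕ) : Continuous (fun t : ℝ => Ak k (wk t)) := by
  unfold Ak
  have hw := wk_cont
  have h1 : Continuous fun t : ℝ => (2 * Real.pi : ℂ) ^ (-(wk t)) := by
    refine Continuous.const_cpow (by fun_prop) (Or.inl ?_)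
    have : (2 * Real.pi : ℂ) = ((2 * Real.pi : ℝ) : ℂ) := by push_cast; ring
    rw [this]
    exact_mod_cast (by positivity : (2 * Real.pi : ℝ) ≠ 0)
  have h2 : Continuous fun t : ℝ => Complex.Gamma (wk t) := Gamma_cont hw (fun t => by rw [wk_re]; norm_num)
  have h4 : Continuous fun t : ℝ => Complex.cos (Real.pi * wk t / 2) :=
    Complex.continuous_cos.comp (by fun_prop)
  exact ((((continuous_const.mul h1).mul h2).mul h4).pow k).div (by fun_prop) one_sub_wk_ne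

lemma Mk_cont {k : ℕ} (hk1 : 1 ≤ k) : Continuous (fun t : ℝ => Mk k (wk t)) := by
  unfold Mk
  have hw := wk_cont
  have hk' : (1:ℝ) ≤ k := by exact_mod_cast hk1
  have h1 : Continuous fun t : ℝ => (2 * Real.pi * k : ℂ) ^ (-(k * wk t - (k + 1) / 2)) := by
    refine Continuous.const_cpow (by fun_prop) (Or.inl ?_)
    have : (2 * Real.pi * k : ℂ) = ((2 * Real.pi * k : ℝ) : ℂ) := by push_cast; ring
    rw [this]
    exact_mod_cast (by positivity : (2 * Real.pi * k : ℝ) ≠ 0)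
  have h2 : Continuous fun t : ℝ => Complex.Gamma (k * wk t - (k + 1) / 2) := by
    apply Gamma_cont (by fun_prop)
    intro t
    have : ((k:ℂ) * wk t - (k + 1) / 2).re = k - 1/2 := by
      unfold wk; simp; ring
    rw [this]
    linarith
  have h4 : Continuous fun t : ℝ => Complex.cos (Real.pi * k * wk t / 2) :=
    Complex.continuous_cos.comp (by fun_prop)
  fun_prop

lemma zeta_cont : Continuous fun t : ℝ => riemannZeta (wk t) := by
  rw [continuous_iff_continuousAt]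
  intro t
  have h1 : ContinuousAt riemannZeta (wk t) := (differentiableAt_riemannZeta (by
    intro h
    have := congrArg Complex.re h
    rw [wk_re] at this
    norm_num at this)).continuousAt
  exact ContinuousAt.comp (f := wk) h1 wk_cont.continuousAt

lemma Ke_line {k : ℕ} (hk1 : 1 ≤ k) (n : ℕ) : ∃ C : ℝ, 0 < C ∧ ∀ (R δ : ℝ) (t : ℝ) (θ : ℝ), 1 ≤ R → 0 < δ → δ ≤ 1/2 →
    0 ≤ θ → θ ≤ n → ‖Ke δ n R (zk k t)‖ ≤ C * (R ^ (1/2 - k + θ : ℝ) * δ ^ (-θ)) * (1 + |t|) ^ (-θ) := by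
  obtain ⟨C, hC, h⟩ := Ke_bound n (|1/2 - (k:ℝ)|)
  refine ⟨C, hC, fun R δ t θ hR hδ hδ2 h0 hn => ?_⟩
  have hk' : (1:ℝ) ≤ k := by exact_mod_cast hk1
  have hR0 : 0 < R := by linarith
  have h1 := h R δ (zk k t) θ hR hδ hδ2 (by rw [zk_re]) h0 hn
  rw [zk_re, zk_im] at h1
  refine h1.trans ?_
  have ht := abs_nonneg t
  have h2 : 1 + |t| ≤ 1 + |-(k * t)| := by
    rw [abs_neg, abs_mul, abs_of_nonneg (by linarith : (0:ℝ) ≤ k)]; nlinarith
  calc C * R ^ (1/2 - (k:ℝ)) * (R / (δ * (1 + |-(k * t)|))) ^ θ ≤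
      C * R ^ (1/2 - (k:ℝ)) * (R / (δ * (1 + |t|))) ^ θ := by gcongr
    _ = _ := by
      rw [Real.div_rpow hR0.le (by positivity), Real.mul_rpow hδ.le (by positivity), Real.rpow_add hR0,
        Real.rpow_neg hδ.le, Real.rpow_neg (by positivity)]
      field_simp

/-- the model integral is the Voronoi series -/
lemma model_side {k n : ℕ} (hk2 : 2 ≤ k) (hn : 2 * k + 2 ≤ n) {R δ : ℝ} (hR : 1 ≤ R) (hδ : 0 < δ) (hδ2 : δ ≤ 1/2)
    (hgam : ∃ C : ℝ, 0 < C ∧ ∀ t : ℝ, ‖Mk k (wk t)‖ ≤ C * (1 + |t|) ^ ((k:ℝ) - 1))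
    (hcos : ∀ m : ℕ, 1 ≤ m →
      (1 / (2 * Real.pi) : ℂ) * ∫ t : ℝ, Mk k (wk t) * (m : ℂ) ^ (-(wk t)) * Ke δ n R ((k + 1) / 2 - k * wk t) =
      (((m : ℝ) ^ (-(((k:ℝ) + 1) / (2 * k)) : ℝ) * (1 / (Real.pi * √(k:ℝ))) *
        ck k δ n R ((m : ℝ) ^ (1 / (k:ℝ))) : ℝ) : ℂ)) :
    Integrable (fun t : ℝ => Mk k (wk t) * riemannZeta (wk t) ^ k * Ke δ n R (zk k t)) ∧
    HasSum (fun m : ℕ => 2 * Real.pi * (tk k δ n R m : ℂ))
      (∫ t : ℝ, Mk k (wk t) * riemannZeta (wk t) ^ k * Ke δ n R (zk k t)) := by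
  have hR0 : 0 < R := by linarith
  have hk1 : 1 ≤ k := by omega
  obtain ⟨CM, hCM, hM⟩ := hgam
  obtain ⟨CK, hCK, hK⟩ := Ke_line hk1 n
  set G : ℝ → ℂ := fun t => Mk k (wk t) * Ke δ n R (zk k t) with hG
  have hGc : Continuous G := (Mk_cont hk1).mul ((Ke_diff hδ n hR0).continuous.comp (zk_cont k))
  have hGi : Integrable G := by
    have h1 : Integrable fun t : ℝ => (CM * (CK * (R ^ (1/2 - k + (k + 1) : ℝ) * δ ^ (-((k:ℝ) + 1))))) * (1 + ‖t‖) ^ (-(2 : ℝ)) :=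
      (integrable_one_add_norm (by simp)).const_mul _
    refine h1.mono' hGc.aestronglyMeasurable (Eventually.of_forall fun t => ?_)
    rw [hG]
    beta_reduce
    have h2 := hM t
    have h3 := hK R δ t (k + 1) hR hδ hδ2 (by positivity) (by
      have : ((2 * k + 2 : ℕ) : ℝ) ≤ n := by exact_mod_cast hn
      push_cast at this
      have : (0:ℝ) ≤ k := Nat.cast_nonneg k
      linarith)
    rw [norm_mul, Real.norm_eq_abs]
    calc ‖Mk k (wk t)‖ * ‖Ke δ n R (zk k t)‖ ≤ (CM * (1 + |t|) ^ ((k:ℝ) - 1)) *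
        (CK * (R ^ (1/2 - k + (k + 1) : ℝ) * δ ^ (-((k:ℝ) + 1))) * (1 + |t|) ^ (-((k:ℝ) + 1))) := by gcongr
      _ = (CM * (CK * (R ^ (1/2 - k + (k + 1) : ℝ) * δ ^ (-((k:ℝ) + 1))))) * ((1 + |t|) ^ ((k:ℝ) - 1) * (1 + |t|) ^ (-((k:ℝ) + 1))) := by ring
      _ = _ := by
        rw [← Real.rpow_add (by positivity)]
        congr 2
        ring
  set F : ℕ → ℝ → ℂ := fun m t => G t * ((dk k m : ℂ) * (m : ℂ) ^ (-(wk t))) with hF
  have hFn : ∀ m t, ‖F m t‖ = ‖G t‖ * (dk k m * (m : ℝ) ^ (-(3/2) : ℝ)) := by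
    intro m t
    rw [hF]
    beta_reduce
    rw [norm_mul (G t), norm_mul (dk k m : ℂ), Complex.norm_real, Real.norm_of_nonneg (dk_nonneg k m)]
    rcases eq_or_ne m 0 with rfl | hm
    · simp [dk_zero]
    · rw [norm_nat_cpow (Nat.pos_of_ne_zero hm), wk_re]
  have hFm : ∀ m, Continuous (F m) := by
    intro m
    rcases eq_or_ne m 0 with rfl | hm
    · have : F 0 = fun _ => 0 := by
        funext t
        simp [hF, dk_zero]
      rw [this]
      exact continuous_const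
    · refine hGc.mul (continuous_const.mul (Continuous.const_cpow (by have := wk_cont; fun_prop) (Or.inl ?_)))
      exact_mod_cast hm
  have hFint : ∀ m, Integrable (F m) := by
    intro m
    refine (hGi.norm.mul_const (dk k m * (m : ℝ) ^ (-(3/2) : ℝ))).mono' (hFm m).aestronglyMeasurable
      (Eventually.of_forall fun t => ?_)
    rw [hFn]
  have hFsum : Summable fun m => ∫ t, ‖F m t‖ := by
    have : (fun m => ∫ t, ‖F m t‖) = fun m : ℕ => (∫ t, ‖G t‖) * (dk k m * (m : ℝ) ^ (-(3/2) : ℝ)) := by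
      funext m
      rw [← integral_mul_const]
      refine integral_congr_ae (Eventually.of_forall fun t => ?_)
      exact hFn m t
    rw [this]
    exact (summable_dk k (by norm_num)).mul_left _
  have h := hasSum_integral_of_summable_integral_norm hFint hFsum
  have e1 : ∀ t, ∑' m, F m t = Mk k (wk t) * riemannZeta (wk t) ^ k * Ke δ n R (zk k t) := by
    intro t
    rw [hF]
    beta_reduce
    rw [tsum_mul_left, (hasSum_dk k (s := wk t) (by rw [wk_re]; norm_num)).tsum_eq, hG]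
    ring
  simp_rw [e1] at h
  have e2 : ∀ m, ∫ t, F m t = 2 * Real.pi * (tk k δ n R m : ℂ) := by
    intro m
    rcases eq_or_ne m 0 with rfl | hm
    · simp [hF, dk_zero, tk]
    · have h5 := hcos m (Nat.pos_of_ne_zero hm)
      have e3 : ∫ t, F m t = (dk k m : ℂ) * ∫ t : ℝ, Mk k (wk t) * (m : ℂ) ^ (-(wk t)) * Ke δ n R ((k + 1) / 2 - k * wk t) := by
        rw [← integral_const_mul]
        refine integral_congr_ae (Eventually.of_forall fun t => ?_)
        rw [hF, hG]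
        beta_reduce
        unfold zk
        ring
      have hpi : (2 * (Real.pi:ℂ)) * (1 / (2 * Real.pi) : ℂ) = 1 := by
        have : (Real.pi : ℂ) ≠ 0 := by exact_mod_cast Real.pi_ne_zero
        field_simp
      have e4 : ∫ t : ℝ, Mk k (wk t) * (m : ℂ) ^ (-(wk t)) * Ke δ n R ((k + 1) / 2 - k * wk t) =
          (2 * (Real.pi:ℂ)) * ((1 / (2 * Real.pi) : ℂ) * ∫ t : ℝ, Mk k (wk t) * (m : ℂ) ^ (-(wk t)) * Ke δ n R ((k + 1) / 2 - k * wk t)) := by
        rw [← mul_assoc, hpi, one_mul]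
      rw [e3, e4, h5]
      unfold tk
      push_cast
      ring
  simp_rw [e2] at h
  refine ⟨?_, h⟩
  have hzb : ∀ t : ℝ, ‖riemannZeta (wk t) ^ k‖ ≤ ∑' m : ℕ, dk k m * (m : ℝ) ^ (-(3/2):ℝ) := fun t =>
    zeta_pow_le k (by norm_num) (wk t) (wk_re t)
  have h6 := hGi.bdd_mul (f := fun t => riemannZeta (wk t) ^ k) (c := ∑' m : ℕ, dk k m * (m : ℝ) ^ (-(3/2):ℝ))
    (zeta_cont.pow k).aestronglyMeasurable (Eventually.of_forall hzb)
  refine h6.congr (Eventually.of_forall fun t => ?_)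
  rw [hG]
  beta_reduce
  ring

/-- the error integral -/
lemma error_side {k n : ℕ} (hk2 : 2 ≤ k) (hn : 2 * k + 2 ≤ n)
    (hgam : ∃ C : ℝ, 0 < C ∧ ∀ t : ℝ, ‖Ak k (wk t) - Mk k (wk t)‖ ≤ C * (1 + |t|) ^ ((k:ℝ) - 2)) :
    ∃ C : ℝ, 0 < C ∧ ∀ (R δ : ℝ), 1 ≤ R → 0 < δ → δ ≤ 1/2 →
    Integrable (fun t : ℝ => (Ak k (wk t) - Mk k (wk t)) * riemannZeta (wk t) ^ k * Ke δ n R (zk k t)) ∧
    ‖∫ t : ℝ, (Ak k (wk t) - Mk k (wk t)) * riemannZeta (wk t) ^ k * Ke δ n R (zk k t)‖ ≤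
      C * (R ^ (-(1/4) : ℝ) * δ ^ (-(k:ℝ))) := by
  have hk1 : 1 ≤ k := by omega
  have hk' : (2:ℝ) ≤ k := by exact_mod_cast hk2
  obtain ⟨CM, hCM, hM⟩ := hgam
  obtain ⟨CK, hCK, hK⟩ := Ke_line hk1 n
  set Z : ℝ := ∑' m : ℕ, dk k m * (m : ℝ) ^ (-(3/2):ℝ) with hZ
  have hZ0 : 0 ≤ Z := tsum_nonneg (fun m => by have := dk_nonneg k m; positivity)
  have hzb : ∀ t : ℝ, ‖riemannZeta (wk t) ^ k‖ ≤ Z := fun t => zeta_pow_le k (by norm_num) (wk t) (wk_re t)
  have hJi : Integrable (fun t : ℝ => (1 + ‖t‖) ^ (-(5 / 4) : ℝ)) :=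
    integrable_one_add_norm (by simp; norm_num)
  set J : ℝ := ∫ t : ℝ, (1 + ‖t‖) ^ (-(5 / 4) : ℝ) with hJ
  have hJ0 : 0 ≤ J := integral_nonneg fun t => by positivity
  refine ⟨CM * Z * CK * J + 1, by positivity, fun R δ hR hδ hδ2 => ?_⟩
  have hR0 : 0 < R := by linarith
  set X : ℝ := R ^ (-(1/4) : ℝ) * δ ^ (-(k:ℝ)) with hX
  have hX0 : 0 < X := by positivity
  have hb : ∀ t : ℝ, ‖(Ak k (wk t) - Mk k (wk t)) * riemannZeta (wk t) ^ k * Ke δ n R (zk k t)‖ ≤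
      (CM * Z * CK * X) * (1 + ‖t‖) ^ (-(5/4) : ℝ) := by
    intro t
    have h2 := hM t
    have h4 := hzb t
    have h3 := hK R δ t (k - 3/4) hR hδ hδ2 (by linarith) (by
      have : ((2 * k + 2 : ℕ) : ℝ) ≤ n := by exact_mod_cast hn
      push_cast at this
      linarith)
    have h5 : R ^ (1/2 - k + (k - 3/4) : ℝ) * δ ^ (-((k:ℝ) - 3/4)) ≤ X := by
      rw [hX, show (1/2 - k + (k - 3/4) : ℝ) = -(1/4) by ring]
      have : δ ^ (-((k:ℝ) - 3/4)) ≤ δ ^ (-(k:ℝ)) :=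
        Real.rpow_le_rpow_of_exponent_ge hδ (by linarith) (by linarith)
      gcongr
    rw [norm_mul, norm_mul, Real.norm_eq_abs]
    calc ‖Ak k (wk t) - Mk k (wk t)‖ * ‖riemannZeta (wk t) ^ k‖ * ‖Ke δ n R (zk k t)‖ ≤
        (CM * (1 + |t|) ^ ((k:ℝ) - 2)) * Z * (CK * (R ^ (1/2 - k + (k - 3/4) : ℝ) * δ ^ (-((k:ℝ) - 3/4))) * (1 + |t|) ^ (-((k:ℝ) - 3/4))) := by
          gcongr
      _ ≤ (CM * (1 + |t|) ^ ((k:ℝ) - 2)) * Z * (CK * X * (1 + |t|) ^ (-((k:ℝ) - 3/4))) := by gcongr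
      _ = (CM * Z * CK * X) * ((1 + |t|) ^ ((k:ℝ) - 2) * (1 + |t|) ^ (-((k:ℝ) - 3/4))) := by ring
      _ = _ := by
        rw [← Real.rpow_add (by positivity)]
        congr 2
        ring
  constructor
  · refine (hJi.const_mul (CM * Z * CK * X)).mono' ?_ (Eventually.of_forall hb)
    exact ((((Ak_cont k).sub (Mk_cont hk1)).mul (zeta_cont.pow k)).mul
      ((Ke_diff hδ n hR0).continuous.comp (zk_cont k))).aestronglyMeasurable
  · refine (norm_integral_le_of_norm_le (hJi.const_mul (CM * Z * CK * X)) (Eventually.of_forall hb)).trans ?_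
    rw [integral_const_mul, ← hJ]
    nlinarith

end Pool.Agent.H383.PZ
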