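import Mathlib
import Pool.Agent.H383.PZ.V2

open MeasureTheory Filter Topology Set

namespace Pool.Agent.H383.PZ

lemma rect_split {f : ℂ → ℂ} {a b c : ℝ} (hab : a ≤ b) (hbc : b ≤ c)
    (h1 : ContinuousOn (fun x : ℝ => f (x + ((-1:ℝ):ℂ) * Complex.I)) (Icc a c))
    (h2 : ContinuousOn (fun x : ℝ => f (x + ((1:ℝ):ℂ) * Complex.I)) (Icc a c)) :
    Rect f a c = Rect f a b + Rect f b c := by
  have i1 : ∀ p q, a ≤ p → p ≤ q → q ≤ c → IntervalIntegrable (fun x : ℝ => f (x + ((-1:ℝ):ℂ) * Complex.I)) volume p q := by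
    intro p q hp hpq hq
    apply ContinuousOn.intervalIntegrable
    rw [uIcc_of_le hpq]
    exact h1.mono (Icc_subset_Icc hp hq)
  have i2 : ∀ p q, a ≤ p → p ≤ q → q ≤ c → IntervalIntegrable (fun x : ℝ => f (x + ((1:ℝ):ℂ) * Complex.I)) volume p q := by
    intro p q hp hpq hq
    apply ContinuousOn.intervalIntegrable
    rw [uIcc_of_le hpq]
    exact h2.mono (Icc_subset_Icc hp hq)
  unfold Rect
  rw [← intervalIntegral.integral_add_adjacent_intervals (i1 a b le_rfl hab hbc) (i1 b c hab hbc le_rfl),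
    ← intervalIntegral.integral_add_adjacent_intervals (i2 a b le_rfl hab hbc) (i2 b c hab hbc le_rfl)]
  ring

/-- continuity of the integrand along a path avoiding the poles -/
lemma zs_contOn (k : ℕ) {γ : ℝ → ℂ} (hγ : Continuous γ) {S : Set ℝ} (h0 : ∀ x ∈ S, γ x ≠ 0) (h1 : ∀ x ∈ S, γ x ≠ 1) :
    ContinuousOn (fun x : ℝ => riemannZeta (γ x) ^ k / γ x) S := by
  intro x hx
  apply ContinuousAt.continuousWithinAt
  have h2 : ContinuousAt riemannZeta (γ x) := (differentiableAt_riemannZeta (h1 x hx)).continuousAt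
  have h3 : ContinuousAt (fun x => riemannZeta (γ x)) x := ContinuousAt.comp (f := γ) h2 hγ.continuousAt
  exact (h3.pow k).div hγ.continuousAt (h0 x hx)

lemma Gk_contOn (k : ℕ) {δ : ℝ} (hδ : 0 < δ) (n : ℕ) {R : ℝ} (hR : 0 < R) {γ : ℝ → ℂ} (hγ : Continuous γ) {S : Set ℝ}
    (h0 : ∀ x ∈ S, γ x ≠ 0) (h1 : ∀ x ∈ S, γ x ≠ 1) :
    ContinuousOn (fun x : ℝ => Gk k δ n R (γ x)) S := by
  unfold Gk
  apply (zs_contOn k hγ h0 h1).mul
  exact ((Ke_diff hδ n hR).continuous.comp (by fun_prop)).continuousOn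

/-- exchange of a path integral with the mean -/
lemma path_swap (k : ℕ) {δ : ℝ} (hδ : 0 < δ) (n : ℕ) {R : ℝ} (hR : 0 < R) {γ : ℝ → ℂ} (hγ : Continuous γ) {a b : ℝ}
    (hab : a ≤ b) (h0 : ∀ x ∈ Icc a b, γ x ≠ 0) (h1 : ∀ x ∈ Icc a b, γ x ≠ 1) :
    Integrable (fun u : ℝ => ∫ x in a..b, riemannZeta (γ x) ^ k / γ x * ((R + u : ℝ) : ℂ) ^ (k * γ x - (hk k : ℂ))) (mu δ n) ∧
    ∫ x in a..b, Gk k δ n R (γ x) = ∫ u, (∫ x in a..b, riemannZeta (γ x) ^ k / γ x *
      ((R + u : ℝ) : ℂ) ^ (k * γ x - (hk k : ℂ))) ∂(mu δ n) := by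
  have := mu_prob hδ n
  have hnδ : 0 ≤ n * δ := by positivity
  set T : ℝ := R + n * δ with hT
  have hT0 : 0 < T := by linarith
  have hc := zs_contOn k hγ h0 h1
  obtain ⟨B1, hB1⟩ := isCompact_Icc.exists_bound_of_continuousOn hc
  have hre : Continuous (fun x : ℝ => (k * γ x - (hk k : ℂ)).re) := by fun_prop
  obtain ⟨B2, hB2⟩ := isCompact_Icc.exists_bound_of_continuousOn (s := Icc a b)
    (f := fun x : ℝ => R ^ (k * γ x - (hk k : ℂ)).re + T ^ (k * γ x - (hk k : ℂ)).re) (by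
      apply Continuous.continuousOn
      exact (Continuous.rpow continuous_const hre (fun _ => Or.inl hR.ne')).add
        (Continuous.rpow continuous_const hre (fun _ => Or.inl hT0.ne')))
  have hint : Integrable (fun p : ℝ × ℝ => riemannZeta (γ p.1) ^ k / γ p.1 * ((R + p.2 : ℝ) : ℂ) ^ (k * γ p.1 - (hk k : ℂ)))
      ((volume.restrict (Ioc a b)).prod (mu δ n)) := by
    apply Integrable.of_bound (C := B1 * B2)
    · apply AEStronglyMeasurable.mul
      · exact ((hc.mono Ioc_subset_Icc_self).aestronglyMeasurable measurableSet_Ioc).comp_fst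
      · apply Measurable.aestronglyMeasurable
        have := hγ.measurable
        fun_prop
    · have m1 : ∀ᵐ p ∂((volume.restrict (Ioc a b)).prod (mu δ n)), p.1 ∈ Ioc a b :=
        (Measure.quasiMeasurePreserving_fst).ae (ae_restrict_mem measurableSet_Ioc)
      have m2 : ∀ᵐ p ∂((volume.restrict (Ioc a b)).prod (mu δ n)), p.2 ∈ Icc 0 (n * δ) :=
        (Measure.quasiMeasurePreserving_snd).ae (mu_supp hδ n)
      filter_upwards [m1, m2] with p hp1 hp2
      have hp1' : p.1 ∈ Icc a b := Ioc_subset_Icc_self hp1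
      have hb1 := hB1 p.1 hp1'
      have hb2 := hB2 p.1 hp1'
      have hb3 : ‖((R + p.2 : ℝ) : ℂ) ^ (k * γ p.1 - (hk k : ℂ))‖ ≤ B2 := by
        rw [norm_cpow_pos (by linarith [hp2.1])]
        refine (rpow_le_max hR (show R ≤ T by linarith) _ (by linarith [hp2.1]) (by linarith [hp2.2])).trans ?_
        exact (le_abs_self _).trans hb2
      rw [norm_mul]
      have := norm_nonneg (riemannZeta (γ p.1) ^ k / γ p.1)
      gcongr
      exact this.trans hb1
  constructor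
  · have := hint.integral_prod_right
    refine this.congr (Eventually.of_forall fun u => ?_)
    beta_reduce
    rw [intervalIntegral.integral_of_le hab]
  · have e1 : ∀ x : ℝ, Gk k δ n R (γ x) = ∫ u, riemannZeta (γ x) ^ k / γ x * ((R + u : ℝ) : ℂ) ^ (k * γ x - (hk k : ℂ)) ∂(mu δ n) := by
      intro x
      unfold Gk Ke
      rw [integral_const_mul]
    simp_rw [e1]
    rw [intervalIntegral.integral_of_le hab, integral_integral_swap hint]
    apply integral_congr_ae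
    refine Eventually.of_forall fun u => ?_
    beta_reduce
    rw [intervalIntegral.integral_of_le hab]

lemma edge_ne {x c : ℝ} (hc : c ≠ 0) (w : ℝ) : (x : ℂ) + (c : ℂ) * Complex.I ≠ (w : ℂ) := by
  intro h
  have := congrArg Complex.im h
  simp at this
  exact hc this

lemma edge_ne' {x w : ℝ} (hx : x ≠ w) (y : ℝ) : (x : ℂ) + (y : ℂ) * Complex.I ≠ (w : ℂ) := by
  intro h
  have := congrArg Complex.re h
  simp at this
  exact hx this

lemma int_comb {μ : Measure ℝ} {f1 f2 f3 f4 : ℝ → ℂ} (h1 : Integrable f1 μ) (h2 : Integrable f2 μ)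
    (h3 : Integrable f3 μ) (h4 : Integrable f4 μ) (c : ℂ) :
    (∫ x, f1 x ∂μ) - (∫ x, f2 x ∂μ) + c * (∫ x, f3 x ∂μ) - c * (∫ x, f4 x ∂μ) =
      ∫ x, (f1 x - f2 x + c * f3 x - c * f4 x) ∂μ := by
  have a1 : ∫ x, (f1 x - f2 x) ∂μ = (∫ x, f1 x ∂μ) - (∫ x, f2 x ∂μ) := integral_sub h1 h2
  have a2 : ∫ x, (f1 x - f2 x + c * f3 x) ∂μ = (∫ x, (f1 x - f2 x) ∂μ) + ∫ x, c * f3 x ∂μ :=
    integral_add (h1.sub h2) (h3.const_mul c)
  have a3 : ∫ x, (f1 x - f2 x + c * f3 x - c * f4 x) ∂μ = (∫ x, (f1 x - f2 x + c * f3 x) ∂μ) - ∫ x, c * f4 x ∂μ :=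
    integral_sub ((h1.sub h2).add (h3.const_mul c)) (h4.const_mul c)
  rw [a3, a2, a1, integral_const_mul, integral_const_mul]

/-- the main term -/
lemma rect_main {k : ℕ} {P : Polynomial ℝ}
    (hP : ∀ x : ℝ, 0 < x → Rect (fun s => riemannZeta s ^ k * (x : ℂ) ^ s / s) (1/8) 2 =
      2 * Real.pi * Complex.I * ((x * P.eval (Real.log x) : ℝ) : ℂ))
    {δ : ℝ} (hδ : 0 < δ) (n : ℕ) {R : ℝ} (hR : 0 < R) :
    Rect (Gk k δ n R) (1/8) 2 = 2 * Real.pi * Complex.I *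
      ((∫ x, (R + x) ^ k * P.eval (Real.log ((R + x) ^ k)) * (R + x) ^ (-hk k) ∂(mu δ n) : ℝ) : ℂ) := by
  have g1 : Continuous (fun x : ℝ => (x : ℂ) + ((-1:ℝ):ℂ) * Complex.I) := by fun_prop
  have g2 : Continuous (fun x : ℝ => (x : ℂ) + ((1:ℝ):ℂ) * Complex.I) := by fun_prop
  have g3 : Continuous (fun y : ℝ => ((2:ℝ) : ℂ) + (y : ℂ) * Complex.I) := by fun_prop
  have g4 : Continuous (fun y : ℝ => ((1/8:ℝ) : ℂ) + (y : ℂ) * Complex.I) := by fun_prop
  have z0 : ((0:ℝ):ℂ) = 0 := by simp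
  have z1 : ((1:ℝ):ℂ) = 1 := by simp
  obtain ⟨j1, s1⟩ := path_swap k hδ n hR g1 (a := 1/8) (b := 2) (by norm_num)
    (fun x _ => by have := edge_ne (x := x) (c := -1) (by norm_num) 0; rwa [z0] at this)
    (fun x _ => by have := edge_ne (x := x) (c := -1) (by norm_num) 1; rwa [z1] at this)
  obtain ⟨j2, s2⟩ := path_swap k hδ n hR g2 (a := 1/8) (b := 2) (by norm_num)
    (fun x _ => by have := edge_ne (x := x) (c := 1) (by norm_num) 0; rwa [z0] at this)
    (fun x _ => by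
      intro h
      have := congrArg Complex.im h
      simp at this)
  obtain ⟨j3, s3⟩ := path_swap k hδ n hR g3 (a := -1) (b := 1) (by norm_num)
    (fun y _ => by have := edge_ne' (x := 2) (w := 0) (by norm_num) y; rwa [z0] at this)
    (fun y _ => by have := edge_ne' (x := 2) (w := 1) (by norm_num) y; rwa [z1] at this)
  obtain ⟨j4, s4⟩ := path_swap k hδ n hR g4 (a := -1) (b := 1) (by norm_num)
    (fun y _ => by have := edge_ne' (x := 1/8) (w := 0) (by norm_num) y; rwa [z0] at this)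
    (fun y _ => by have := edge_ne' (x := 1/8) (w := 1) (by norm_num) y; rwa [z1] at this)
  unfold Rect
  rw [s1, s2, s3, s4, int_comb j1 j2 j3 j4]
  rw [← integral_complex_ofReal, ← integral_const_mul]
  apply integral_congr_ae
  filter_upwards [mu_supp hδ n] with u hu
  have hy : 0 < R + u := by linarith [hu.1]
  have hyc : ((R + u : ℝ) : ℂ) ≠ 0 := by exact_mod_cast hy.ne'
  have hPx := hP ((R + u) ^ k) (by positivity)
  have key : ∀ s : ℂ, riemannZeta s ^ k / s * ((R + u : ℝ) : ℂ) ^ (k * s - (hk k : ℂ)) =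
      (((R + u) ^ (-hk k) : ℝ) : ℂ) * (riemannZeta s ^ k * (((R + u) ^ k : ℝ) : ℂ) ^ s / s) := by
    intro s
    have e3 : (((R + u) ^ k : ℝ) : ℂ) ^ s = ((R + u : ℝ) : ℂ) ^ (k * s) := by
      rw [← Real.rpow_natCast (R + u) k, ← Complex.cpow_mul_ofReal_nonneg hy.le, Complex.ofReal_natCast]
    rw [e3, Complex.ofReal_cpow hy.le, sub_eq_add_neg, Complex.cpow_add _ _ hyc]
    push_cast
    ring
  simp_rw [key]
  rw [intervalIntegral.integral_const_mul, intervalIntegral.integral_const_mul, intervalIntegral.integral_const_mul,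
    intervalIntegral.integral_const_mul]
  unfold Rect at hPx
  have e5 : (2 * Real.pi * Complex.I * (((R + u) ^ k * P.eval (Real.log ((R + u) ^ k)) * (R + u) ^ (-hk k) : ℝ) : ℂ)) =
      (((R + u) ^ (-hk k) : ℝ) : ℂ) * (2 * Real.pi * Complex.I * (((R + u) ^ k * P.eval (Real.log ((R + u) ^ k)) : ℝ) : ℂ)) := by
    push_cast
    ring
  rw [e5, ← hPx]
  ring

/-- the contribution of a path on the left of `1/8` is small -/
lemma edge_small {k n : ℕ} (hk2 : 2 ≤ k) {γ : ℝ → ℂ} (hγ : Continuous γ) {a b : ℝ} (hab : a ≤ b)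
    (h0 : ∀ x ∈ Icc a b, γ x ≠ 0) (h1 : ∀ x ∈ Icc a b, γ x ≠ 1) (hl : ∀ x ∈ Icc a b, -(1/2) ≤ (γ x).re)
    (hr : ∀ x ∈ Icc a b, (γ x).re ≤ 1/8) :
    ∃ C : ℝ, 0 ≤ C ∧ ∀ (R δ : ℝ), 1 ≤ R → 0 < δ → δ ≤ 1/2 → ‖∫ x in a..b, Gk k δ n R (γ x)‖ ≤ C * R ^ (-(1/4) : ℝ) := by
  obtain ⟨B1, hB1⟩ := isCompact_Icc.exists_bound_of_continuousOn (zs_contOn k hγ h0 h1)
  obtain ⟨C, hC, hK⟩ := Ke_bound n (2 * k)
  have hk' : (2:ℝ) ≤ k := by exact_mod_cast hk2
  refine ⟨|B1| * C * (b - a), by have := sub_nonneg.mpr hab; positivity, fun R δ hR hδ hδ2 => ?_⟩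
  have h : ∀ x ∈ uIoc a b, ‖Gk k δ n R (γ x)‖ ≤ |B1| * C * R ^ (-(1/4) : ℝ) := by
    intro x hx
    rw [uIoc_of_le hab] at hx
    have hx' := Ioc_subset_Icc_self hx
    have e1 : (k * γ x - (hk k : ℂ)).re = k * (γ x).re - hk k := by simp
    have h2 := hl x hx'
    have h3 := hr x hx'
    have h4 := hK R δ (k * γ x - (hk k : ℂ)) 0 hR hδ hδ2 (by
      rw [e1, abs_le]
      unfold hk
      constructor <;> nlinarith) le_rfl (Nat.cast_nonneg n)
    rw [Real.rpow_zero, mul_one, e1] at h4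
    have h5 : R ^ (k * (γ x).re - hk k) ≤ R ^ (-(1/4) : ℝ) := by
      apply Real.rpow_le_rpow_of_exponent_le hR
      unfold hk
      nlinarith
    have h6 := (hB1 x hx').trans (le_abs_self B1)
    unfold Gk
    rw [norm_mul]
    calc ‖riemannZeta (γ x) ^ k / γ x‖ * ‖Ke δ n R (k * γ x - (hk k : ℂ))‖ ≤ |B1| * (C * R ^ (-(1/4) : ℝ)) := by
          gcongr
          exact h4.trans (by gcongr)
      _ = _ := by ring
  have h7 := intervalIntegral.norm_integral_le_of_norm_le_const h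
  rw [abs_of_nonneg (sub_nonneg.mpr hab)] at h7
  calc _ ≤ _ := h7
    _ = _ := by ring

lemma rect_small {k : ℕ} (hk2 : 2 ≤ k) (n : ℕ) :
    ∃ C : ℝ, 0 ≤ C ∧ ∀ (R δ : ℝ), 1 ≤ R → 0 < δ → δ ≤ 1/2 → ‖Rect (Gk k δ n R) (-(1/2)) (1/8)‖ ≤ C * R ^ (-(1/4) : ℝ) := by
  have g1 : Continuous (fun x : ℝ => (x : ℂ) + ((-1:ℝ):ℂ) * Complex.I) := by fun_prop
  have g2 : Continuous (fun x : ℝ => (x : ℂ) + ((1:ℝ):ℂ) * Complex.I) := by fun_prop
  have g3 : Continuous (fun y : ℝ => ((1/8:ℝ) : ℂ) + (y : ℂ) * Complex.I) := by fun_prop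
  have g4 : Continuous (fun y : ℝ => ((-(1/2):ℝ) : ℂ) + (y : ℂ) * Complex.I) := by fun_prop
  have z0 : ((0:ℝ):ℂ) = 0 := by simp
  have z1 : ((1:ℝ):ℂ) = 1 := by simp
  obtain ⟨C1, hC1, H1⟩ := edge_small (n := n) hk2 g1 (a := -(1/2)) (b := 1/8) (by norm_num)
    (fun x _ => by have := edge_ne (x := x) (c := -1) (by norm_num) 0; rwa [z0] at this)
    (fun x _ => by have := edge_ne (x := x) (c := -1) (by norm_num) 1; rwa [z1] at this)
    (fun x hx => by simp; linarith [hx.1]) (fun x hx => by simp; linarith [hx.2])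
  obtain ⟨C2, hC2, H2⟩ := edge_small (n := n) hk2 g2 (a := -(1/2)) (b := 1/8) (by norm_num)
    (fun x _ => by have := edge_ne (x := x) (c := 1) (by norm_num) 0; rwa [z0] at this)
    (fun x _ => by
      intro h
      have := congrArg Complex.im h
      simp at this)
    (fun x hx => by simp; linarith [hx.1]) (fun x hx => by simp; linarith [hx.2])
  obtain ⟨C3, hC3, H3⟩ := edge_small (n := n) hk2 g3 (a := -1) (b := 1) (by norm_num)
    (fun y _ => by have := edge_ne' (x := 1/8) (w := 0) (by norm_num) y; rwa [z0] at this)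
    (fun y _ => by have := edge_ne' (x := 1/8) (w := 1) (by norm_num) y; rwa [z1] at this)
    (fun x hx => by simp; norm_num) (fun x hx => by simp)
  obtain ⟨C4, hC4, H4⟩ := edge_small (n := n) hk2 g4 (a := -1) (b := 1) (by norm_num)
    (fun y _ => by have := edge_ne' (x := -(1/2)) (w := 0) (by norm_num) y; rwa [z0] at this)
    (fun y _ => by have := edge_ne' (x := -(1/2)) (w := 1) (by norm_num) y; rwa [z1] at this)
    (fun x hx => by simp) (fun x hx => by simp; norm_num)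
  refine ⟨C1 + C2 + C3 + C4, by positivity, fun R δ hR hδ hδ2 => ?_⟩
  have k1 := H1 R δ hR hδ hδ2
  have k2 := H2 R δ hR hδ hδ2
  have k3 := H3 R δ hR hδ hδ2
  have k4 := H4 R δ hR hδ hδ2
  unfold Rect
  refine (norm_sub_le _ _).trans ?_
  have n1 := norm_add_le ((∫ x in (-(1/2):ℝ)..(1/8:ℝ), Gk k δ n R (x + ((-1:ℝ):ℂ) * Complex.I)) -
    (∫ x in (-(1/2):ℝ)..(1/8:ℝ), Gk k δ n R (x + ((1:ℝ):ℂ) * Complex.I)))
    (Complex.I * (∫ y in (-1:ℝ)..1, Gk k δ n R (((1/8:ℝ):ℂ) + y * Complex.I)))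
  have n2 := norm_sub_le (∫ x in (-(1/2):ℝ)..(1/8:ℝ), Gk k δ n R (x + ((-1:ℝ):ℂ) * Complex.I))
    (∫ x in (-(1/2):ℝ)..(1/8:ℝ), Gk k δ n R (x + ((1:ℝ):ℂ) * Complex.I))
  rw [norm_mul, Complex.norm_I, one_mul] at n1 ⊢
  linarith

end Pool.Agent.H383.PZ
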