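import Mathlib
import Pool.Agent.H383.PZ.V3
import Pool.Agent.H383.PZ.P
import Pool.Agent.H52R4.PZT1
import Pool.Agent.H797R2.PZT4
import Pool.Agent.H814R2.PZT5
import Pool.Agent.H804R2.PZT6
import Pool.Agent.H769R2.PZT7

open MeasureTheory Filter Topology Set

namespace Pool.Agent.H383.PZ

lemma main_meas (k : ℕ) (P : Polynomial ℝ) (R : ℝ) :
    Measurable (fun x : ℝ => (R + x) ^ k * P.eval (Real.log ((R + x) ^ k)) * (R + x) ^ (-hk k)) := by
  have h2 : Measurable (fun x : ℝ => P.eval (Real.log ((R + x) ^ k))) := by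
    exact (Polynomial.continuous P).measurable.comp (by fun_prop)
  fun_prop

lemma D_meas (k : ℕ) (R : ℝ) : Measurable (fun x : ℝ => Dk k ((R + x) ^ k) * (R + x) ^ (-hk k)) := by
  have h1 : Measurable (fun x : ℝ => Dk k ((R + x) ^ k)) := (Dk_meas k).comp (by fun_prop)
  fun_prop

lemma rpow_neg_hk_le {k : ℕ} (hk1 : 1 ≤ k) {y : ℝ} (hy : 1 ≤ y) : y ^ (-hk k) ≤ 1 := by
  apply Real.rpow_le_one_of_one_le_of_nonpos hy
  unfold hk
  have : (1:ℝ) ≤ k := by exact_mod_cast hk1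
  linarith

lemma D_int {k : ℕ} (hk1 : 1 ≤ k) {δ : ℝ} (hδ : 0 < δ) (n : ℕ) {R : ℝ} (hR : 1 ≤ R) :
    Integrable (fun x : ℝ => Dk k ((R + x) ^ k) * (R + x) ^ (-hk k)) (mu δ n) := by
  have hnδ : 0 ≤ n * δ := by positivity
  apply int_of_bdd hδ n (B := Dk k ((R + n * δ) ^ k)) (D_meas k R).aestronglyMeasurable
  intro x hx
  have hy : 1 ≤ R + x := by linarith [hx.1]
  have h1 : Dk k ((R + x) ^ k) ≤ Dk k ((R + n * δ) ^ k) := by
    apply Dk_mono k
    have := hx.2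
    gcongr
  have h2 := rpow_neg_hk_le hk1 hy
  have h3 : 0 < (R + x) ^ (-hk k) := Real.rpow_pos_of_pos (by linarith) _
  have h4 := Dk_nonneg k ((R + x) ^ k)
  rw [norm_mul, Real.norm_of_nonneg h4, Real.norm_of_nonneg h3.le]
  nlinarith

lemma main_int {k : ℕ} (hk1 : 1 ≤ k) (P : Polynomial ℝ) {δ : ℝ} (hδ : 0 < δ) (n : ℕ) {R : ℝ} (hR : 1 ≤ R) :
    Integrable (fun x : ℝ => (R + x) ^ k * P.eval (Real.log ((R + x) ^ k)) * (R + x) ^ (-hk k)) (mu δ n) := by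
  have hnδ : 0 ≤ n * δ := by positivity
  have hc : ContinuousOn (fun R : ℝ => R ^ k * P.eval (Real.log (R ^ k))) (Icc 1 (R + n * δ)) := by
    apply ContinuousOn.mul (by fun_prop)
    apply (Polynomial.continuous P).comp_continuousOn
    apply ContinuousOn.log (by fun_prop)
    intro x hx
    have : 0 < x := by linarith [hx.1]
    positivity
  obtain ⟨B1, hB1⟩ := isCompact_Icc.exists_bound_of_continuousOn hc
  apply int_of_bdd hδ n (B := B1) (main_meas k P R).aestronglyMeasurable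
  intro x hx
  have hy : 1 ≤ R + x := by linarith [hx.1]
  have h1 := hB1 (R + x) ⟨hy, by linarith [hx.2]⟩
  have h2 := rpow_neg_hk_le hk1 hy
  have h3 : 0 < (R + x) ^ (-hk k) := Real.rpow_pos_of_pos (by linarith) _
  rw [norm_mul, Real.norm_of_nonneg h3.le]
  calc _ ≤ B1 * 1 := by
        apply mul_le_mul h1 h2 h3.le
        exact (norm_nonneg _).trans h1
    _ = B1 := mul_one _

/-- the formula for the first admissible `n` -/
theorem voronoi_base {k n : ℕ} (hk2 : 2 ≤ k) (hn : 2 * k + 2 ≤ n) {P : Polynomial ℝ}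
    (hP : ∀ x : ℝ, 0 < x → Rect (fun s => riemannZeta s ^ k * (x : ℂ) ^ s / s) (1/8) 2 =
      2 * Real.pi * Complex.I * ((x * P.eval (Real.log x) : ℝ) : ℂ)) :
    ∃ C : ℝ, 0 < C ∧ ∀ (R δ : ℝ), 1 ≤ R → 0 < δ → δ ≤ 1/2 →
      |(∫ x, Fk k P (R + x) ∂(mu δ n)) - ∑' m : ℕ, tk k δ n R m| ≤ C * (R ^ (-(1/4) : ℝ) * δ ^ (-(k:ℝ))) := by
  have hk1 : 1 ≤ k := by omega
  have hgam := Pool.Agent.H804R2.PZ.gamma_factor k hk2
  obtain ⟨Cg, hCg, hg⟩ := hgam
  obtain ⟨CE, hCE, hE⟩ := error_side hk2 hn ⟨Cg, hCg, fun t => (hg t).1⟩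
  obtain ⟨CR, hCR, hR'⟩ := rect_small hk2 n
  refine ⟨CE + CR, by positivity, fun R δ hR hδ hδ2 => ?_⟩
  have hR0 : 0 < R := by linarith
  have hpi := Real.pi_gt_three
  have hcos : ∀ m : ℕ, 1 ≤ m →
      (1 / (2 * Real.pi) : ℂ) * ∫ t : ℝ, Mk k (wk t) * (m : ℂ) ^ (-(wk t)) * Ke δ n R ((k + 1) / 2 - k * wk t) =
      (((m : ℝ) ^ (-(((k:ℝ) + 1) / (2 * k)) : ℝ) * (1 / (Real.pi * √(k:ℝ))) *
        ck k δ n R ((m : ℝ) ^ (1 / (k:ℝ))) : ℝ) : ℂ) := fun m hm =>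
    Pool.Agent.H769R2.PZT7.cos_int hk2 hn hR hδ hδ2 hm
  obtain ⟨iM, hM⟩ := model_side hk2 hn hR hδ hδ2 ⟨Cg, hCg, fun t => (hg t).2⟩ hcos
  obtain ⟨iE, hEb⟩ := hE R δ hR hδ hδ2
  have hperron := perron hk2 (by omega : 2 ≤ n) hR hδ hδ2
  have hshift := Pool.Agent.H797R2.PZ.shift Pool.Agent.H52R4.PZT1.zeta_strip (fun h n _ h' => Ke_diff h n h')
    Ke_bound hk2 hn hR hδ hδ2
  have hleft := left_eq k n R δ
  have hsplit : ∫ t : ℝ, Ak k (wk t) * riemannZeta (wk t) ^ k * Ke δ n R (zk k t) =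
      (∫ t : ℝ, Mk k (wk t) * riemannZeta (wk t) ^ k * Ke δ n R (zk k t)) +
      ∫ t : ℝ, (Ak k (wk t) - Mk k (wk t)) * riemannZeta (wk t) ^ k * Ke δ n R (zk k t) := by
    rw [← integral_add iM iE]
    apply integral_congr_ae
    refine Eventually.of_forall fun t => ?_
    beta_reduce
    ring
  have z0 : ((0:ℝ):ℂ) = 0 := by simp
  have z1 : ((1:ℝ):ℂ) = 1 := by simp
  have hrect := rect_split (f := Gk k δ n R) (a := -(1/2)) (b := 1/8) (c := 2) (by norm_num) (by norm_num)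
    (Gk_contOn k hδ n hR0 (γ := fun x : ℝ => (x : ℂ) + ((-1:ℝ):ℂ) * Complex.I) (by fun_prop)
      (fun x _ => by have := edge_ne (x := x) (c := -1) (by norm_num) 0; rwa [z0] at this)
      (fun x _ => by have := edge_ne (x := x) (c := -1) (by norm_num) 1; rwa [z1] at this))
    (Gk_contOn k hδ n hR0 (γ := fun x : ℝ => (x : ℂ) + ((1:ℝ):ℂ) * Complex.I) (by fun_prop)
      (fun x _ => by have := edge_ne (x := x) (c := 1) (by norm_num) 0; rwa [z0] at this)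
      (fun x _ => by
        intro h
        have := congrArg Complex.im h
        simp at this))
  have hmain := rect_main hP hδ n hR0
  have hEr := hR' R δ hR hδ hδ2
  -- the mean of the normalised error term
  have hF : ∫ x, Fk k P (R + x) ∂(mu δ n) = (∫ x, Dk k ((R + x) ^ k) * (R + x) ^ (-hk k) ∂(mu δ n)) -
      ∫ x, (R + x) ^ k * P.eval (Real.log ((R + x) ^ k)) * (R + x) ^ (-hk k) ∂(mu δ n) := by
    rw [← integral_sub (D_int hk1 hδ n hR) (main_int hk1 P hδ n hR)]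
    apply integral_congr_ae
    refine Eventually.of_forall fun x => ?_
    beta_reduce
    unfold Fk
    ring
  set I1 := ∫ x, Dk k ((R + x) ^ k) * (R + x) ^ (-hk k) ∂(mu δ n)
  set I2 := ∫ x, (R + x) ^ k * P.eval (Real.log ((R + x) ^ k)) * (R + x) ^ (-hk k) ∂(mu δ n)
  set E := ∫ t : ℝ, (Ak k (wk t) - Mk k (wk t)) * riemannZeta (wk t) ^ k * Ke δ n R (zk k t) with hEdef
  set Rs := Rect (Gk k δ n R) (-(1/2)) (1/8) with hRs
  set S := ∑' m : ℕ, tk k δ n R m with hS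
  have hMs : ∫ t : ℝ, Mk k (wk t) * riemannZeta (wk t) ^ k * Ke δ n R (zk k t) = 2 * Real.pi * (S : ℂ) := by
    rw [← hM.tsum_eq, tsum_mul_left, hS, Complex.ofReal_tsum]
  have hpc : (Real.pi : ℂ) ≠ 0 := by exact_mod_cast Real.pi_ne_zero
  have hfin : ((I1 - I2 - S : ℝ) : ℂ) = (1 / (2 * Real.pi) : ℂ) * (E - Complex.I * Rs) := by
    have e1 : (I1 : ℂ) = (1 / (2 * Real.pi) : ℂ) * (2 * Real.pi * (S : ℂ) + E - Complex.I * (Rs + 2 * Real.pi * Complex.I * (I2 : ℂ))) := by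
      rw [hperron, hshift, hleft, hsplit, hMs, hrect, hmain]
    push_cast
    rw [e1]
    have hI : Complex.I * Complex.I = -1 := Complex.I_mul_I
    field_simp
    linear_combination (-2 * (Real.pi : ℂ) * (I2 : ℂ)) * hI
  rw [hF]
  have h7 : |I1 - I2 - S| = ‖((I1 - I2 - S : ℝ) : ℂ)‖ := by
    rw [Complex.norm_real, Real.norm_eq_abs]
  rw [h7, hfin, norm_mul]
  have e4 : ‖(1 / (2 * Real.pi) : ℂ)‖ ≤ 1 := by
    have : (1 / (2 * Real.pi) : ℂ) = ((1 / (2 * Real.pi) : ℝ) : ℂ) := by push_cast; ring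
    rw [this, Complex.norm_real, Real.norm_of_nonneg (by positivity), div_le_one (by positivity)]
    linarith
  have e5 : ‖E - Complex.I * Rs‖ ≤ ‖E‖ + ‖Rs‖ := by
    refine (norm_sub_le _ _).trans ?_
    rw [norm_mul, Complex.norm_I, one_mul]
  have e6 : 1 ≤ δ ^ (-(k:ℝ)) := Real.one_le_rpow_of_pos_of_le_one_of_nonpos hδ (by linarith)
    (by have : (0:ℝ) ≤ k := Nat.cast_nonneg k; linarith)
  have e7 : 0 < R ^ (-(1/4) : ℝ) := Real.rpow_pos_of_pos hR0 _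
  calc ‖(1 / (2 * Real.pi) : ℂ)‖ * ‖E - Complex.I * Rs‖ ≤ 1 * (‖E‖ + ‖Rs‖) := by gcongr
    _ ≤ CE * (R ^ (-(1/4) : ℝ) * δ ^ (-(k:ℝ))) + CR * R ^ (-(1/4) : ℝ) := by rw [one_mul]; linarith
    _ ≤ CE * (R ^ (-(1/4) : ℝ) * δ ^ (-(k:ℝ))) + CR * (R ^ (-(1/4) : ℝ) * δ ^ (-(k:ℝ))) := by
      have : R ^ (-(1/4) : ℝ) ≤ R ^ (-(1/4) : ℝ) * δ ^ (-(k:ℝ)) := by nlinarith
      gcongr
    _ = _ := by ring

lemma Fk_int {k : ℕ} (hk1 : 1 ≤ k) (P : Polynomial ℝ) {δ : ℝ} (hδ : 0 < δ) (n : ℕ) {R : ℝ} (hR : 1 ≤ R) :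
    Integrable (fun x : ℝ => Fk k P (R + x)) (mu δ n) := by
  have hnδ : 0 ≤ n * δ := by positivity
  obtain ⟨B, hB⟩ := Fk_bdd hk1 P (R + n * δ)
  apply int_of_bdd hδ n (B := B) ((Fk_meas k P).comp (by fun_prop)).aestronglyMeasurable
  intro x hx
  rw [Real.norm_eq_abs]
  exact hB _ (by linarith [hx.1]) (by linarith [hx.2])

/-- TASK T8 (the smoothed Voronoi formula) -/
theorem voronoi_k (k : ℕ) (hk2 : 2 ≤ k) : ∃ P : Polynomial ℝ, P.natDegree < k ∧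
    P.coeff (k-1) = 1 / ((k-1).factorial : ℝ) ∧ ∃ C : ℝ, 0 < C ∧
    ∀ (n : ℕ) (R δ : ℝ), 2 * k + 2 ≤ n → 1 ≤ R → 0 < δ → δ ≤ 1/2 →
      |(∫ x, Fk k P (R + x) ∂(mu δ n)) - ∑' m : ℕ, tk k δ n R m| ≤ C * (R ^ (-(1/4) : ℝ) * δ ^ (-(k:ℝ))) := by
  have hk1 : 1 ≤ k := by omega
  obtain ⟨P, hP1, hP2, hP⟩ := Pool.Agent.H814R2.PZT5.main_term k hk1
  obtain ⟨C, hC, hbase⟩ := voronoi_base hk2 le_rfl hP
  refine ⟨P, hP1, hP2, C, hC, ?_⟩
  intro n R δ hn
  induction n, hn using Nat.le_induction generalizing R with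
  | base => exact hbase R δ
  | succ n hn ih =>
    intro hR hδ hδ2
    have := mu_prob hδ n
    have hint := Fk_int hk1 P hδ (n+1) hR
    rw [integral_succ hδ n hint, ← tsum_avg hk2 hδ (by omega) R, smul_eq_mul]
    -- interval integrability of the inner mean
    obtain ⟨B, hB⟩ := Fk_bdd hk1 P (R + (n + 1) * δ)
    have hnδ : 0 ≤ n * δ := by positivity
    have hi1 : IntervalIntegrable (fun u => ∫ x, Fk k P (R + (u + x)) ∂(mu δ n)) volume 0 δ := by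
      rw [intervalIntegrable_iff, uIoc_of_le hδ.le]
      apply Integrable.mono' (g := fun _ => B) (integrable_const _)
      · have hm : StronglyMeasurable (fun p : ℝ × ℝ => Fk k P (R + (p.1 + p.2))) :=
          ((Fk_meas k P).comp (by fun_prop)).stronglyMeasurable
        exact (hm.integral_prod_right (ν := mu δ n)).aestronglyMeasurable
      · rw [ae_restrict_iff' measurableSet_Ioc]
        refine Eventually.of_forall fun u hu => ?_
        apply norm_integral_mu_le hδ n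
        intro x hx
        rw [Real.norm_eq_abs]
        exact hB _ (by linarith [hx.1, hu.1]) (by nlinarith [hx.2, hu.2])
    have hi2 : IntervalIntegrable (fun u => ∑' m : ℕ, tk k δ n (R + u) m) volume 0 δ :=
      ((tsum_cont hk2 hδ (by omega)).comp (by fun_prop : Continuous (fun u => R + u))).intervalIntegrable _ _
    rw [← mul_sub, ← intervalIntegral.integral_sub hi1 hi2]
    rw [abs_mul, abs_of_pos (by positivity : 0 < 1/δ)]
    have h1 : ‖∫ u in (0:ℝ)..δ, ((∫ x, Fk k P (R + (u + x)) ∂(mu δ n)) - ∑' m : ℕ, tk k δ n (R + u) m)‖ ≤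
        (C * (R ^ (-(1/4) : ℝ) * δ ^ (-(k:ℝ)))) * |δ - 0| := by
      apply intervalIntegral.norm_integral_le_of_norm_le_const
      intro u hu
      rw [uIoc_of_le hδ.le, mem_Ioc] at hu
      rw [Real.norm_eq_abs]
      have h3 := ih (R + u) (by linarith [hu.1]) hδ hδ2
      simp_rw [add_assoc] at h3
      refine h3.trans ?_
      have h2 : (R + u) ^ (-(1/4) : ℝ) ≤ R ^ (-(1/4) : ℝ) :=
        Real.rpow_le_rpow_of_nonpos (by linarith) (by linarith [hu.1]) (by norm_num)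
      gcongr
    rw [Real.norm_eq_abs, sub_zero, abs_of_pos hδ] at h1
    calc _ ≤ (1/δ) * ((C * (R ^ (-(1/4) : ℝ) * δ ^ (-(k:ℝ)))) * δ) := by gcongr
      _ = _ := by field_simp

end Pool.Agent.H383.PZ
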