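import Mathlib
import Pool.Agent.H383.PZ.L
import Pool.Agent.H383.OM.D

open MeasureTheory Filter Topology
open Pool.Agent.H383.OM (one_add_log_pos)

namespace Pool.Agent.H383.PZ

/-- the sum of `d_k` up to `N` -/
lemma Dk_sum_le (k : ℕ) : ∀ N : ℕ, 1 ≤ N → ∑ m ∈ Finset.Ioc 0 N, dk (k+1) m ≤ N * (1 + Real.log N) ^ k := by
  induction k with
  | zero =>
    intro N hN
    have h := ArithmeticFunction.sum_Ioc_zeta N
    have h2 : ∑ m ∈ Finset.Ioc 0 N, dk (0+1) m = ((∑ m ∈ Finset.Ioc 0 N, ArithmeticFunction.zeta m : ℕ) : ℝ) := by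
      unfold dk
      rw [zero_add, pow_one]
      push_cast
      rfl
    rw [h2, h]
    simp
  | succ k ih =>
    intro N hN
    have hN0 : (0:ℝ) < N := by exact_mod_cast hN
    have h := ArithmeticFunction.sum_Ioc_mul_eq_sum_sum (R := ℕ) ArithmeticFunction.zeta (ArithmeticFunction.zeta ^ (k+1)) N
    have h2 : ∑ m ∈ Finset.Ioc 0 N, dk (k+1+1) m =
        ((∑ m ∈ Finset.Ioc 0 N, (ArithmeticFunction.zeta * ArithmeticFunction.zeta ^ (k+1) : ArithmeticFunction ℕ) m : ℕ) : ℝ) := by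
      unfold dk
      rw [pow_succ' _ (k+1)]
      push_cast
      rfl
    rw [h2, h]
    push_cast
    have h3 : ∀ n ∈ Finset.Ioc 0 N, ((ArithmeticFunction.zeta n : ℕ) : ℝ) * ∑ m ∈ Finset.Ioc 0 (N / n), (((ArithmeticFunction.zeta ^ (k+1) : ArithmeticFunction ℕ) m : ℕ) : ℝ) ≤
        (N:ℝ) * (1/n) * (1 + Real.log N) ^ k := by
      intro n hn
      rw [Finset.mem_Ioc] at hn
      rw [ArithmeticFunction.zeta_apply_ne (by omega), Nat.cast_one, one_mul]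
      have hdiv : 1 ≤ N / n := Nat.div_pos hn.2 hn.1
      have hdiv0 : (0:ℝ) < ((N / n : ℕ) : ℝ) := by exact_mod_cast hdiv
      refine (ih (N / n) hdiv).trans ?_
      have hl : Real.log ((N / n : ℕ) : ℝ) ≤ Real.log N := by
        apply Real.log_le_log hdiv0
        exact_mod_cast Nat.div_le_self N n
      have hl0 : 0 ≤ Real.log ((N / n : ℕ) : ℝ) := Real.log_nonneg (by exact_mod_cast hdiv)
      have hc : ((N / n : ℕ) : ℝ) ≤ N * (1/n) := by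
        refine Nat.cast_div_le.trans ?_
        rw [mul_one_div]
      gcongr
    refine (Finset.sum_le_sum h3).trans ?_
    rw [← Finset.sum_mul, ← Finset.mul_sum]
    have h4 := harmonic_le_one_add_log N
    have h5 : ∑ n ∈ Finset.Ioc 0 N, (1:ℝ)/n ≤ 1 + Real.log N := by
      have : ((harmonic N : ℚ) : ℝ) = ∑ n ∈ Finset.Ioc 0 N, (1:ℝ)/n := by
        rw [Pool.Agent.H383.Div.harm_real]
        rfl
      rw [← this]; exact h4
    have hL := one_add_log_pos hN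
    calc (N:ℝ) * (∑ n ∈ Finset.Ioc 0 N, (1:ℝ)/n) * (1 + Real.log N) ^ k ≤ N * (1 + Real.log N) * (1 + Real.log N) ^ k := by
          gcongr
      _ = _ := by ring


lemma sum_Icc_Ioc (f : ℕ → ℝ) (N : ℕ) : ∑ m ∈ Finset.Icc 1 N, f m = ∑ m ∈ Finset.Ioc 0 N, f m := by
  apply Finset.sum_congr _ (fun _ _ => rfl)
  ext x; simp only [Finset.mem_Icc, Finset.mem_Ioc]; omega

/-- comparison by partial summation -/
lemma abel_mono {d f : ℕ → ℝ} {A : ℝ} (hf : ∀ m, 1 ≤ m → f (m+1) ≤ f m) (hf0 : ∀ m, 1 ≤ m → 0 ≤ f m) :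
    ∀ N : ℕ, 1 ≤ N → (∀ M, 1 ≤ M → M ≤ N → ∑ m ∈ Finset.Ioc 0 M, d m ≤ A * M) →
    ∑ m ∈ Finset.Ioc 0 N, (d m - A) * f m ≤ (∑ m ∈ Finset.Ioc 0 N, (d m - A)) * f N := by
  intro N hN
  induction N, hN using Nat.le_induction with
  | base => intro _; simp
  | succ N hN ih =>
    intro h
    rw [Finset.sum_Ioc_succ_top (by omega), Finset.sum_Ioc_succ_top (by omega)]
    have h1 := ih (fun M hM hMN => h M hM (by omega))
    have h2 := h N hN (by omega)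
    have h3 : ∑ m ∈ Finset.Ioc 0 N, (d m - A) ≤ 0 := by
      rw [Finset.sum_sub_distrib]
      simp only [Finset.sum_const, Nat.card_Ioc, nsmul_eq_mul]
      simp only [Nat.sub_zero]
      linarith
    have h4 := hf N hN
    nlinarith

lemma abel_mono' {d f : ℕ → ℝ} {A : ℝ} (hf : ∀ m, 1 ≤ m → f (m+1) ≤ f m) (hf0 : ∀ m, 1 ≤ m → 0 ≤ f m)
    (N : ℕ) (hN : 1 ≤ N) (h : ∀ M, 1 ≤ M → M ≤ N → ∑ m ∈ Finset.Ioc 0 M, d m ≤ A * M) :
    ∑ m ∈ Finset.Ioc 0 N, d m * f m ≤ A * ∑ m ∈ Finset.Ioc 0 N, f m := by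
  have h1 := abel_mono hf hf0 N hN h
  have h3 : ∑ m ∈ Finset.Ioc 0 N, (d m - A) ≤ 0 := by
    rw [Finset.sum_sub_distrib]
    simp only [Finset.sum_const, Nat.card_Ioc, nsmul_eq_mul]
    simp only [Nat.sub_zero]
    have := h N hN le_rfl
    linarith
  have h5 : (∑ m ∈ Finset.Ioc 0 N, (d m - A)) * f N ≤ 0 := mul_nonpos_of_nonpos_of_nonneg h3 (hf0 N hN)
  have h6 : ∑ m ∈ Finset.Ioc 0 N, (d m - A) * f m = ∑ m ∈ Finset.Ioc 0 N, d m * f m - A * ∑ m ∈ Finset.Ioc 0 N, f m := by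
    rw [Finset.mul_sum, ← Finset.sum_sub_distrib]
    apply Finset.sum_congr rfl; intro m _; ring
  linarith

lemma bern_neg {x p : ℝ} (hx : -1 < x) (hp : p ≤ 0) : 1 + p * x ≤ (1 + x) ^ p := by
  have h0 : 0 < 1 + x := by linarith
  rw [Real.rpow_def_of_pos h0]
  have h1 := Real.add_one_le_exp (Real.log (1 + x) * p)
  have h2 := Real.log_le_sub_one_of_pos h0
  nlinarith

lemma sum_rpow_head {a : ℝ} (ha0 : 0 ≤ a) (ha1 : a < 1) (N : ℕ) :
    ∑ m ∈ Finset.Ioc 0 N, (m:ℝ) ^ (-a) ≤ (1/(1-a)) * (N:ℝ) ^ (1-a) := by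
  have h1a : 0 < 1 - a := by linarith
  induction N with
  | zero => simp; rw [Real.zero_rpow h1a.ne']; simp
  | succ N ih =>
    rw [Finset.sum_Ioc_succ_top (by omega)]
    have hM0 : (0:ℝ) < ((N+1 : ℕ):ℝ) := by positivity
    set M : ℝ := ((N+1 : ℕ):ℝ) with hM
    have hN : (N:ℝ) = M * (1 + (-(1/M))) := by rw [hM]; push_cast; field_simp; ring
    have hM1 : 1/M ≤ 1 := by
      rw [div_le_one hM0, hM]; push_cast; linarith [Nat.cast_nonneg (α := ℝ) N]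
    have h1 : (N:ℝ) ^ (1-a) ≤ M ^ (1-a) * (1 - (1-a) * (1/M)) := by
      rw [hN, Real.mul_rpow hM0.le (by linarith)]
      apply mul_le_mul_of_nonneg_left _ (by positivity)
      have := _root_.rpow_one_add_le_one_add_mul_self (s := -(1/M)) (by linarith) h1a.le (by linarith)
      linarith
    have h2 : M ^ (1-a) * (1/M) = M ^ (-a) := by
      rw [one_div, ← Real.rpow_neg_one M, ← Real.rpow_add hM0]; congr 1; ring
    have h3 : (1/(1-a)) * (N:ℝ) ^ (1-a) ≤ (1/(1-a)) * (M ^ (1-a) * (1 - (1-a) * (1/M))) := by gcongr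
    have h4 : (1/(1-a)) * (M ^ (1-a) * (1 - (1-a) * (1/M))) = (1/(1-a)) * M ^ (1-a) - M ^ (-a) := by
      rw [← h2]; field_simp
    linarith

/-- TASK W1a: head sums of the divisor function -/
theorem dk_head (k : ℕ) (hk : 1 ≤ k) (a : ℝ) (ha0 : 0 ≤ a) (ha1 : a < 1) : ∃ C : ℝ, 0 < C ∧ ∀ N : ℕ, 1 ≤ N →
    ∑ m ∈ Finset.Icc 1 N, dk k m * (m:ℝ) ^ (-a) ≤ C * (N:ℝ) ^ (1 - a) * (1 + Real.log N) ^ (k-1) := by
  obtain ⟨k, rfl⟩ : ∃ j, k = j + 1 := ⟨k - 1, by omega⟩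
  have h1a : 0 < 1 - a := by linarith
  refine ⟨1/(1-a), by positivity, fun N hN => ?_⟩
  rw [sum_Icc_Ioc, Nat.add_sub_cancel]
  have hL := one_add_log_pos hN
  have h1 := abel_mono' (d := dk (k+1)) (f := fun m => (m:ℝ) ^ (-a)) (A := (1 + Real.log N) ^ k)
    (fun m hm => by
      apply Real.rpow_le_rpow_of_nonpos (by exact_mod_cast hm) (by push_cast; linarith) (by linarith))
    (fun m hm => by positivity) N hN
    (fun M hM hMN => by
      refine (Dk_sum_le k M hM).trans ?_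
      have hM0 : (0:ℝ) < M := by exact_mod_cast hM
      have : Real.log M ≤ Real.log N := Real.log_le_log hM0 (by exact_mod_cast hMN)
      have h0 : 0 ≤ Real.log M := Real.log_nonneg (by exact_mod_cast hM)
      rw [mul_comm]
      gcongr)
  refine h1.trans ?_
  have h2 := sum_rpow_head ha0 ha1 N
  calc (1 + Real.log N) ^ k * ∑ m ∈ Finset.Ioc 0 N, (m:ℝ) ^ (-a) ≤
      (1 + Real.log N) ^ k * ((1/(1-a)) * (N:ℝ) ^ (1-a)) := by gcongr
    _ = _ := by ring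

lemma log_pow_le (k : ℕ) {ε : ℝ} (hε : 0 < ε) : ∃ C : ℝ, 0 < C ∧ ∀ x : ℝ, 1 ≤ x → (1 + Real.log x) ^ k ≤ C * x ^ ε := by
  rcases Nat.eq_zero_or_pos k with h0 | h0
  · subst h0
    exact ⟨1, one_pos, fun x hx => by simpa using Real.one_le_rpow hx hε.le⟩
  have hk : (0:ℝ) < k := by exact_mod_cast h0
  refine ⟨(1 + k/ε) ^ k, by positivity, fun x hx => ?_⟩
  have hx0 : 0 < x := by linarith
  have h1 : Real.log x ≤ x ^ (ε/k) / (ε/k) := Real.log_le_rpow_div hx0.le (by positivity)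
  have h2 : 1 ≤ x ^ (ε/k) := Real.one_le_rpow hx (by positivity)
  have h3 : 0 ≤ Real.log x := Real.log_nonneg hx
  have h4 : 1 + Real.log x ≤ (1 + k/ε) * x ^ (ε/k) := by
    have : x ^ (ε/k) / (ε/k) = (k/ε) * x ^ (ε/k) := by field_simp
    rw [this] at h1
    linarith
  calc (1 + Real.log x) ^ k ≤ ((1 + k/ε) * x ^ (ε/k)) ^ k := pow_le_pow_left₀ (by linarith) h4 k
    _ = (1 + k/ε) ^ k * x ^ ε := by
      rw [mul_pow, ← Real.rpow_natCast (x ^ (ε/k)), ← Real.rpow_mul hx0.le]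
      congr 2; field_simp

lemma sum_rpow_tail {s : ℝ} (hs : 1 < s) {N : ℕ} (hN : 1 ≤ N) (M : ℕ) (hM : N ≤ M) :
    ∑ j ∈ Finset.Ico N M, (j:ℝ) ^ (-s) ≤ (1 + 1/(s-1)) * (N:ℝ) ^ (1-s) := by
  have hN0 : (0:ℝ) < N := by exact_mod_cast hN
  have hN1 : (1:ℝ) ≤ N := by exact_mod_cast hN
  have hs1 : 0 < s - 1 := by linarith
  rcases Nat.eq_or_lt_of_le hM with h0 | h0
  · subst h0; simp; positivity
  have key : ∀ M : ℕ, N + 1 ≤ M → ∑ j ∈ Finset.Ico N M, (j:ℝ) ^ (-s) ≤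
      (N:ℝ) ^ (-s) + (1/(s-1)) * ((N:ℝ) ^ (1-s) - ((M-1 : ℕ):ℝ) ^ (1-s)) := by
    intro M hM
    induction M, hM using Nat.le_induction with
    | base => simp
    | succ M hM ih =>
      rw [Finset.sum_Ico_succ_top (by omega)]
      have hM0 : (0:ℝ) < M := by exact_mod_cast (by omega : 0 < M)
      have hM2 : (2:ℝ) ≤ M := by exact_mod_cast (by omega : 2 ≤ M)
      have e1 : ((M - 1 : ℕ):ℝ) = M * (1 + (-(1/M))) := by
        rw [Nat.cast_sub (by omega)]; field_simp; push_cast; ring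
      have hM1 : 1/(M:ℝ) ≤ 1/2 := one_div_le_one_div_of_le (by norm_num) hM2
      have h1 : (M:ℝ) ^ (1-s) * (1 + (1-s) * (-(1/M))) ≤ ((M - 1 : ℕ):ℝ) ^ (1-s) := by
        rw [e1, Real.mul_rpow hM0.le (by linarith)]
        apply mul_le_mul_of_nonneg_left _ (by positivity)
        exact bern_neg (by linarith) (by linarith)
      have h2 : (M:ℝ) ^ (1-s) * (1/M) = (M:ℝ) ^ (-s) := by
        rw [one_div, ← Real.rpow_neg_one (M:ℝ), ← Real.rpow_add hM0]; congr 1; ring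
      have h3 : (1/(s-1)) * ((M:ℝ) ^ (1-s) * (1 + (1-s) * (-(1/M)))) = (1/(s-1)) * (M:ℝ) ^ (1-s) + (M:ℝ) ^ (-s) := by
        rw [← h2]; field_simp; ring
      have h4 : (1/(s-1)) * ((M:ℝ) ^ (1-s) * (1 + (1-s) * (-(1/M)))) ≤ (1/(s-1)) * ((M - 1 : ℕ):ℝ) ^ (1-s) := by gcongr
      simp only [Nat.add_sub_cancel]
      rw [mul_sub] at ih ⊢
      linarith
  refine (key M (by omega)).trans ?_
  have h5 : (N:ℝ) ^ (-s) ≤ (N:ℝ) ^ (1-s) := Real.rpow_le_rpow_of_exponent_le hN1 (by linarith)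
  have h6 : 0 ≤ ((M-1 : ℕ):ℝ) ^ (1-s) := by positivity
  have h7 : 0 ≤ (1/(s-1)) * ((M-1 : ℕ):ℝ) ^ (1-s) := by positivity
  rw [mul_sub, add_mul, one_mul]
  linarith

/-- TASK W1b: tail sums of the divisor function -/
theorem dk_tail (k : ℕ) (hk : 1 ≤ k) (b : ℝ) (hb : 1 < b) : ∃ C : ℝ, 0 < C ∧ ∀ N : ℕ, 1 ≤ N →
    Summable (fun m : ℕ => if N < m then dk k m * (m:ℝ) ^ (-b) else 0) ∧
    ∑' m : ℕ, (if N < m then dk k m * (m:ℝ) ^ (-b) else 0) ≤ C * (N:ℝ) ^ (1 - b) * (1 + Real.log N) ^ (k-1) := by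
  obtain ⟨k, rfl⟩ : ∃ j, k = j + 1 := ⟨k - 1, by omega⟩
  set ε : ℝ := (b - 1)/2 with hε
  have hε0 : 0 < ε := by rw [hε]; linarith
  obtain ⟨C0, hC0, hC⟩ := log_pow_le k hε0
  refine ⟨C0 * (1 + b * (1 + 1/ε)), by positivity, fun N hN => ?_⟩
  have hN0 : (0:ℝ) < N := by exact_mod_cast hN
  have hL := one_add_log_pos hN
  rw [Nat.add_sub_cancel]
  -- partial sums
  set S : ℕ → ℝ := fun M => ∑ m ∈ Finset.Ioc 0 M, dk (k+1) m with hS
  have hS0 : ∀ M, 0 ≤ S M := fun M => Finset.sum_nonneg (fun m _ => dk_nonneg _ m)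
  have hSM : ∀ M : ℕ, N ≤ M → S M ≤ C0 * (1 + Real.log N) ^ k * (N:ℝ) ^ (-ε) * (M:ℝ) ^ (1 + ε) := by
    intro M hM
    have hM1 : 1 ≤ M := by omega
    have hM0 : (0:ℝ) < M := by exact_mod_cast hM1
    have hr : 1 ≤ (M:ℝ)/N := by
      rw [le_div_iff₀ hN0, one_mul]; exact_mod_cast hM
    have h1 : Real.log M = Real.log N + Real.log ((M:ℝ)/N) := by
      rw [Real.log_div hM0.ne' hN0.ne']; ring
    have h2 : 0 ≤ Real.log ((M:ℝ)/N) := Real.log_nonneg hr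
    have h3 : 1 + Real.log M ≤ (1 + Real.log N) * (1 + Real.log ((M:ℝ)/N)) := by
      rw [h1]; nlinarith
    have h3' : 0 ≤ 1 + Real.log M := by linarith
    have h4 := hC _ hr
    have h5 : ((M:ℝ)/N) ^ ε = (N:ℝ) ^ (-ε) * (M:ℝ) ^ ε := by
      rw [Real.div_rpow hM0.le hN0.le, Real.rpow_neg hN0.le]; field_simp
    have h6 : (M:ℝ) ^ (1 + ε) = M * (M:ℝ) ^ ε := by rw [Real.rpow_add hM0, Real.rpow_one]
    refine (Dk_sum_le k M hM1).trans ?_
    calc (M:ℝ) * (1 + Real.log M) ^ k ≤ M * ((1 + Real.log N) * (1 + Real.log ((M:ℝ)/N))) ^ k := by gcongr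
      _ = M * ((1 + Real.log N) ^ k * (1 + Real.log ((M:ℝ)/N)) ^ k) := by rw [mul_pow]
      _ ≤ M * ((1 + Real.log N) ^ k * (C0 * ((M:ℝ)/N) ^ ε)) := by gcongr
      _ = _ := by rw [h5, h6]; ring
  set K : ℝ := b * (C0 * (1 + Real.log N) ^ k * (N:ℝ) ^ (-ε)) with hK
  have hK0 : 0 ≤ K := by rw [hK]; positivity
  have key : ∀ M : ℕ, N ≤ M → ∑ m ∈ Finset.Ioc N M, dk (k+1) m * (m:ℝ) ^ (-b) ≤
      S M * (M:ℝ) ^ (-b) + K * ∑ j ∈ Finset.Ico N M, (j:ℝ) ^ (-(b-ε)) := by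
    intro M hM
    induction M, hM using Nat.le_induction with
    | base =>
      simp only [Finset.Ioc_self, Finset.sum_empty, Finset.Ico_self, mul_zero, add_zero]
      have := hS0 N
      positivity
    | succ M hM ih =>
      rw [Finset.sum_Ioc_succ_top (by omega), Finset.sum_Ico_succ_top hM]
      have hM1 : 1 ≤ M := by omega
      have hM0 : (0:ℝ) < M := by exact_mod_cast hM1
      have e1 : S (M+1) = S M + dk (k+1) (M+1) := by
        rw [hS]; simp only; rw [Finset.sum_Ioc_succ_top (by omega)]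
      have e2 : ((M+1 : ℕ):ℝ) = M * (1 + 1/M) := by push_cast; field_simp
      have h1 : (M:ℝ) ^ (-b) * (1 + (-b) * (1/M)) ≤ ((M+1 : ℕ):ℝ) ^ (-b) := by
        rw [e2, Real.mul_rpow hM0.le (by positivity)]
        apply mul_le_mul_of_nonneg_left _ (by positivity)
        exact bern_neg (by have : 0 < 1/(M:ℝ) := by positivity
                           linarith) (by linarith)
      have h2 : (M:ℝ) ^ (-b) * (1/M) * (M:ℝ) ^ (1+ε) = (M:ℝ) ^ (-(b-ε)) := by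
        rw [one_div, ← Real.rpow_neg_one (M:ℝ), ← Real.rpow_add hM0, ← Real.rpow_add hM0]; congr 1; ring
      have h3 : S M * (b * ((M:ℝ) ^ (-b) * (1/M))) ≤ K * (M:ℝ) ^ (-(b-ε)) := by
        calc S M * (b * ((M:ℝ) ^ (-b) * (1/M))) ≤
            (C0 * (1 + Real.log N) ^ k * (N:ℝ) ^ (-ε) * (M:ℝ) ^ (1 + ε)) * (b * ((M:ℝ) ^ (-b) * (1/M))) := by
              apply mul_le_mul_of_nonneg_right (hSM M hM) (by positivity)
          _ = K * ((M:ℝ) ^ (-b) * (1/M) * (M:ℝ) ^ (1+ε)) := by rw [hK]; ring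
          _ = _ := by rw [h2]
      have h4 : S M * (M:ℝ) ^ (-b) - S M * (b * ((M:ℝ) ^ (-b) * (1/M))) ≤ S M * ((M+1 : ℕ):ℝ) ^ (-b) := by
        have := mul_le_mul_of_nonneg_left h1 (hS0 M)
        calc _ = S M * ((M:ℝ) ^ (-b) * (1 + (-b) * (1/M))) := by ring
          _ ≤ _ := this
      rw [e1, add_mul, mul_add]
      linarith
  have htot : ∀ M : ℕ, N ≤ M → ∑ m ∈ Finset.Ioc N M, dk (k+1) m * (m:ℝ) ^ (-b) ≤
      C0 * (1 + b * (1 + 1/ε)) * (N:ℝ) ^ (1 - b) * (1 + Real.log N) ^ k := by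
    intro M hM
    have hM1 : 1 ≤ M := by omega
    have hM0 : (0:ℝ) < M := by exact_mod_cast hM1
    have hNM : (N:ℝ) ≤ M := by exact_mod_cast hM
    refine (key M hM).trans ?_
    have h1 : S M * (M:ℝ) ^ (-b) ≤ C0 * (1 + Real.log N) ^ k * (N:ℝ) ^ (1 - b) := by
      calc S M * (M:ℝ) ^ (-b) ≤ (C0 * (1 + Real.log N) ^ k * (N:ℝ) ^ (-ε) * (M:ℝ) ^ (1 + ε)) * (M:ℝ) ^ (-b) := by
            apply mul_le_mul_of_nonneg_right (hSM M hM) (by positivity)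
        _ = C0 * (1 + Real.log N) ^ k * (N:ℝ) ^ (-ε) * ((M:ℝ) ^ (1 + ε) * (M:ℝ) ^ (-b)) := by ring
        _ = C0 * (1 + Real.log N) ^ k * (N:ℝ) ^ (-ε) * (M:ℝ) ^ (-ε) := by
            rw [← Real.rpow_add hM0]; congr 2; rw [hε]; ring
        _ ≤ C0 * (1 + Real.log N) ^ k * (N:ℝ) ^ (-ε) * (N:ℝ) ^ (-ε) := by
            have : (M:ℝ) ^ (-ε) ≤ (N:ℝ) ^ (-ε) := Real.rpow_le_rpow_of_nonpos hN0 hNM (by linarith)
            gcongr
        _ = _ := by
            rw [mul_assoc, ← Real.rpow_add hN0]; congr 2; rw [hε]; ring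
    have h2 := sum_rpow_tail (s := b - ε) (by rw [hε]; linarith) hN M hM
    have h3 : K * ∑ j ∈ Finset.Ico N M, (j:ℝ) ^ (-(b-ε)) ≤
        b * (1 + 1/ε) * (C0 * (1 + Real.log N) ^ k * (N:ℝ) ^ (1-b)) := by
      calc K * ∑ j ∈ Finset.Ico N M, (j:ℝ) ^ (-(b-ε)) ≤ K * ((1 + 1/(b - ε - 1)) * (N:ℝ) ^ (1-(b-ε))) := by gcongr
        _ = b * (1 + 1/ε) * (C0 * (1 + Real.log N) ^ k * ((N:ℝ) ^ (-ε) * (N:ℝ) ^ (1-(b-ε)))) := by
            rw [hK, show b - ε - 1 = ε by rw [hε]; ring]; ring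
        _ = _ := by
            rw [← Real.rpow_add hN0]; congr 3; ring
    calc _ ≤ C0 * (1 + Real.log N) ^ k * (N:ℝ) ^ (1 - b) + b * (1 + 1/ε) * (C0 * (1 + Real.log N) ^ k * (N:ℝ) ^ (1-b)) :=
          add_le_add h1 h3
      _ = _ := by ring
  have hnn : ∀ m : ℕ, 0 ≤ (if N < m then dk (k+1) m * (m:ℝ) ^ (-b) else 0) := by
    intro m
    split_ifs
    · have := dk_nonneg (k+1) m; positivity
    · exact le_rfl
  have hrange : ∀ M : ℕ, ∑ m ∈ Finset.range M, (if N < m then dk (k+1) m * (m:ℝ) ^ (-b) else 0) ≤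
      C0 * (1 + b * (1 + 1/ε)) * (N:ℝ) ^ (1 - b) * (1 + Real.log N) ^ k := by
    intro M
    rw [← Finset.sum_filter]
    refine le_trans ?_ (htot (max N M) (le_max_left _ _))
    apply Finset.sum_le_sum_of_subset_of_nonneg
    · intro x hx
      simp only [Finset.mem_filter, Finset.mem_range, Finset.mem_Ioc, le_max_iff] at hx ⊢
      omega
    · intro m _ _; have := dk_nonneg (k+1) m; positivity
  exact ⟨summable_of_sum_range_le hnn hrange, Real.tsum_le_of_sum_range_le hnn hrange⟩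

end Pool.Agent.H383.PZ
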