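import Mathlib
import Pool.Agent.H383.OM.B
import Pool.Agent.H383.OM.D
import Pool.Agent.H383.PZ.V1
import Pool.Agent.H383.PZ.Defs3

open MeasureTheory Filter Topology
open Pool.Agent.H387R2.Vor

namespace Pool.Agent.H383.PZ

/-- near periods of `3 m^(1/3)` -/
theorem near_period3 (N q : ℕ) (hq : 1 ≤ q) {T : ℝ} (hT : 0 < T) :
    ∃ τ : ℝ, T ≤ τ ∧ τ ≤ (q : ℝ) ^ N * T ∧
      ∀ m : ℕ, 1 ≤ m → m ≤ N → ∃ k : ℤ, |3 * (m:ℝ) ^ (1/3:ℝ) * τ - k| ≤ 1 / q := by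
  obtain ⟨j, hj1, hj2, hj⟩ := Pool.Agent.H383.OM.dirichlet_simul N q hq (fun i => 3 * ((i + 1 : ℕ) : ℝ) ^ (1/3:ℝ) * T)
  have hj1' : (1:ℝ) ≤ j := by exact_mod_cast hj1
  have hj2' : (j:ℝ) ≤ (q:ℝ) ^ N := by exact_mod_cast hj2
  refine ⟨j * T, by nlinarith, by nlinarith, ?_⟩
  intro m h0 hm
  obtain ⟨k, hk⟩ := hj (m - 1) (by omega)
  refine ⟨k, ?_⟩
  have e : m - 1 + 1 = m := by omega
  simp only [e] at hk
  rw [show 3 * (m:ℝ) ^ (1/3:ℝ) * (j * T) = j * (3 * (m:ℝ) ^ (1/3:ℝ) * T) by ring]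
  exact hk

lemma ok_three : ok 3 = 1 := by
  unfold ok
  norm_num

/-- the shifted main series -/
noncomputable def b3 (δ : ℝ) (n : ℕ) (v : ℝ) (m : ℕ) : ℝ :=
  (1 / (Real.pi * √3)) * (dk 3 m * (m : ℝ) ^ (-(2/3) : ℝ) * Cq δ n ((m : ℝ) ^ (1/3 : ℝ)) v)

lemma tk3 (δ : ℝ) (n : ℕ) (R : ℝ) (m : ℕ) : tk 3 δ n R m =
    dk 3 m * (m : ℝ) ^ (-(2/3) : ℝ) * (1 / (Real.pi * √3)) *
      (ex (3 * (m:ℝ) ^ (1/3:ℝ) * R) * cf (3 * (m:ℝ) ^ (1/3:ℝ) * δ) ^ n).re := by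
  unfold tk ck
  rw [ok_three, one_mul]
  have e : (-((((3:ℕ):ℝ) + 1) / (2 * ((3:ℕ):ℝ)))) = (-(2/3) : ℝ) := by norm_num
  rw [e]
  push_cast
  rfl

lemma b3_eq (δ : ℝ) (n : ℕ) (v : ℝ) (m : ℕ) : b3 δ n v m = tk 3 δ n (-v) m := by
  rw [tk3]
  unfold b3 Cq
  rw [show -(3 * (m:ℝ) ^ (1/3:ℝ) * v) = 3 * (m:ℝ) ^ (1/3:ℝ) * (-v) by ring]
  ring

lemma norm_ex1 (y : ℝ) : ‖ex y‖ = 1 := Pool.Agent.H383.OM.norm_ex y

lemma pi3 : 5 ≤ Real.pi * √3 := by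
  have hpi := Real.pi_gt_three
  have h2 : (17:ℝ)/10 ≤ √3 := Real.le_sqrt_of_sq_le (by norm_num)
  nlinarith

lemma tk3_shift (δ : ℝ) (n : ℕ) (τ v : ℝ) (m : ℕ) : |tk 3 δ n (τ - v) m - b3 δ n v m| ≤
    dk 3 m * (m : ℝ) ^ (-(2/3) : ℝ) * (1/5) * (‖ex (3 * (m:ℝ) ^ (1/3:ℝ) * τ) - 1‖ * ‖cf (3 * (m:ℝ) ^ (1/3:ℝ) * δ)‖ ^ n) := by
  rw [b3_eq, tk3, tk3]
  have hd := dk_nonneg 3 m
  rw [← mul_sub, ← Complex.sub_re, abs_mul]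
  have hpi := pi3
  have h3 : |dk 3 m * (m : ℝ) ^ (-(2/3) : ℝ) * (1 / (Real.pi * √3))| ≤ dk 3 m * (m : ℝ) ^ (-(2/3) : ℝ) * (1/5) := by
    rw [abs_of_nonneg (by positivity)]
    have : 1 / (Real.pi * √3) ≤ 1/5 := one_div_le_one_div_of_le (by norm_num) hpi
    gcongr
  set y : ℝ := (m:ℝ) ^ (1/3:ℝ) with hy
  have h4 : ‖ex (3 * y * (τ - v)) * cf (3 * y * δ) ^ n - ex (3 * y * (-v)) * cf (3 * y * δ) ^ n‖ =
      ‖ex (3 * y * τ) - 1‖ * ‖cf (3 * y * δ)‖ ^ n := by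
    have e : ex (3 * y * (τ - v)) * cf (3 * y * δ) ^ n - ex (3 * y * (-v)) * cf (3 * y * δ) ^ n =
      ex (3 * y * (-v)) * ((ex (3 * y * τ) - 1) * cf (3 * y * δ) ^ n) := by
      rw [show 3 * y * (τ - v) = 3 * y * τ + 3 * y * (-v) by ring, Pool.Agent.H383.OM.ex_add]
      ring
    rw [e, norm_mul, norm_ex1, norm_mul, norm_pow]
    ring
  have h5 := Complex.abs_re_le_norm (ex (3 * y * (τ - v)) * cf (3 * y * δ) ^ n - ex (3 * y * (-v)) * cf (3 * y * δ) ^ n)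
  rw [h4] at h5
  exact mul_le_mul h3 h5 (abs_nonneg _) (by positivity)

lemma cube_pow {x : ℝ} (hx : 0 ≤ x) : (x ^ (1/3:ℝ)) ^ 6 = x ^ 2 := by
  rw [← Real.rpow_natCast, ← Real.rpow_mul hx, ← Real.rpow_natCast]
  norm_num

lemma cf_pow_le3 {N n m : ℕ} (hN : 1 ≤ N) (hn : 6 ≤ n) (hm : N < m) :
    ‖cf (3 * (m:ℝ) ^ (1/3:ℝ) * (1 / (3 * (N:ℝ) ^ (1/3:ℝ))))‖ ^ n ≤ (1 / Real.pi) ^ n * ((N:ℝ)^2 * (m:ℝ) ^ (-2:ℝ)) := by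
  have hN0 : (0:ℝ) < N := by exact_mod_cast hN
  have hNm : (N:ℝ) < m := by exact_mod_cast hm
  have hm0 : (0:ℝ) < m := by linarith
  have hs : 0 < (m:ℝ) ^ (1/3:ℝ) := by positivity
  have hs' : 0 < (N:ℝ) ^ (1/3:ℝ) := by positivity
  have hpi := Real.pi_pos
  have h1 := Pool.Agent.H383.OM.cf_le (y := 3 * (m:ℝ) ^ (1/3:ℝ) * (1 / (3 * (N:ℝ) ^ (1/3:ℝ)))) (by positivity)
  have h2 : 1 / (Real.pi * (3 * (m:ℝ) ^ (1/3:ℝ) * (1 / (3 * (N:ℝ) ^ (1/3:ℝ))))) =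
      (1 / Real.pi) * ((N:ℝ) ^ (1/3:ℝ) / (m:ℝ) ^ (1/3:ℝ)) := by
    field_simp
  rw [h2] at h1
  have h3 : (N:ℝ) ^ (1/3:ℝ) / (m:ℝ) ^ (1/3:ℝ) ≤ 1 := by
    rw [div_le_one hs]; exact Real.rpow_le_rpow hN0.le hNm.le (by norm_num)
  calc _ ≤ ((1 / Real.pi) * ((N:ℝ) ^ (1/3:ℝ) / (m:ℝ) ^ (1/3:ℝ))) ^ n := pow_le_pow_left₀ (norm_nonneg _) h1 n
    _ = (1 / Real.pi) ^ n * ((N:ℝ) ^ (1/3:ℝ) / (m:ℝ) ^ (1/3:ℝ)) ^ n := mul_pow _ _ _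
    _ ≤ (1 / Real.pi) ^ n * ((N:ℝ) ^ (1/3:ℝ) / (m:ℝ) ^ (1/3:ℝ)) ^ 6 := by
        apply mul_le_mul_of_nonneg_left _ (by positivity)
        exact pow_le_pow_of_le_one (by positivity) h3 hn
    _ = _ := by
        congr 1
        rw [div_pow, cube_pow hN0.le, cube_pow hm0.le, Real.rpow_neg hm0.le]
        norm_cast

lemma shift_sum3 {C1 : ℝ} 
    (hh : ∀ N : ℕ, 1 ≤ N → ∑ m ∈ Finset.Icc 1 N, dk 3 m * (m:ℝ) ^ (-(2/3):ℝ) ≤ C1 * (N:ℝ) ^ (1/3:ℝ) * (1 + Real.log N) ^ 2)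
    (ht : ∀ N : ℕ, 1 ≤ N → Summable (fun m : ℕ => if N < m then dk 3 m * (m:ℝ) ^ (-(8/3):ℝ) else 0) ∧
      ∑' m : ℕ, (if N < m then dk 3 m * (m:ℝ) ^ (-(8/3):ℝ) else 0) ≤ C1 * (N:ℝ) ^ (-(5/3):ℝ) * (1 + Real.log N) ^ 2)
    {N n q : ℕ} (hN : 1 ≤ N) (hn : 6 ≤ n) (hq : 1 ≤ q) {τ v : ℝ}
    (hτ : ∀ m : ℕ, 1 ≤ m → m ≤ N → ∃ k : ℤ, |3 * (m:ℝ) ^ (1/3:ℝ) * τ - k| ≤ 1 / q) :
    |∑' m, tk 3 (1 / (3 * (N:ℝ) ^ (1/3:ℝ))) n (τ - v) m - ∑' m, b3 (1 / (3 * (N:ℝ) ^ (1/3:ℝ))) n v m| ≤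
      2 * C1 * (N:ℝ) ^ (1/3:ℝ) * (1 + Real.log N) ^ 2 / q + C1 * (1 / Real.pi) ^ n * (N:ℝ) ^ (1/3:ℝ) * (1 + Real.log N) ^ 2 := by
  have hN0 : (0:ℝ) < N := by exact_mod_cast hN
  have hq0 : (0:ℝ) < q := by exact_mod_cast hq
  have hL := Pool.Agent.H383.OM.one_add_log_pos hN
  have hpi := Real.pi_pos
  set δ : ℝ := 1 / (3 * (N:ℝ) ^ (1/3:ℝ)) with hδ
  have hδ0 : 0 < δ := by rw [hδ]; positivity
  have hs1 : Summable (tk 3 δ n (τ - v)) := tk_summable (by norm_num) hδ0 (by omega) _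
  have hs2 : Summable (b3 δ n v) := by
    have : b3 δ n v = tk 3 δ n (-v) := by funext m; exact b3_eq δ n v m
    rw [this]; exact tk_summable (by norm_num) hδ0 (by omega) _
  obtain ⟨ht1, ht2⟩ := ht N hN
  -- majorant
  set g : ℕ → ℝ := fun m => (if m ∈ Finset.Icc 1 N then dk 3 m * (m:ℝ) ^ (-(2/3):ℝ) * (2/q) else 0) +
    (2/5) * (1 / Real.pi) ^ n * (N:ℝ)^2 * (if N < m then dk 3 m * (m:ℝ) ^ (-(8/3):ℝ) else 0) with hg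
  have hg1 : Summable (fun m => if m ∈ Finset.Icc 1 N then dk 3 m * (m:ℝ) ^ (-(2/3):ℝ) * (2/q) else 0) :=
    summable_of_ne_finset_zero (s := Finset.Icc 1 N) (fun m hm => by simp only [hm, if_false])
  have hg2 : Summable (fun m => (2/5) * (1 / Real.pi) ^ n * (N:ℝ)^2 * (if N < m then dk 3 m * (m:ℝ) ^ (-(8/3):ℝ) else 0)) := ht1.mul_left _
  have hgs : Summable g := hg1.add hg2
  have hle : ∀ m, |tk 3 δ n (τ - v) m - b3 δ n v m| ≤ g m := by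
    intro m
    have h0 := tk3_shift δ n τ v m
    have hd := dk_nonneg 3 m
    rcases Nat.lt_or_ge N m with h1 | h1
    · -- large m
      have h2 : ‖ex (3 * (m:ℝ) ^ (1/3:ℝ) * τ) - 1‖ ≤ 2 := by
        calc _ ≤ ‖ex (3 * (m:ℝ) ^ (1/3:ℝ) * τ)‖ + ‖(1:ℂ)‖ := norm_sub_le _ _
          _ = 2 := by rw [norm_ex1, norm_one]; norm_num
      have h3 := cf_pow_le3 hN hn h1
      rw [← hδ] at h3
      have hm0 : (0:ℝ) < m := by exact_mod_cast (by omega : 0 < m)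
      have h4 : g m = (2/5) * (1 / Real.pi) ^ n * (N:ℝ)^2 * (dk 3 m * (m:ℝ) ^ (-(8/3):ℝ)) := by
        rw [hg]
        simp only [Finset.mem_Icc]
        rw [if_neg (by omega), zero_add, if_pos h1]
      rw [h4]
      refine h0.trans ?_
      calc dk 3 m * (m : ℝ) ^ (-(2/3) : ℝ) * (1/5) * (‖ex (3 * (m:ℝ) ^ (1/3:ℝ) * τ) - 1‖ * ‖cf (3 * (m:ℝ) ^ (1/3:ℝ) * δ)‖ ^ n) ≤
          dk 3 m * (m : ℝ) ^ (-(2/3) : ℝ) * (1/5) * (2 * ((1 / Real.pi) ^ n * ((N:ℝ)^2 * (m:ℝ) ^ (-2:ℝ)))) := by gcongr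
        _ = (2/5) * (1 / Real.pi) ^ n * (N:ℝ)^2 * (dk 3 m * ((m : ℝ) ^ (-(2/3) : ℝ) * (m:ℝ) ^ (-2:ℝ))) := by ring
        _ = _ := by rw [← Real.rpow_add hm0]; norm_num
    · rcases Nat.eq_zero_or_pos m with h5 | h5
      · subst h5
        rw [dk_zero] at h0 
        have : 0 ≤ g 0 := by
          rw [hg]; simp only [Finset.mem_Icc]
          rw [if_neg (by omega), if_neg (by omega)]
          simp
        simp only [zero_mul] at h0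
        exact h0.trans this
      · obtain ⟨k, hk⟩ := hτ m h5 h1
        have h2 : ‖ex (3 * (m:ℝ) ^ (1/3:ℝ) * τ) - 1‖ ≤ 2 * Real.pi * (1/q) := Pool.Agent.H383.OM.ex_near k hk
        have h3 : ‖cf (3 * (m:ℝ) ^ (1/3:ℝ) * δ)‖ ^ n ≤ 1 := pow_le_one₀ (norm_nonneg _) (Pool.Agent.H383.OM.cf_le_one _)
        have h4 : g m = dk 3 m * (m:ℝ) ^ (-(2/3):ℝ) * (2/q) := by
          rw [hg]
          simp only [Finset.mem_Icc]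
          rw [if_pos ⟨h5, h1⟩, if_neg (by omega), mul_zero, add_zero]
        rw [h4]
        refine h0.trans ?_
        have hpi4 := Real.pi_lt_d2
        calc dk 3 m * (m : ℝ) ^ (-(2/3) : ℝ) * (1/5) * (‖ex (3 * (m:ℝ) ^ (1/3:ℝ) * τ) - 1‖ * ‖cf (3 * (m:ℝ) ^ (1/3:ℝ) * δ)‖ ^ n) ≤
            dk 3 m * (m : ℝ) ^ (-(2/3) : ℝ) * (1/5) * ((2 * Real.pi * (1/q)) * 1) := by gcongr
          _ = dk 3 m * (m : ℝ) ^ (-(2/3) : ℝ) * ((2 * Real.pi / 5) / q) := by ring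
          _ ≤ _ := by
            apply mul_le_mul_of_nonneg_left _ (by positivity)
            apply div_le_div_of_nonneg_right _ hq0.le
            linarith
  rw [← hs1.tsum_sub hs2]
  have h6 : |∑' m, (tk 3 δ n (τ - v) m - b3 δ n v m)| ≤ ∑' m, g m := by
    rw [← Real.norm_eq_abs]
    exact tsum_of_norm_bounded hgs.hasSum (fun m => by rw [Real.norm_eq_abs]; exact hle m)
  refine h6.trans ?_
  rw [hg, hg1.tsum_add hg2, tsum_mul_left]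
  apply add_le_add
  · rw [tsum_eq_sum (s := Finset.Icc 1 N) (fun m hm => by simp only [hm, if_false])]
    rw [Finset.sum_ite_mem, Finset.inter_self, ← Finset.sum_mul]
    have h7 := hh N hN
    calc (∑ m ∈ Finset.Icc 1 N, dk 3 m * (m:ℝ) ^ (-(2/3):ℝ)) * (2/q) ≤
        (C1 * (N:ℝ) ^ (1/3:ℝ) * (1 + Real.log N) ^ 2) * (2/q) := by gcongr
      _ = _ := by ring
  · have e : (N:ℝ)^2 * (N:ℝ) ^ (-(5/3):ℝ) = (N:ℝ) ^ (1/3:ℝ) := by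
      rw [← Real.rpow_natCast, ← Real.rpow_add hN0]; norm_num
    have hC1 : 0 ≤ C1 * (N:ℝ) ^ (-(5/3):ℝ) * (1 + Real.log N) ^ 2 := by
      refine le_trans (tsum_nonneg (fun m => ?_)) ht2
      split_ifs
      · have := dk_nonneg 3 m; positivity
      · exact le_rfl
    calc (2/5) * (1 / Real.pi) ^ n * (N:ℝ)^2 * ∑' m : ℕ, (if N < m then dk 3 m * (m:ℝ) ^ (-(8/3):ℝ) else 0) ≤
        (2/5) * (1 / Real.pi) ^ n * (N:ℝ)^2 * (C1 * (N:ℝ) ^ (-(5/3):ℝ) * (1 + Real.log N) ^ 2) := by gcongr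
      _ ≤ 1 * (1 / Real.pi) ^ n * (N:ℝ)^2 * (C1 * (N:ℝ) ^ (-(5/3):ℝ) * (1 + Real.log N) ^ 2) := by
        apply mul_le_mul_of_nonneg_right _ hC1
        have : 0 ≤ (1 / Real.pi) ^ n * (N:ℝ)^2 := by positivity
        nlinarith
      _ = C1 * (1 / Real.pi) ^ n * ((N:ℝ)^2 * (N:ℝ) ^ (-(5/3):ℝ)) * (1 + Real.log N) ^ 2 := by ring
      _ = _ := by rw [e]

end Pool.Agent.H383.PZ
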