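import Mathlib
import Pool.Agent.H383.OM.F
import Pool.Agent.H383.PZ.V4
import Pool.Agent.H383.PZ.W2
import Pool.Agent.H459R2.PZA2
import Pool.Agent.H662R2.PZA3
import Pool.Agent.H814R2.PZA4

open MeasureTheory Filter Topology
open Pool.Agent.H387R2.Vor
open Pool.Agent.H383.OM (nN nN_ge nN_low nN_up nN_up' nN_tendsto one_add_log_pos ev2)

namespace Pool.Agent.H383.PZ

/-- the main term and the crude bound -/
theorem base3 : ∃ P : Polynomial ℝ, P.natDegree < 3 ∧ P.coeff 2 = 1/2 ∧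
    (∃ C : ℝ, 0 < C ∧ ∀ (n : ℕ) (R δ : ℝ), 8 ≤ n → 1 ≤ R → 0 < δ → δ ≤ 1/2 →
      |(∫ x, Fk 3 P (R + x) ∂(mu δ n)) - ∑' m : ℕ, tk 3 δ n R m| ≤ C * (R ^ (-(1/4) : ℝ) * δ ^ (-3:ℝ))) ∧
    (∃ C : ℝ, 0 < C ∧ ∀ y : ℝ, 1 ≤ y → |Dk 3 y - y * P.eval (Real.log y)| ≤ C * y ^ (2/3:ℝ) * (1 + Real.log y) ^ 2) := by
  obtain ⟨P, hP, hP2, hV⟩ := voronoi_k 3 (by norm_num)
  have hcr := Pool.Agent.H814R2.PZA4.crude 3 (by norm_num) P hV
  refine ⟨P, hP, ?_, ?_, ?_⟩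
  · simpa [Nat.factorial] using hP2
  · obtain ⟨C, hC, h⟩ := hV
    refine ⟨C, hC, fun n R δ hn hR hδ hδ2 => ?_⟩
    have := h n R δ (by omega) hR hδ hδ2
    push_cast at this
    exact this
  · obtain ⟨C, hC, h⟩ := hcr
    refine ⟨C, hC, fun y hy => ?_⟩
    have := h y hy
    push_cast at this
    have e : (1 - 1/3 : ℝ) = 2/3 := by norm_num
    rw [e] at this
    exact this

lemma crude34 {P : Polynomial ℝ} {C : ℝ} (hC : 0 < C)
    (h : ∀ y : ℝ, 1 ≤ y → |Dk 3 y - y * P.eval (Real.log y)| ≤ C * y ^ (2/3:ℝ) * (1 + Real.log y) ^ 2) :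
    ∀ y : ℝ, 1 ≤ y → |Dk 3 y - y * P.eval (Real.log y)| ≤ (625 * C) * y ^ (3/4:ℝ) := by
  intro y hy
  refine (h y hy).trans ?_
  have hy0 : 0 < y := by linarith
  have h1 : Real.log y ≤ 24 * y ^ (1/24:ℝ) := by
    have := Real.log_le_rpow_div hy0.le (by norm_num : (0:ℝ) < 1/24)
    linarith
  have h2 : 1 ≤ y ^ (1/24:ℝ) := Real.one_le_rpow hy (by norm_num)
  have h3 : 0 ≤ Real.log y := Real.log_nonneg hy
  have h4 : (1 + Real.log y) ^ 2 ≤ (25 * y ^ (1/24:ℝ)) ^ 2 := by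
    apply pow_le_pow_left₀ (by linarith); linarith
  have h5 : y ^ (2/3:ℝ) * (y ^ (1/24:ℝ)) ^ 2 = y ^ (3/4:ℝ) := by
    rw [← Real.rpow_natCast, ← Real.rpow_mul hy0.le, ← Real.rpow_add hy0]; norm_num
  calc C * y ^ (2/3:ℝ) * (1 + Real.log y) ^ 2 ≤ C * y ^ (2/3:ℝ) * (25 * y ^ (1/24:ℝ)) ^ 2 := by gcongr
    _ = 625 * C * (y ^ (2/3:ℝ) * (y ^ (1/24:ℝ)) ^ 2) := by ring
    _ = _ := by rw [h5]

/-- the quality of the near period -/
noncomputable def q3 (N : ℕ) : ℕ := ⌈(1 + Real.log N) ^ 2⌉₊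

lemma ev_n2 (K : ℝ) (hK : 0 < K) : ∀ᶠ N : ℕ in atTop, K * (nN N : ℝ) ^ 2 ≤ Real.log N := by
  have h1 : ∀ᶠ x : ℝ in atTop, K * (2 * Real.log (1 + x) + 10) ^ 2 ≤ x := by
    have h2 := isLittleO_log_rpow_atTop (r := 1/4) (by norm_num)
    have h3 := h2.bound (c := 1) (by norm_num)
    have h3' : ∀ᶠ x : ℝ in atTop, ‖Real.log (1 + x)‖ ≤ 1 * ‖(1 + x) ^ (1/4:ℝ)‖ :=
      (tendsto_atTop_add_const_left atTop (1:ℝ) tendsto_id).eventually h3
    have h4 : Tendsto (fun x : ℝ => x ^ (1/2:ℝ)) atTop atTop := tendsto_rpow_atTop (by norm_num)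
    have h5 : Tendsto (fun x : ℝ => x ^ (1/4:ℝ)) atTop atTop := tendsto_rpow_atTop (by norm_num)
    filter_upwards [h3', h4.eventually_ge_atTop (K * 49), h5.eventually_ge_atTop 10, eventually_ge_atTop 1] with x h5 h6 h6' h7
    rw [Real.norm_eq_abs, Real.norm_eq_abs, abs_of_nonneg (Real.log_nonneg (by linarith)),
      abs_of_nonneg (by positivity : 0 ≤ (1 + x) ^ (1/4:ℝ)), one_mul] at h5
    have h8 : (1 + x) ^ (1/4:ℝ) ≤ 2 * x ^ (1/4:ℝ) := by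
      calc (1 + x) ^ (1/4:ℝ) ≤ (16 * x) ^ (1/4:ℝ) := Real.rpow_le_rpow (by linarith) (by linarith) (by norm_num)
        _ = 16 ^ (1/4:ℝ) * x ^ (1/4:ℝ) := Real.mul_rpow (by norm_num) (by linarith)
        _ = _ := by
          rw [show (16:ℝ) = 2 ^ (4:ℝ) by norm_num, ← Real.rpow_mul (by norm_num)]; norm_num
    have h9 : 2 * Real.log (1 + x) + 10 ≤ 5 * x ^ (1/4:ℝ) := by linarith
    have hl : 0 ≤ Real.log (1 + x) := Real.log_nonneg (by linarith)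
    have h10 : (2 * Real.log (1 + x) + 10) ^ 2 ≤ (5 * x ^ (1/4:ℝ)) ^ 2 := pow_le_pow_left₀ (by linarith) h9 2
    have h11 : (x ^ (1/4:ℝ)) ^ 2 = x ^ (1/2:ℝ) := by
      rw [← Real.rpow_natCast, ← Real.rpow_mul (by linarith)]; norm_num
    have h12 : x ^ (1/2:ℝ) * x ^ (1/2:ℝ) = x := by
      rw [← Real.rpow_add (by linarith)]; norm_num
    have h13 : 0 < x ^ (1/2:ℝ) := by positivity
    calc K * (2 * Real.log (1 + x) + 10) ^ 2 ≤ K * (5 * x ^ (1/4:ℝ)) ^ 2 := by gcongr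
      _ = (K * 25) * x ^ (1/2:ℝ) := by rw [mul_pow, h11]; ring
      _ ≤ x ^ (1/2:ℝ) * x ^ (1/2:ℝ) := by
          apply mul_le_mul_of_nonneg_right _ h13.le
          linarith
      _ = x := h12
  have h2 : Tendsto (fun N : ℕ => Real.log N) atTop atTop :=
    Real.tendsto_log_atTop.comp tendsto_natCast_atTop_atTop
  filter_upwards [h2.eventually h1, eventually_ge_atTop 1] with N h3 hN
  refine le_trans ?_ h3
  have h4 := nN_up hN
  gcongr

lemma ev_pi (K : ℝ) (hK : 0 < K) : ∀ᶠ N : ℕ in atTop,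
    K * ((nN N : ℝ) * (1 / Real.pi) ^ (nN N) * (1 + Real.log N) ^ 2) ≤ Real.log N := by
  have h1 : Tendsto (fun n : ℕ => (n:ℝ) * (11/20:ℝ)^n) atTop (𝓝 0) :=
    tendsto_self_mul_const_pow_of_lt_one (by norm_num) (by norm_num)
  have h2 := (h1.comp nN_tendsto).eventually (gt_mem_nhds (show (0:ℝ) < 1/(2*K) by positivity))
  have h2' : Tendsto (fun N : ℕ => Real.log N) atTop atTop :=
    Real.tendsto_log_atTop.comp tendsto_natCast_atTop_atTop
  filter_upwards [h2, eventually_ge_atTop 1, h2'.eventually_ge_atTop 1] with N h3 hN hlog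
  simp only [Function.comp_apply] at h3
  set n := nN N with hn
  have hn8 : 8 ≤ n := nN_ge N
  have hn0 : (0:ℝ) < n := by exact_mod_cast (by omega : 0 < n)
  have hpi := Real.pi_gt_three
  have hpi0 := Real.pi_pos
  have h4 := nN_low hN
  rw [← hn] at h4
  have h5 : Real.exp (((n : ℝ) - 8) / 2) ≤ (33/20:ℝ)^n := by
    have e1 : Real.exp (((n : ℝ) - 8) / 2) ≤ Real.exp ((n:ℝ) * (1/2)) := Real.exp_le_exp.mpr (by linarith)
    refine e1.trans ?_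
    rw [Real.exp_nat_mul]
    apply pow_le_pow_left₀ (Real.exp_pos _).le
    have e2 : Real.exp (1/2) ^ 2 = Real.exp 1 := by
      rw [← Real.exp_nat_mul]; norm_num
    have e3 := Real.exp_one_lt_d9
    have e4 : Real.exp (1/2) ^ 2 ≤ (33/20)^2 := by rw [e2]; linarith
    exact (pow_le_pow_iff_left₀ (Real.exp_pos _).le (by norm_num) (by norm_num)).mp e4
  have h6 : (1 / Real.pi) ^ n ≤ (1/3:ℝ)^n := by
    apply pow_le_pow_left₀ (by positivity)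
    exact one_div_le_one_div_of_le (by norm_num) hpi.le
  have hL0 : 0 ≤ 1 + Real.log N := by linarith
  have h7 : (n:ℝ) * (1 / Real.pi) ^ n * (1 + Real.log N) ≤ 1 / (2 * K) := by
    calc (n:ℝ) * (1 / Real.pi) ^ n * (1 + Real.log N) ≤ n * (1/3:ℝ)^n * (33/20:ℝ)^n := by
          gcongr
          exact h4.trans h5
      _ = n * (11/20:ℝ)^n := by rw [mul_assoc, ← mul_pow]; norm_num
      _ ≤ _ := h3.le
  calc K * ((n:ℝ) * (1 / Real.pi) ^ n * (1 + Real.log N) ^ 2) =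
      K * ((n:ℝ) * (1 / Real.pi) ^ n * (1 + Real.log N)) * (1 + Real.log N) := by ring
    _ ≤ K * (1 / (2 * K)) * (1 + Real.log N) := by gcongr
    _ = (1 + Real.log N) / 2 := by field_simp
    _ ≤ _ := by linarith

theorem core3 {C1 : ℝ} (hC1 : 0 < C1)
    (hh : ∀ N : ℕ, 1 ≤ N → ∑ m ∈ Finset.Icc 1 N, dk 3 m * (m:ℝ) ^ (-(2/3):ℝ) ≤ C1 * (N:ℝ) ^ (1/3:ℝ) * (1 + Real.log N) ^ 2)
    (ht : ∀ N : ℕ, 1 ≤ N → Summable (fun m : ℕ => if N < m then dk 3 m * (m:ℝ) ^ (-(8/3):ℝ) else 0) ∧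
      ∑' m : ℕ, (if N < m then dk 3 m * (m:ℝ) ^ (-(8/3):ℝ) else 0) ≤ C1 * (N:ℝ) ^ (-(5/3):ℝ) * (1 + Real.log N) ^ 2) :
    ∃ P : Polynomial ℝ, P.natDegree < 3 ∧ P.coeff 2 = 1/2 ∧
    (∃ C : ℝ, 0 < C ∧ ∀ y : ℝ, 1 ≤ y → |Dk 3 y - y * P.eval (Real.log y)| ≤ C * y ^ (2/3:ℝ) * (1 + Real.log y) ^ 2) ∧
    ∃ N₁ : ℕ, 1 ≤ N₁ ∧ ∀ N : ℕ, N₁ ≤ N → ∀ T : ℝ, (N:ℝ) ^ 4 + 1 ≤ T →
    ∃ t : ℝ, T - 1 ≤ t ∧ t ≤ (q3 N:ℝ)^N * T ∧
      Fk 3 P t ≤ -(1/44) * ((N:ℝ)^(1/3:ℝ) * Real.log N / nN N) := by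
  obtain ⟨P, hP, hP2, ⟨CV, hCV, hV⟩, ⟨Cc, hCc, hcr⟩⟩ := base3
  refine ⟨P, hP, hP2, ⟨Cc, hCc, hcr⟩, ?_⟩
  obtain ⟨C2, b, c, hC2, h2⟩ := Pool.Agent.H459R2.PZA2.sum_sub_Q3 P hP hP2 _ (crude34 hCc hcr)
  obtain ⟨v₀, hv₀, hQ3⟩ := Pool.Agent.H662R2.PZA3.Q3_le b c
  -- eventual conditions
  have hv₀' : ∀ᶠ N : ℕ in atTop, (N:ℝ) ^ (-(1/4):ℝ) ≤ v₀ := by
    have h4 : Tendsto (fun x : ℝ => x ^ (-(1/4):ℝ)) atTop (𝓝 0) := tendsto_rpow_neg_atTop (by norm_num)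
    have := (h4.comp tendsto_natCast_atTop_atTop).eventually (gt_mem_nhds hv₀)
    filter_upwards [this] with N h
    exact le_of_lt h
  have hA := ev_n2 (100 * (2 * C2 + 2 * C1 + 27 * CV)) (by positivity)
  have hB := ev_pi (100 * C1) (by positivity)
  have hlog : ∀ᶠ N : ℕ in atTop, 1 ≤ Real.log N :=
    (Real.tendsto_log_atTop.comp tendsto_natCast_atTop_atTop).eventually_ge_atTop 1
  obtain ⟨N₁, hN₁⟩ := eventually_atTop.mp (hv₀'.and (ev2.and (hA.and (hB.and hlog))))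
  refine ⟨max N₁ 16, by omega, ?_⟩
  intro N hN T hT
  obtain ⟨hva, hn16, hA, hB, hlog⟩ := hN₁ N (le_trans (le_max_left _ _) hN)
  have hN16 : 16 ≤ N := le_trans (le_max_right _ _) hN
  have hN1 : 1 ≤ N := by omega
  have hNR : (16:ℝ) ≤ N := by exact_mod_cast hN16
  have hN0 : (0:ℝ) < N := by linarith
  set n := nN N with hn
  have hn8 : 8 ≤ n := nN_ge N
  have hn8' : (8:ℝ) ≤ n := by exact_mod_cast hn8
  have hn0 : (0:ℝ) < n := by linarith
  have hL := one_add_log_pos hN1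
  have hpi := Real.pi_gt_three
  have hpi0 := Real.pi_pos
  set q := q3 N with hq
  have hq1 : (1 + Real.log N) ^ 2 ≤ q := Nat.le_ceil _
  have hqpos : (1:ℝ) ≤ q := by nlinarith
  have hq1' : 1 ≤ q := by exact_mod_cast hqpos
  have hN4 : (0:ℝ) < (N:ℝ) ^ 4 := by positivity
  obtain ⟨τ, hτ1, hτ2, hτ⟩ := near_period3 N q hq1' (T := T) (by linarith)
  set A : ℝ := (N:ℝ) ^ (1/3:ℝ) with hAdef
  have hA3 : A ^ 3 = N := by
    rw [hAdef, ← Real.rpow_natCast, ← Real.rpow_mul hN0.le]; norm_num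
  have hA2 : 2 ≤ A := by
    by_contra hcon
    push Not at hcon
    have : 0 < A := by positivity
    have : A ^ 3 < 2 ^ 3 := pow_lt_pow_left₀ hcon this.le (by norm_num)
    rw [hA3] at this
    linarith
  have hA0 : 0 < A := by linarith
  set δ : ℝ := 1 / (3 * A) with hδ
  have hδ0 : 0 < δ := by positivity
  have hδ1 : δ ≤ 1/2 := by
    rw [hδ]; apply one_div_le_one_div_of_le (by norm_num); linarith
  set v : ℝ := 2 * n * δ with hvδ
  have hv0 : 0 < v := by positivity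
  have hv : v = (2/3) * (n / A) := by rw [hvδ, hδ]; field_simp
  have hnδ : n * δ ≤ v := by rw [hvδ]; nlinarith
  have hnδ' : n * δ < v := by rw [hvδ]; nlinarith
  have hvN : v ≤ (N:ℝ) ^ (-(1/4):ℝ) := by
    rw [hv]
    have e1 : (n:ℝ) / A ≤ (N:ℝ) ^ (-(1/4):ℝ) := by
      rw [div_le_iff₀ hA0, hAdef, ← Real.rpow_add hN0]
      calc (n:ℝ) ≤ (N:ℝ) ^ (1/16:ℝ) := hn16
        _ ≤ _ := Real.rpow_le_rpow_of_exponent_le (by linarith) (by norm_num)
    have e2 : 0 ≤ (n:ℝ)/A := by positivity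
    linarith
  have hvv : v ≤ v₀ := hvN.trans hva
  have hv1 : v ≤ 1 := hvN.trans (Real.rpow_le_one_of_one_le_of_nonpos (by linarith) (by norm_num))
  set G : ℝ := A * Real.log N / n with hG
  have hG0 : 0 < G := by
    rw [hG]; apply div_pos _ hn0; apply mul_pos hA0; linarith
  -- v⁻¹ log v⁻¹
  have hvG : G / 4 ≤ v⁻¹ * Real.log v⁻¹ := by
    have e1 : v⁻¹ = (3/2) * (A / n) := by rw [hv]; field_simp
    have e2 : (N:ℝ) ^ (1/4:ℝ) ≤ v⁻¹ := by
      rw [le_inv_comm₀ (by positivity) hv0, ← Real.rpow_neg hN0.le]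
      exact hvN
    have e3 : (1/4) * Real.log N ≤ Real.log v⁻¹ := by
      have := Real.log_le_log (by positivity) e2
      rwa [Real.log_rpow hN0] at this
    have e4 : 0 < v⁻¹ := by positivity
    calc G / 4 ≤ ((3/2) * (A / n)) * ((1/4) * Real.log N) := by
          rw [hG]
          have : A * Real.log N / n = (A/n) * Real.log N := by ring
          rw [this]
          have : 0 ≤ (A/n) * Real.log N := mul_nonneg (by positivity) (by linarith)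
          linarith
      _ ≤ v⁻¹ * Real.log v⁻¹ := by
          rw [← e1]
          exact mul_le_mul_of_nonneg_left e3 e4.le
  -- main series
  have hS := h2 n δ v (by omega) hδ0 hnδ hv1
  have hQ := hQ3 n δ v (by omega) hδ0 hnδ' hvv
  have hvd : v / δ ^ 2 = 6 * n * A := by rw [hvδ, hδ]; field_simp; norm_num
  rw [hvd] at hS
  have hS' := (abs_le.mp hS).2
  have hB' : ∑' m, b3 δ n v m = (1 / (Real.pi * √3)) * ∑' m : ℕ, dk 3 m * (m : ℝ) ^ (-(2/3) : ℝ) * Cq δ n ((m : ℝ) ^ (1/3 : ℝ)) v := by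
    unfold b3
    rw [tsum_mul_left]
  have hs3u : √3 ≤ 1.7321 := by rw [Real.sqrt_le_left (by norm_num)]; norm_num
  have hpi3u : Real.pi * √3 ≤ 11/2 := by
    have := Real.pi_lt_d4
    have h0 : 0 ≤ √3 := Real.sqrt_nonneg _
    nlinarith
  have hpi3l := pi3
  have hnA : 16 ≤ n * A := by nlinarith
  have hbsum : ∑' m, b3 δ n v m ≤ -(1/22) * G + 2 * C2 * (n * A) := by
    rw [hB']
    have e1 : ∑' m : ℕ, dk 3 m * (m : ℝ) ^ (-(2/3) : ℝ) * Cq δ n ((m : ℝ) ^ (1/3 : ℝ)) v ≤ -(G/4) + C2 * (1 + 6 * n * A) := by linarith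
    have e3 : 2/11 ≤ 1 / (Real.pi * √3) := by
      rw [le_div_iff₀ (by positivity)]; linarith
    have e4 : 1 / (Real.pi * √3) ≤ 1/5 := one_div_le_one_div_of_le (by norm_num) hpi3l
    have e5 : 0 ≤ C2 * (1 + 6 * (n:ℝ) * A) := by positivity
    have e6 : 0 < 1 / (Real.pi * √3) := by positivity
    calc _ ≤ (1 / (Real.pi * √3)) * (-(G/4) + C2 * (1 + 6 * n * A)) := by gcongr
      _ = -((1 / (Real.pi * √3)) * (G/4)) + (1 / (Real.pi * √3)) * (C2 * (1 + 6 * n * A)) := by ring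
      _ ≤ -((2/11) * (G/4)) + (1/5) * (C2 * (1 + 6 * n * A)) := by
          apply add_le_add
          · apply neg_le_neg; gcongr
          · gcongr
      _ ≤ _ := by nlinarith
  -- shift
  have hsh := shift_sum3 hh ht hN1 (n := n) (by omega) hq1' (τ := τ) (v := v) hτ
  rw [← hAdef, ← hδ] at hsh
  have hsh1 : 2 * C1 * A * (1 + Real.log N) ^ 2 / q ≤ 2 * C1 * A := by
    rw [div_le_iff₀ (by linarith)]
    gcongr
  -- Voronoi error
  have hR1 : (N:ℝ) ^ 4 ≤ τ - v := by linarith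
  have hRR : 1 ≤ τ - v := by
    have : (1:ℝ) ≤ (N:ℝ)^4 := one_le_pow₀ (by linarith)
    linarith
  have hVe := hV n (τ - v) δ (by omega) hRR hδ0 hδ1
  have hVe2 : (τ - v) ^ (-(1/4) : ℝ) * δ ^ (-3 : ℝ) ≤ 27 := by
    have e1 : (τ - v) ^ (-(1/4) : ℝ) ≤ ((N:ℝ) ^ 4) ^ (-(1/4) : ℝ) :=
      Real.rpow_le_rpow_of_nonpos hN4 hR1 (by norm_num)
    have e1' : ((N:ℝ) ^ 4) ^ (-(1/4) : ℝ) = (N:ℝ)⁻¹ := by
      rw [← Real.rpow_natCast, ← Real.rpow_mul hN0.le, ← Real.rpow_neg_one]; norm_num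
    have e2 : δ ^ (-3 : ℝ) = 27 * N := by
      rw [← hA3, hδ, one_div, Real.inv_rpow (by positivity), Real.rpow_neg (by positivity), inv_inv]
      norm_cast
      ring
    rw [e2]
    rw [e1'] at e1
    calc (τ - v) ^ (-(1/4) : ℝ) * (27 * N) ≤ (N:ℝ)⁻¹ * (27 * N) := by gcongr
      _ = 27 := by field_simp
  -- the total error
  have herr : 2 * C2 * (n * A) + 2 * C1 * A + C1 * (1 / Real.pi) ^ n * A * (1 + Real.log N) ^ 2 + CV * 27 < (1/44) * G := by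
    have f1 : (2 * C2 * (n * A) + 2 * C1 * A + C1 * (1 / Real.pi) ^ n * A * (1 + Real.log N) ^ 2 + CV * 27) * n ≤
        A * ((2 * C2 + 2 * C1 + 27 * CV) * n^2 + C1 * (n * (1 / Real.pi) ^ n * (1 + Real.log N) ^ 2)) := by
      have g1 : (n:ℝ) ≤ n^2 := by nlinarith
      have g2 : (2 * C1 * A) * n ≤ (2 * C1 * A) * n^2 := by gcongr
      have g3 : (CV * 27) * n ≤ (CV * 27 * A) * n^2 := by
        calc (CV * 27) * n ≤ (CV * 27 * 1) * n^2 := by rw [mul_one]; gcongr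
          _ ≤ _ := by gcongr; linarith
      calc _ = 2 * C2 * A * n^2 + (2 * C1 * A) * n + A * (C1 * (n * (1 / Real.pi) ^ n * (1 + Real.log N) ^ 2)) + (CV * 27) * n := by ring
        _ ≤ 2 * C2 * A * n^2 + (2 * C1 * A) * n^2 + A * (C1 * (n * (1 / Real.pi) ^ n * (1 + Real.log N) ^ 2)) + (CV * 27 * A) * n^2 := by linarith
        _ = _ := by ring
    have f2 : (2 * C2 + 2 * C1 + 27 * CV) * (n:ℝ)^2 ≤ (1/100) * Real.log N := by linarith
    have f3 : C1 * (n * (1 / Real.pi) ^ n * (1 + Real.log N) ^ 2) ≤ (1/100) * Real.log N := by linarith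
    have f4 : (2 * C2 * (n * A) + 2 * C1 * A + C1 * (1 / Real.pi) ^ n * A * (1 + Real.log N) ^ 2 + CV * 27) * n ≤
        A * ((1/50) * Real.log N) := by
      refine f1.trans ?_
      apply mul_le_mul_of_nonneg_left _ hA0.le
      linarith
    rw [hG]
    rw [show (1/44) * (A * Real.log N / n) = ((1/44) * (A * Real.log N)) / n by ring, lt_div_iff₀ hn0]
    have : 0 < A * Real.log N := mul_pos hA0 (by linarith)
    linarith
  have hAn : ∫ x, Fk 3 P ((τ - v) + x) ∂(mu δ n) < -(1/44) * G := by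
    have e1 := (abs_le.mp hVe).2
    have e2 := (abs_le.mp hsh).2
    have e3 : CV * ((τ - v) ^ (-(1/4) : ℝ) * δ ^ (-3 : ℝ)) ≤ CV * 27 := by gcongr
    linarith
  -- conclusion
  by_contra hcon
  push Not at hcon
  have hlow : -(1/44) * G ≤ ∫ x, Fk 3 P ((τ - v) + x) ∂(mu δ n) := by
    have := mu_prob hδ0 n
    have e0 : ∫ x, (-(1/44) * G) ∂(mu δ n) = -(1/44) * G := by simp
    rw [← e0]
    apply integral_mono_ae (integrable_const _) (Fk_int (by norm_num) P hδ0 n hRR)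
    filter_upwards [mu_supp hδ0 n] with x hx
    have := hcon (τ - v + x) (by linarith [hx.1]) (by linarith [hx.2])
    exact this.le
  linarith

end Pool.Agent.H383.PZ
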