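import Mathlib
import Pool.Agent.H383.OM.G
import Pool.Agent.H383.PZ.W3

open MeasureTheory Filter Topology
open Pool.Agent.H383.OM (nN nN_ge nN_up one_add_log_pos tendsto_w w_small)

namespace Pool.Agent.H383.PZ

lemma eval3 {P : Polynomial ℝ} (hP : P.natDegree < 3) (x : ℝ) :
    P.eval x = P.coeff 0 + P.coeff 1 * x + P.coeff 2 * x ^ 2 := by
  rw [Polynomial.eval_eq_sum_range' hP]
  simp [Finset.sum_range_succ]

lemma main_diff {P : Polynomial ℝ} (hP : P.natDegree < 3) : ∃ C : ℝ, 0 < C ∧ ∀ a b : ℝ, 1 ≤ a → a ≤ b → b ≤ a + 1 →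
    |b * P.eval (Real.log b) - a * P.eval (Real.log a)| ≤ C * (1 + Real.log b) ^ 2 := by
  refine ⟨|P.coeff 0| + |P.coeff 1| + |P.coeff 2| + 1, by positivity, ?_⟩
  intro a b ha hab hba
  have ha0 : 0 < a := by linarith
  have hb0 : 0 < b := by linarith
  have hla : 0 ≤ Real.log a := Real.log_nonneg ha
  have hlb : 0 ≤ Real.log b := Real.log_nonneg (by linarith)
  have hl : Real.log a ≤ Real.log b := Real.log_le_log ha0 hab
  have hd : a * (Real.log b - Real.log a) ≤ 1 := by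
    have h1 := Real.log_le_sub_one_of_pos (show 0 < b / a by positivity)
    rw [Real.log_div hb0.ne' ha0.ne'] at h1
    have h2 : a * (b / a - 1) = b - a := by field_simp
    calc a * (Real.log b - Real.log a) ≤ a * (b / a - 1) := by gcongr
      _ = b - a := h2
      _ ≤ 1 := by linarith
  have hd0 : 0 ≤ a * (Real.log b - Real.log a) := mul_nonneg ha0.le (by linarith)
  rw [eval3 hP, eval3 hP]
  set x := Real.log a
  set y := Real.log b
  have e : b * (P.coeff 0 + P.coeff 1 * y + P.coeff 2 * y ^ 2) - a * (P.coeff 0 + P.coeff 1 * x + P.coeff 2 * x ^ 2) =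
      P.coeff 0 * (b - a) + P.coeff 1 * ((b - a) * y + a * (y - x)) + P.coeff 2 * ((b - a) * y ^ 2 + (a * (y - x)) * (y + x)) := by
    ring
  rw [e]
  have h1 : |P.coeff 0 * (b - a)| ≤ |P.coeff 0| * (1 + y) ^ 2 := by
    rw [abs_mul, abs_of_nonneg (by linarith : 0 ≤ b - a)]
    apply mul_le_mul_of_nonneg_left _ (abs_nonneg _)
    nlinarith
  have h2 : |P.coeff 1 * ((b - a) * y + a * (y - x))| ≤ |P.coeff 1| * (1 + y) ^ 2 := by
    have f0 : 0 ≤ (b - a) * y := mul_nonneg (by linarith) hlb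
    have f1 : (b - a) * y ≤ 1 * y := mul_le_mul_of_nonneg_right (by linarith) hlb
    rw [abs_mul, abs_of_nonneg (by linarith : 0 ≤ (b - a) * y + a * (y - x))]
    apply mul_le_mul_of_nonneg_left _ (abs_nonneg _)
    nlinarith
  have h3 : |P.coeff 2 * ((b - a) * y ^ 2 + (a * (y - x)) * (y + x))| ≤ |P.coeff 2| * (1 + y) ^ 2 := by
    have f0 : 0 ≤ (b - a) * y ^ 2 := mul_nonneg (by linarith) (by positivity)
    have f1 : (b - a) * y ^ 2 ≤ 1 * y ^ 2 := mul_le_mul_of_nonneg_right (by linarith) (by positivity)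
    have f2 : (a * (y - x)) * (y + x) ≤ 1 * (2 * y) := mul_le_mul hd (by linarith) (by linarith) (by norm_num)
    have f3 : 0 ≤ (a * (y - x)) * (y + x) := mul_nonneg hd0 (by linarith)
    rw [abs_mul, abs_of_nonneg (by linarith : 0 ≤ (b - a) * y ^ 2 + (a * (y - x)) * (y + x))]
    apply mul_le_mul_of_nonneg_left _ (abs_nonneg _)
    nlinarith
  have h4 : 0 ≤ (1 + y) ^ 2 := by positivity
  calc _ ≤ |P.coeff 0 * (b - a)| + |P.coeff 1 * ((b - a) * y + a * (y - x))| +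
        |P.coeff 2 * ((b - a) * y ^ 2 + (a * (y - x)) * (y + x))| := by
        refine (abs_add_le _ _).trans ?_
        gcongr
        exact abs_add_le _ _
    _ ≤ _ := by nlinarith

/-- the choice of `N` -/
noncomputable def N3 (l : ℝ) : ℕ := ⌊l / (24 * Real.log (Real.log l))⌋₊

lemma N3_facts : ∀ᶠ l : ℝ in atTop, l / (48 * Real.log (Real.log l)) ≤ (N3 l : ℝ) ∧
    (N3 l : ℝ) ≤ l / (24 * Real.log (Real.log l)) ∧ 1 ≤ Real.log (Real.log l) ∧ l ^ (1/2:ℝ) ≤ (N3 l : ℝ) := by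
  have h4 : Tendsto (fun x : ℝ => x ^ (1/4:ℝ)) atTop atTop := tendsto_rpow_atTop (by norm_num)
  filter_upwards [w_small, tendsto_w.eventually_ge_atTop 1, eventually_ge_atTop 10000, h4.eventually_ge_atTop 48] with l h1 h2 h3 h4
  set w := Real.log (Real.log l) with hw
  have hl0 : 0 < l := by linarith
  have h5' : l ^ (1/2:ℝ) ≤ l / (48 * w) := by
    rw [le_div_iff₀ (by positivity)]
    have e1 : l ^ (1/2:ℝ) * (l ^ (1/4:ℝ) * l ^ (1/4:ℝ)) = l := by
      rw [← Real.rpow_add hl0, ← Real.rpow_add hl0]; norm_num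
    have e2 : 48 * w ≤ l ^ (1/4:ℝ) * l ^ (1/4:ℝ) := by
      apply mul_le_mul h4 h1 (by linarith) (by positivity)
    calc l ^ (1/2:ℝ) * (48 * w) ≤ l ^ (1/2:ℝ) * (l ^ (1/4:ℝ) * l ^ (1/4:ℝ)) := by gcongr
      _ = l := e1
  have h4' : 1 ≤ l / (48 * w) := by
    refine le_trans ?_ h5'
    exact Real.one_le_rpow (by linarith) (by norm_num)
  have h5 : l / (24 * w) = 2 * (l / (48 * w)) := by field_simp; norm_num
  have h6 := Nat.lt_floor_add_one (l / (24 * w))
  have h7 := Nat.floor_le (show 0 ≤ l / (24 * w) by positivity)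
  have h8 : l / (48 * w) ≤ (N3 l : ℝ) := by
    unfold N3
    rw [← hw]
    linarith
  exact ⟨h8, h7, h2, h5'.trans h8⟩

lemma N3_tendsto : Tendsto N3 atTop atTop := by
  rw [← tendsto_natCast_atTop_iff (R := ℝ)]
  have h4 : Tendsto (fun x : ℝ => x ^ (1/2:ℝ)) atTop atTop := tendsto_rpow_atTop (by norm_num)
  apply tendsto_atTop_mono' atTop _ h4
  filter_upwards [N3_facts] with l h1
  exact h1.2.2.2

lemma params3 : ∀ᶠ l : ℝ in atTop, (N3 l : ℝ) * Real.log (q3 (N3 l)) ≤ l / 6 - Real.log 2 ∧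
    (nN (N3 l) : ℝ) ≤ 4 * Real.log (Real.log l) ∧ 1 ≤ N3 l ∧ (0:ℝ) < q3 (N3 l) := by
  filter_upwards [N3_tendsto.eventually_ge_atTop 1, N3_facts, tendsto_w.eventually_ge_atTop 100, Real.tendsto_log_atTop.eventually_ge_atTop 10,
    eventually_ge_atTop 10000] with l h1b h2 h3 h4 h5
  obtain ⟨h2a, h2b, h2c, h2d⟩ := h2
  set N := N3 l with hN
  set w := Real.log (Real.log l) with hw
  have hl0 : 0 < l := by linarith
  have hL := one_add_log_pos h1b
  have hN0 : (0:ℝ) < N := by exact_mod_cast h1b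
  have hNl : (N:ℝ) ≤ l := by
    refine h2b.trans (div_le_self hl0.le (by linarith))
  have hlogN' := Real.log_le_log hN0 hNl
  have hlogN : 2 + Real.log N ≤ 2 * Real.log l := by linarith
  have a2 : Real.log 2 ≤ 1 := by
    have := Real.log_two_lt_d9; linarith
  have hll : Real.log (2 + Real.log N) ≤ w + 1 := by
    have a1 := Real.log_le_log (by linarith : 0 < 2 + Real.log N) hlogN
    rw [Real.log_mul (by norm_num) (by linarith)] at a1
    linarith
  have hll1 : Real.log (1 + Real.log N) ≤ w + 1 := by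
    refine le_trans ?_ hll
    exact Real.log_le_log (by linarith) (by linarith)
  have b0 : 1 ≤ (1 + Real.log N) ^ 2 := by nlinarith
  have b1 : (q3 N : ℝ) ≤ (2 + Real.log N) ^ 2 := by
    have b3 := Nat.ceil_lt_add_one (by linarith : 0 ≤ (1 + Real.log N) ^ 2)
    unfold q3
    nlinarith
  have b6 : (0:ℝ) < q3 N := by
    have := Nat.le_ceil ((1 + Real.log N) ^ 2)
    unfold q3
    linarith
  refine ⟨?_, ?_, h1b, b6⟩
  · have b7 : Real.log (q3 N) ≤ 2 * (w + 1) := by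
      have := Real.log_le_log b6 b1
      rw [Real.log_pow] at this
      push_cast at this
      linarith
    calc (N:ℝ) * Real.log (q3 N) ≤ (N:ℝ) * (2 * (w + 1)) := by gcongr
      _ ≤ (l / (24 * w)) * (3 * w) := by
          apply mul_le_mul h2b (by linarith) (by linarith) (by positivity)
      _ = l / 8 := by field_simp; norm_num
      _ ≤ l / 6 - Real.log 2 := by linarith
  · have := nN_up h1b
    linarith

lemma Dk_floor (k : ℕ) (x : ℝ) : Dk k (⌊x⌋₊ : ℝ) = Dk k x := by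
  unfold Dk; rw [Nat.floor_natCast]

theorem omega3 {C1 : ℝ} (hC1 : 0 < C1)
    (hh : ∀ N : ℕ, 1 ≤ N → ∑ m ∈ Finset.Icc 1 N, dk 3 m * (m:ℝ) ^ (-(2/3):ℝ) ≤ C1 * (N:ℝ) ^ (1/3:ℝ) * (1 + Real.log N) ^ 2)
    (ht : ∀ N : ℕ, 1 ≤ N → Summable (fun m : ℕ => if N < m then dk 3 m * (m:ℝ) ^ (-(8/3):ℝ) else 0) ∧
      ∑' m : ℕ, (if N < m then dk 3 m * (m:ℝ) ^ (-(8/3):ℝ) else 0) ≤ C1 * (N:ℝ) ^ (-(5/3):ℝ) * (1 + Real.log N) ^ 2) :
    ∃ P : Polynomial ℝ, P.natDegree < 3 ∧ P.coeff 2 = 1/2 ∧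
    (∃ C : ℝ, 0 < C ∧ ∀ y : ℝ, 1 ≤ y → |Dk 3 y - y * P.eval (Real.log y)| ≤ C * y ^ (2/3:ℝ) * (1 + Real.log y) ^ 2) ∧
    ∃ c : ℝ, 0 < c ∧ ∀ᶠ X : ℝ in atTop, ∃ n : ℕ, √X ≤ n ∧ (n:ℝ) ≤ X ∧
    Dk 3 n - n * P.eval (Real.log n) ≤ -c * ((n:ℝ) * Real.log n) ^ (1/3:ℝ) * Real.log (Real.log n) *
      (Real.log (Real.log (Real.log n))) ^ (-(4/3):ℝ) := by
  obtain ⟨P, hP, hP2, hcr, N₁, hN₁, hcore⟩ := core3 hC1 hh ht
  refine ⟨P, hP, hP2, hcr, ?_⟩
  obtain ⟨CM, hCM, hM⟩ := main_diff hP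
  set c1 : ℝ := (1/44) * ((1/48:ℝ) ^ (1/3:ℝ) * (1/8)) with hc1
  have hc10 : 0 < c1 := by positivity
  refine ⟨c1/8, by positivity, ?_⟩
  have hev : ∀ᶠ l : ℝ in atTop, N₁ ≤ N3 l ∧ (l / (48 * Real.log (Real.log l)) ≤ (N3 l : ℝ) ∧
    (N3 l : ℝ) ≤ l / (24 * Real.log (Real.log l)) ∧ 1 ≤ Real.log (Real.log l) ∧ l ^ (1/2:ℝ) ≤ (N3 l : ℝ)) ∧
    ((N3 l : ℝ) * Real.log (q3 (N3 l)) ≤ l / 6 - Real.log 2 ∧ (nN (N3 l) : ℝ) ≤ 4 * Real.log (Real.log l) ∧ 1 ≤ N3 l ∧ (0:ℝ) < q3 (N3 l)) ∧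
    Real.log (Real.log l) ≤ l ^ (1/4:ℝ) ∧ 2 ≤ Real.log (Real.log (l/2)) ∧
    Real.log (Real.log l) / 2 ≤ Real.log (Real.log (l/2)) ∧
    l ^ 4 + 1 ≤ Real.exp (l/6) ∧ 2 * CM * (1 + l) ^ 2 * l ≤ c1 * Real.exp (l/6) := by
    have a1 : ∀ᶠ l : ℝ in atTop, 2 ≤ Real.log (Real.log (l/2)) :=
      (tendsto_w.comp (tendsto_id.atTop_div_const (by norm_num : (0:ℝ) < 2))).eventually_ge_atTop 2
    have a2 : ∀ᶠ l : ℝ in atTop, Real.log (Real.log l) / 2 ≤ Real.log (Real.log (l/2)) := by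
      filter_upwards [tendsto_w.eventually_ge_atTop 2, Real.tendsto_log_atTop.eventually_ge_atTop 4,
        eventually_gt_atTop 0] with l b1 b2 b3
      have b4 : Real.log l / 2 ≤ Real.log (l/2) := by
        rw [Real.log_div b3.ne' (by norm_num)]
        have := Real.log_two_lt_d9
        linarith
      have b5 : Real.log (Real.log l / 2) ≤ Real.log (Real.log (l/2)) :=
        Real.log_le_log (by linarith) b4
      rw [Real.log_div (by linarith) (by norm_num)] at b5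
      have := Real.log_two_lt_d9
      linarith
    have a3 : ∀ᶠ l : ℝ in atTop, l ^ 4 + 1 ≤ Real.exp (l/6) := by
      have b1 := (Real.isLittleO_pow_exp_atTop (n := 4)).bound (c := 1/2592) (by norm_num)
      have b2 : Tendsto (fun l : ℝ => l/6) atTop atTop := tendsto_id.atTop_div_const (by norm_num)
      filter_upwards [b2.eventually b1, eventually_ge_atTop 10] with l b3 b4
      have b5 : 1 ≤ l ^ 4 := one_le_pow₀ (by linarith)
      rw [Real.norm_eq_abs, abs_of_nonneg (by positivity), Real.norm_eq_abs, abs_of_pos (Real.exp_pos _)] at b3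
      have b6 : (l/6)^4 = l^4/1296 := by ring
      rw [b6] at b3
      linarith
    have a4 : ∀ᶠ l : ℝ in atTop, 2 * CM * (1 + l) ^ 2 * l ≤ c1 * Real.exp (l/6) := by
      have b1 := (Real.isLittleO_pow_exp_atTop (n := 3)).bound (c := c1/(8 * CM * 216)) (by positivity)
      have b2 : Tendsto (fun l : ℝ => l/6) atTop atTop := tendsto_id.atTop_div_const (by norm_num)
      filter_upwards [b2.eventually b1, eventually_ge_atTop 10] with l b3 b4
      rw [Real.norm_eq_abs, abs_of_nonneg (by positivity), Real.norm_eq_abs, abs_of_pos (Real.exp_pos _)] at b3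
      have b6 : (l/6)^3 = l^3/216 := by ring
      rw [b6] at b3
      have b7 : c1/(8 * CM * 216) * Real.exp (l/6) = (c1 * Real.exp (l/6)) / (8 * CM) / 216 := by field_simp
      rw [b7] at b3
      have b8 : l^3 ≤ (c1 * Real.exp (l/6)) / (8 * CM) := by linarith
      rw [le_div_iff₀ (by positivity)] at b8
      have b9 : (1 + l) ^ 2 ≤ 4 * l ^ 2 := by nlinarith
      calc 2 * CM * (1 + l) ^ 2 * l ≤ 2 * CM * (4 * l^2) * l := by gcongr
        _ = l ^ 3 * (8 * CM) := by ring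
        _ ≤ _ := b8
    filter_upwards [N3_tendsto.eventually_ge_atTop N₁, N3_facts, params3, w_small, a1, a2, a3, a4] with l b1 b2 b3 b4 b5 b6 b7 b8
    exact ⟨b1, b2, b3, b4, b5, b6, b7, b8⟩
  filter_upwards [Real.tendsto_log_atTop.eventually hev, eventually_ge_atTop (10000:ℝ)] with X hX hX0
  obtain ⟨h1, ⟨h2a, h2b, h2c, h2d⟩, ⟨h3a, h3b, h3c, h3d⟩, h4, h5, h6, h7, h8⟩ := hX
  set l := Real.log X with hl
  set N := N3 l with hN
  set w := Real.log (Real.log l) with hw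
  have hXpos : 0 < X := by linarith
  have hXe : Real.exp l = X := Real.exp_log hXpos
  have hN1 : 1 ≤ N := hN₁.trans h1
  have hN0 : (0:ℝ) < N := by exact_mod_cast hN1
  have hl9 : 9 ≤ l := by
    have a1 : Real.log 10000 ≤ l := Real.log_le_log (by norm_num) hX0
    have a2 : (9:ℝ) ≤ Real.log 10000 := by
      rw [Real.le_log_iff_exp_le (by norm_num)]
      have e := Real.exp_one_lt_d9
      calc Real.exp 9 = Real.exp 1 ^ 9 := by rw [← Real.exp_nat_mul]; norm_num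
        _ ≤ (2.7182818286)^9 := by gcongr
        _ ≤ 10000 := by norm_num
    linarith
  have hNl : (N:ℝ) ≤ l := h2b.trans (div_le_self (by linarith) (by linarith))
  -- T
  set T : ℝ := 2 * Real.exp (l/6) with hT
  have hN4 : (N:ℝ)^4 ≤ l^4 := by gcongr
  have he6 : 10 ≤ Real.exp (l/6) := by
    have : (9:ℝ)^4 ≤ l^4 := by gcongr
    linarith
  have hT1 : (N:ℝ)^4 + 1 ≤ T := by linarith
  obtain ⟨t, ht1, ht2, ht3⟩ := hcore N h1 T hT1
  have ht0 : Real.exp (l/6) + 1 ≤ t := by linarith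
  have htpos : 0 < t := by linarith
  have hX6 : Real.exp (l/6) ^ 3 = √X := by
    rw [← Real.exp_nat_mul, Real.sqrt_eq_rpow, ← hXe, ← Real.exp_mul]
    congr 1; push_cast; ring
  have hX3 : Real.exp (l/6) ^ 6 = X := by
    rw [← Real.exp_nat_mul, ← hXe]
    congr 1; push_cast; ring
  have htX : t ≤ Real.exp (l/6) ^ 2 := by
    refine ht2.trans ?_
    have e1 : (q3 N:ℝ)^N ≤ Real.exp (l/6) / 2 := by
      rw [← Real.exp_log h3d, ← Real.exp_nat_mul]
      have e2 : Real.exp (l/6) / 2 = Real.exp (l/6 - Real.log 2) := by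
        rw [Real.exp_sub, Real.exp_log (by norm_num)]
      rw [e2]
      exact Real.exp_le_exp.mpr h3a
    calc (q3 N:ℝ)^N * T ≤ (Real.exp (l/6) / 2) * (2 * Real.exp (l/6)) := by gcongr
      _ = Real.exp (l/6) ^ 2 := by ring
  -- the size
  have hw0 : 0 < w := by linarith
  have hll0 : 0 < Real.log l := Real.log_pos (by linarith)
  have hlogN : Real.log l / 2 ≤ Real.log N := by
    have := Real.log_le_log (by positivity) h2d
    rw [Real.log_rpow (by linarith)] at this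
    linarith
  set G : ℝ := (N:ℝ)^(1/3:ℝ) * Real.log N / nN N with hG
  set U : ℝ := l ^ (1/3:ℝ) * Real.log l * w ^ (-(4/3):ℝ) with hU
  have hU0 : 0 < U := by rw [hU]; positivity
  have hGl : c1 * U ≤ (1/44) * G := by
    have e1 : (l / (48 * w)) ^ (1/3:ℝ) ≤ (N:ℝ)^(1/3:ℝ) :=
      Real.rpow_le_rpow (by positivity) h2a (by norm_num)
    have hn0 : (0:ℝ) < nN N := by
      have : (8:ℝ) ≤ nN N := by exact_mod_cast nN_ge N
      linarith
    have e2 : (l / (48 * w)) ^ (1/3:ℝ) * (Real.log l / 2) / (4 * w) ≤ G := by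
      rw [hG]; gcongr
    have e3 : (l / (48 * w)) ^ (1/3:ℝ) = (1/48:ℝ)^(1/3:ℝ) * l ^ (1/3:ℝ) * w ^ (-(1/3):ℝ) := by
      rw [show l / (48 * w) = (1/48) * l * w⁻¹ by field_simp, Real.mul_rpow (by positivity) (by positivity),
        Real.mul_rpow (by positivity) (by positivity), Real.inv_rpow hw0.le, Real.rpow_neg hw0.le]
    have e5 : w ^ (-(1/3):ℝ) * w⁻¹ = w ^ (-(4/3):ℝ) := by
      rw [← Real.rpow_neg_one, ← Real.rpow_add hw0]; norm_num
    have e6 : c1 * U = (1/44) * ((l / (48 * w)) ^ (1/3:ℝ) * (Real.log l / 2) / (4 * w)) := by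
      rw [e3, hc1, hU, ← e5]
      field_simp
      norm_num
    rw [e6]
    gcongr
  have hDel : Dk 3 (t^3) - t^3 * P.eval (Real.log (t^3)) ≤ -(c1 * U) * t := by
    have e1 : Dk 3 (t^3) - t^3 * P.eval (Real.log (t^3)) = Fk 3 P t * t := by
      unfold Fk hk
      have : (-(((3:ℕ):ℝ) - 1) / 2 : ℝ) = -1 := by norm_num
      rw [show (-((((3:ℕ):ℝ) - 1) / 2) : ℝ) = -1 by norm_num, Real.rpow_neg_one]
      field_simp
    rw [e1]
    apply mul_le_mul_of_nonneg_right _ htpos.le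
    linarith
  -- the integer
  have hx1 : 1 ≤ t^3 := one_le_pow₀ (by linarith)
  have hxX : t^3 ≤ X := by
    calc t^3 ≤ (Real.exp (l/6) ^ 2)^3 := by gcongr
      _ = Real.exp (l/6) ^ 6 := by ring
      _ = X := hX3
  have hxl : √X + 1 ≤ t^3 := by
    calc √X + 1 = Real.exp (l/6) ^ 3 + 1 := by rw [hX6]
      _ ≤ (Real.exp (l/6) + 1)^3 := by
        have := Real.exp_pos (l/6)
        have h0 : 0 ≤ 3 * Real.exp (l/6) ^ 2 + 3 * Real.exp (l/6) := by positivity
        nlinarith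
      _ ≤ t^3 := by gcongr
  refine ⟨⌊t^3⌋₊, ?_, ?_, ?_⟩
  · have := Nat.lt_floor_add_one (t^3)
    linarith
  · exact (Nat.floor_le (by positivity)).trans hxX
  set n := ⌊t^3⌋₊ with hn
  have hnl : √X ≤ n := by
    have := Nat.lt_floor_add_one (t^3)
    linarith
  have hnu : (n:ℝ) ≤ t^3 := Nat.floor_le (by positivity)
  have hnX : (n:ℝ) ≤ X := hnu.trans hxX
  have hsX : 1 ≤ √X := by rw [← hX6]; exact one_le_pow₀ (by linarith)
  have hn0 : (0:ℝ) < n := by linarith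
  have hn1 : (1:ℝ) ≤ n := by linarith
  have hlogn : Real.log n ≤ l := Real.log_le_log hn0 hnX
  have hlogn2 : l / 2 ≤ Real.log n := by
    have := Real.log_le_log (by linarith) hnl
    rwa [Real.log_sqrt hXpos.le] at this
  have hl2pos : 0 < l/2 := by linarith
  have hll2 : 0 < Real.log (l/2) := Real.log_pos (by linarith)
  have hw3 : w / 2 ≤ Real.log (Real.log (Real.log n)) := by
    refine h6.trans ?_
    apply Real.log_le_log hll2
    apply Real.log_le_log hl2pos hlogn2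
  have hw3pos : 0 < Real.log (Real.log (Real.log n)) := by linarith
  have hlln : 0 ≤ Real.log (Real.log n) := Real.log_nonneg (by linarith)
  have hfin1 : ((n:ℝ) * Real.log n) ^ (1/3:ℝ) ≤ t * l ^ (1/3:ℝ) := by
    have e1 : t = (t^3) ^ (1/3:ℝ) := by
      rw [← Real.rpow_natCast, ← Real.rpow_mul htpos.le]; norm_num
    rw [e1, ← Real.mul_rpow (by positivity) (by linarith)]
    apply Real.rpow_le_rpow _ _ (by norm_num)
    · apply mul_nonneg hn0.le; linarith
    · apply mul_le_mul hnu hlogn (by linarith) (by positivity)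
  have hfin3 : Real.log (Real.log n) ≤ Real.log l := Real.log_le_log (by linarith) hlogn
  have hfin2 : (Real.log (Real.log (Real.log n))) ^ (-(4/3):ℝ) ≤ 4 * w ^ (-(4/3):ℝ) := by
    calc (Real.log (Real.log (Real.log n))) ^ (-(4/3):ℝ) ≤ (w/2) ^ (-(4/3):ℝ) :=
          Real.rpow_le_rpow_of_nonpos (by linarith) hw3 (by norm_num)
      _ = w ^ (-(4/3):ℝ) * (2:ℝ)^(4/3:ℝ) := by
          rw [div_eq_mul_inv, Real.mul_rpow hw0.le (by norm_num), Real.inv_rpow (by norm_num),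
            Real.rpow_neg (by norm_num : (0:ℝ) ≤ 2), inv_inv]
      _ ≤ w ^ (-(4/3):ℝ) * 4 := by
          apply mul_le_mul_of_nonneg_left _ (by positivity)
          calc (2:ℝ)^(4/3:ℝ) ≤ 2 ^ (2:ℝ) := Real.rpow_le_rpow_of_exponent_le (by norm_num) (by norm_num)
            _ = 4 := by norm_num
      _ = _ := by ring
  have hlogx : Real.log (t^3) ≤ l := Real.log_le_log (by positivity) hxX
  have hlogx0 : 0 ≤ Real.log (t^3) := Real.log_nonneg hx1
  have hfl := hM n (t^3) hn1 hnu (by have := Nat.lt_floor_add_one (t^3); linarith)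
  have hfl' : CM * (1 + Real.log (t^3)) ^ 2 ≤ CM * (1 + l) ^ 2 := by gcongr
  -- the main term change is small
  have hsmall : CM * (1 + l) ^ 2 ≤ (1/2) * (c1 * U) * t := by
    have e1 : 1 ≤ U * l := by
      have a1 : w ^ (4/3:ℝ) ≤ l := by
        have a2 : w ^ (4/3:ℝ) ≤ w ^ (4:ℝ) := Real.rpow_le_rpow_of_exponent_le h2c (by norm_num)
        have a3 : w ^ (4:ℝ) ≤ (l ^ (1/4:ℝ)) ^ (4:ℝ) := Real.rpow_le_rpow hw0.le h4 (by norm_num)
        have a4 : (l ^ (1/4:ℝ)) ^ (4:ℝ) = l := by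
          rw [← Real.rpow_mul (by linarith)]; norm_num
        linarith
      have a5 : 1 ≤ w ^ (-(4/3):ℝ) * l := by
        rw [Real.rpow_neg hw0.le, inv_mul_eq_div, le_div_iff₀ (by positivity), one_mul]
        exact a1
      have a6 : 1 ≤ l ^ (1/3:ℝ) := Real.one_le_rpow (by linarith) (by norm_num)
      have a7 : 1 ≤ Real.log l := by
        rw [Real.le_log_iff_exp_le (by linarith)]
        have := Real.exp_one_lt_d9
        linarith
      have a8 : 1 ≤ l ^ (1/3:ℝ) * Real.log l := one_le_mul_of_one_le_of_one_le a6 a7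
      calc (1:ℝ) ≤ (l ^ (1/3:ℝ) * Real.log l) * (w ^ (-(4/3):ℝ) * l) := one_le_mul_of_one_le_of_one_le a8 a5
        _ = U * l := by rw [hU]; ring
    have e2 : 2 * CM * (1 + l) ^ 2 * l ≤ c1 * t := by
      refine h8.trans ?_
      gcongr
      linarith
    have e3 : 2 * CM * (1 + l) ^ 2 ≤ 2 * CM * (1 + l) ^ 2 * (U * l) := le_mul_of_one_le_right (by positivity) e1
    have e4 : 2 * CM * (1 + l) ^ 2 * (U * l) = (2 * CM * (1 + l) ^ 2 * l) * U := by ring
    have e5 : (2 * CM * (1 + l) ^ 2 * l) * U ≤ (c1 * t) * U := by gcongr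
    linarith
  have hgoal : Dk 3 n - n * P.eval (Real.log n) ≤ -(1/2) * (c1 * U) * t := by
    have e1 : Dk 3 (n:ℝ) = Dk 3 (t^3) := by rw [hn]; exact Dk_floor 3 _
    rw [e1]
    have e2 := (abs_le.mp hfl).2
    linarith
  refine hgoal.trans ?_
  have e1 : ((n:ℝ) * Real.log n) ^ (1/3:ℝ) * Real.log (Real.log n) * (Real.log (Real.log (Real.log n))) ^ (-(4/3):ℝ) ≤
      ((t * l ^ (1/3:ℝ)) * Real.log l) * (4 * w ^ (-(4/3):ℝ)) := by
    apply mul_le_mul (mul_le_mul hfin1 hfin3 hlln (by positivity)) hfin2 (by positivity) (by positivity)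
  have e2 := mul_le_mul_of_nonneg_left e1 (by positivity : 0 ≤ c1/8)
  calc _ = -((c1/8) * (((t * l ^ (1/3:ℝ)) * Real.log l) * (4 * w ^ (-(4/3):ℝ)))) := by rw [hU]; ring
    _ ≤ -((c1/8) * (((n:ℝ) * Real.log n) ^ (1/3:ℝ) * Real.log (Real.log n) * (Real.log (Real.log (Real.log n))) ^ (-(4/3):ℝ))) := by linarith
    _ = _ := by ring

end Pool.Agent.H383.PZ
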