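import Mathlib
import Pool.Agent.H383.PZ.W1
import Pool.Agent.H383.PZ.W4

open MeasureTheory Filter Topology

namespace Pool.Agent.H383.PZ

theorem omega3' :
    ∃ P : Polynomial ℝ, P.natDegree < 3 ∧ P.coeff 2 = 1/2 ∧
    (∃ C : ℝ, 0 < C ∧ ∀ y : ℝ, 1 ≤ y → |Dk 3 y - y * P.eval (Real.log y)| ≤ C * y ^ (2/3:ℝ) * (1 + Real.log y) ^ 2) ∧
    ∃ c : ℝ, 0 < c ∧ ∀ᶠ X : ℝ in atTop, ∃ n : ℕ, √X ≤ n ∧ (n:ℝ) ≤ X ∧
    Dk 3 n - n * P.eval (Real.log n) ≤ -c * ((n:ℝ) * Real.log n) ^ (1/3:ℝ) * Real.log (Real.log n) *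
      (Real.log (Real.log (Real.log n))) ^ (-(4/3):ℝ) := by
  obtain ⟨Ca, hCa, ha⟩ := dk_head 3 (by norm_num) (2/3) (by norm_num) (by norm_num)
  obtain ⟨Cb, hCb, hb⟩ := dk_tail 3 (by norm_num) (8/3) (by norm_num)
  refine omega3 (C1 := Ca + Cb) (by positivity) ?_ ?_
  · intro N hN
    have h := ha N hN
    have hL := Pool.Agent.H383.OM.one_add_log_pos hN
    rw [show (1 - 2/3 : ℝ) = 1/3 by norm_num] at h
    simp only [Nat.reduceSub] at h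
    refine h.trans ?_
    have : 0 ≤ Cb * (N:ℝ) ^ (1/3:ℝ) * (1 + Real.log N) ^ 2 := by positivity
    linarith
  · intro N hN
    obtain ⟨h1, h⟩ := hb N hN
    refine ⟨h1, ?_⟩
    have hL := Pool.Agent.H383.OM.one_add_log_pos hN
    rw [show (1 - 8/3 : ℝ) = -(5/3) by norm_num] at h
    simp only [Nat.reduceSub] at h
    refine h.trans ?_
    have : 0 ≤ Ca * (N:ℝ) ^ (-(5/3):ℝ) * (1 + Real.log N) ^ 2 := by positivity
    linarith

end Pool.Agent.H383.PZ
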